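import Pool.Agent.CTOR.Basic

/-!
# CTOR B: alternating words and the limit induction of section 2
-/

namespace CTOR

open Filter Topology

section Words

variable {H : Type*} [Group H]

/-- The alternating word `u v u v ...` of length `k`. -/
def wd : ℕ → H → H → H
  | 0, _, _ => 1
  | k + 1, u, v => u * wd k v u

@[simp] theorem wd_zero (u v : H) : wd 0 u v = 1 := rfl

theorem wd_succ (k : ℕ) (u v : H) : wd (k + 1) u v = u * wd k v u := rfl

@[simp] theorem wd_one (u v : H) : wd 1 u v = u := by simp [wd]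

theorem wd_two (u v : H) : wd 2 u v = u * v := by simp [wd]

theorem wd_succ_right (k : ℕ) (u v : H) :
    wd (k + 1) u v = wd k u v * (if Even k then u else v) := by
  induction k generalizing u v with
  | zero => simp [wd]
  | succ k ih =>
    rw [wd_succ (k + 1), ih v u, wd_succ k u v, mul_assoc]
    congr 2
    by_cases h : Even k <;> simp [h, Nat.even_add_one]

theorem wd_two_mul (k : ℕ) (u v : H) : wd (2 * k) u v = (u * v) ^ k := by
  induction k with
  | zero => simp
  | succ k ih =>
    rw [show 2 * (k + 1) = 2 * k + 1 + 1 by ring, wd_succ, wd_succ, ih, pow_succ', mul_assoc]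

end Words

/-- The limit induction of section 2. -/
theorem lim_induction (D : ℕ → ℕ → ℝ) (L : ℝ)
    (h1 : Tendsto (fun m => D m 1 / (m : ℝ) ^ 2) atTop (𝓝 (L ^ 2)))
    (h2 : Tendsto (fun m => D m 2 / (m : ℝ) ^ 2) atTop (𝓝 (4 * L ^ 2)))
    (hrec : ∀ m k (lam : ℝ), 0 < lam →
      2 * D m (k + 1) ≤ 2 * D m 1 + lam * D m k + lam⁻¹ * D m (k + 2))
    (hup : ∀ m k, D m k ≤ (k : ℝ) ^ 2 * D m 1) (k : ℕ) :
    Tendsto (fun m => D m (k + 1) / (m : ℝ) ^ 2) atTop (𝓝 (((k : ℝ) + 1) ^ 2 * L ^ 2)) := by
  have key : ∀ k : ℕ,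
      Tendsto (fun m => D m (k + 1) / (m : ℝ) ^ 2) atTop (𝓝 (((k : ℝ) + 1) ^ 2 * L ^ 2)) ∧
      Tendsto (fun m => D m (k + 2) / (m : ℝ) ^ 2) atTop (𝓝 (((k : ℝ) + 2) ^ 2 * L ^ 2)) := by
    intro k
    induction k with
    | zero =>
      constructor
      · simpa using h1
      · have : (((0 : ℕ) : ℝ) + 2) ^ 2 * L ^ 2 = 4 * L ^ 2 := by norm_num
        rw [this]
        exact h2
    | succ k ih =>
      refine ⟨?_, ?_⟩
      · have e : (((k + 1 : ℕ) : ℝ) + 1) = (k : ℝ) + 2 := by push_cast; ring
        rw [e]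
        exact ih.2
      · -- the new limit
        have e : (((k + 1 : ℕ) : ℝ) + 2) = (k : ℝ) + 3 := by push_cast; ring
        rw [e]
        have hk1 : (0 : ℝ) < (k : ℝ) + 1 := by positivity
        have hk3 : (0 : ℝ) < (k : ℝ) + 3 := by positivity
        set lam : ℝ := ((k : ℝ) + 3) / (k + 1) with hlam
        have hl : 0 < lam := by positivity
        -- lower bound
        have hlow : ∀ m, lam * (2 * (D m (k + 2) / (m : ℝ) ^ 2) - 2 * (D m 1 / (m : ℝ) ^ 2) -
            lam * (D m (k + 1) / (m : ℝ) ^ 2)) ≤ D m (k + 1 + 2) / (m : ℝ) ^ 2 := by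
          intro m
          have g := hrec m (k + 1) lam hl
          have g' : lam * (2 * D m (k + 2) - 2 * D m 1 - lam * D m (k + 1)) ≤
              D m (k + 1 + 2) := by
            have h3 : 2 * D m (k + 2) - 2 * D m 1 - lam * D m (k + 1) ≤
                lam⁻¹ * D m (k + 1 + 2) := by
              have : D m (k + 1 + 1) = D m (k + 2) := rfl
              rw [this] at g
              linarith
            have h4 := mul_le_mul_of_nonneg_left h3 hl.le
            rwa [mul_inv_cancel_left₀ hl.ne'] at h4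
          have h5 := div_le_div_of_nonneg_right g' (sq_nonneg (m : ℝ))
          calc _ = lam * (2 * D m (k + 2) - 2 * D m 1 - lam * D m (k + 1)) / (m : ℝ) ^ 2 := by
                ring
            _ ≤ _ := h5
        have hupp : ∀ m, D m (k + 1 + 2) / (m : ℝ) ^ 2 ≤
            ((k : ℝ) + 3) ^ 2 * (D m 1 / (m : ℝ) ^ 2) := by
          intro m
          have g := hup m (k + 1 + 2)
          have h5 := div_le_div_of_nonneg_right g (sq_nonneg (m : ℝ))
          calc _ ≤ _ := h5
            _ = _ := by push_cast; ring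
        have l1 : Tendsto (fun m => lam * (2 * (D m (k + 2) / (m : ℝ) ^ 2) -
            2 * (D m 1 / (m : ℝ) ^ 2) - lam * (D m (k + 1) / (m : ℝ) ^ 2))) atTop
            (𝓝 (((k : ℝ) + 3) ^ 2 * L ^ 2)) := by
          have := (((ih.2.const_mul 2).sub (h1.const_mul 2)).sub (ih.1.const_mul lam)).const_mul lam
          convert this using 2
          rw [hlam]
          field_simp
          ring
        have l2 : Tendsto (fun m => ((k : ℝ) + 3) ^ 2 * (D m 1 / (m : ℝ) ^ 2)) atTop
            (𝓝 (((k : ℝ) + 3) ^ 2 * L ^ 2)) := h1.const_mul _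
        exact tendsto_of_tendsto_of_tendsto_of_le_of_le l1 l2 hlow hupp
  exact (key k).1

end CTOR
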