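import Pool.Agent.CTOR.Walk
import Pool.Agent.CTOR.DriftLim

/-!
# CTOR B: zero drift (section 2)
-/

namespace CTOR

open Filter Topology

universe u v

variable {H : Type v} [Group H] {X : Type u} [MetricSpace X]

theorem dist_mul_left (ρ : H →* (X ≃ᵢ X)) (o : X) (g k : H) :
    dist (ρ g o) (ρ (g * k) o) = dist o (ρ k o) := by
  rw [map_mul, IsometryEquiv.mul_apply, (ρ g).dist_eq]

/-- The double expectation of the squared displacement of the alternating word. -/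
noncomputable def DD (ρ : H →* (X ≃ᵢ X)) (o : X) (f : MonoidAlgebra ℝ H) (k : ℕ) : ℝ :=
  Ex f (fun u => Ex f (fun v => dist o (ρ (wd k u v) o) ^ 2))

theorem DD_swap (ρ : H →* (X ≃ᵢ X)) (o : X) (f : MonoidAlgebra ℝ H) (k : ℕ) :
    Ex f (fun u => Ex f (fun v => dist o (ρ (wd k v u) o) ^ 2)) = DD ρ o f k :=
  Ex_comm f f (fun u v => dist o (ρ (wd k v u) o) ^ 2)

theorem DD_one (ρ : H →* (X ≃ᵢ X)) (o : X) {f : MonoidAlgebra ℝ H} (hf : ProbA f) :
    DD ρ o f 1 = Ex f (fun h => dist o (ρ h o) ^ 2) := by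
  unfold DD
  simp only [wd_one, hf.const]

theorem DD_two (ρ : H →* (X ≃ᵢ X)) (o : X) (f : MonoidAlgebra ℝ H) :
    DD ρ o f 2 = Ex (f * f) (fun h => dist o (ρ h o) ^ 2) := by
  unfold DD
  simp only [wd_two]
  rw [Ex_mul]

/-- The last step of the alternating word. -/
theorem DD_last (ρ : H →* (X ≃ᵢ X)) (o : X) {f : MonoidAlgebra ℝ H} (hf : ProbA f) (k : ℕ) :
    Ex f (fun u => Ex f (fun v => dist o (ρ (if Even k then u else v) o) ^ 2)) = DD ρ o f 1 := by
  by_cases h : Even k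
  · simp only [h, if_true]
    unfold DD
    simp only [wd_one]
  · simp only [h, if_false]
    rw [← DD_swap]
    simp only [wd_one]

/-- The recursion from the quadrilateral inequality. -/
theorem DD_rec [CN X] (ρ : H →* (X ≃ᵢ X)) (o : X) {f : MonoidAlgebra ℝ H} (hf : ProbA f) (k : ℕ)
    {lam : ℝ} (hl : 0 < lam) :
    2 * DD ρ o f (k + 1) ≤ 2 * DD ρ o f 1 + lam * DD ρ o f k + lam⁻¹ * DD ρ o f (k + 2) := by
  have hpt : ∀ u v : H, dist o (ρ (wd (k + 1) u v) o) ^ 2 + dist o (ρ (wd (k + 1) v u) o) ^ 2 ≤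
      (dist o (ρ u o) ^ 2 + dist o (ρ (if Even (k + 1) then u else v) o) ^ 2) +
      (lam * dist o (ρ (wd k v u) o) ^ 2 + lam⁻¹ * dist o (ρ (wd (k + 2) u v) o) ^ 2) := by
    intro u v
    have g := quad o (ρ u o) (ρ (wd (k + 1) u v) o) (ρ (wd (k + 2) u v) o) hl
    have e1 : dist (ρ u o) (ρ (wd (k + 2) u v) o) = dist o (ρ (wd (k + 1) v u) o) := by
      rw [wd_succ (k + 1), dist_mul_left]
    have e2 : dist (ρ (wd (k + 1) u v) o) (ρ (wd (k + 2) u v) o) =
        dist o (ρ (if Even (k + 1) then u else v) o) := by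
      rw [wd_succ_right (k + 1), dist_mul_left]
    have e3 : dist (ρ u o) (ρ (wd (k + 1) u v) o) = dist o (ρ (wd k v u) o) := by
      rw [wd_succ k, dist_mul_left]
    rw [e1, e2, e3] at g
    linarith
  have h1 : Ex f (fun u => Ex f (fun v =>
      dist o (ρ (wd (k + 1) u v) o) ^ 2 + dist o (ρ (wd (k + 1) v u) o) ^ 2)) ≤
      Ex f (fun u => Ex f (fun v =>
      (dist o (ρ u o) ^ 2 + dist o (ρ (if Even (k + 1) then u else v) o) ^ 2) +
      (lam * dist o (ρ (wd k v u) o) ^ 2 + lam⁻¹ * dist o (ρ (wd (k + 2) u v) o) ^ 2))) :=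
    Ex_mono hf.nonneg fun u => Ex_mono hf.nonneg fun v => hpt u v
  simp only [Ex_add_right, Ex_smul_right] at h1
  rw [DD_swap, DD_swap, DD_last ρ o hf] at h1
  have h2 : Ex f (fun u => Ex f (fun _ => dist o (ρ u o) ^ 2)) = DD ρ o f 1 := by
    unfold DD; simp only [wd_one]
  rw [h2] at h1
  have h3 : Ex f (fun u => Ex f (fun v => dist o (ρ (wd (k + 1) u v) o) ^ 2)) =
    DD ρ o f (k + 1) := rfl
  have h4 : Ex f (fun u => Ex f (fun v => dist o (ρ (wd (k + 2) u v) o) ^ 2)) =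
    DD ρ o f (k + 2) := rfl
  rw [h3, h4] at h1
  linarith

theorem DD_nonneg (ρ : H →* (X ≃ᵢ X)) (o : X) {f : MonoidAlgebra ℝ H} (hf : ProbA f) (k : ℕ) :
    0 ≤ DD ρ o f k :=
  Ex_nonneg hf.nonneg fun _ => Ex_nonneg hf.nonneg fun _ => sq_nonneg _

/-- `D k ≤ k^2 D 1`. -/
theorem DD_le (ρ : H →* (X ≃ᵢ X)) (o : X) {f : MonoidAlgebra ℝ H} (hf : ProbA f) (k : ℕ) :
    DD ρ o f k ≤ (k : ℝ) ^ 2 * DD ρ o f 1 := by
  induction k with
  | zero =>
    have : DD ρ o f 0 = 0 := by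
      unfold DD
      simp [Ex_zero_right]
    rw [this]; simp
  | succ k ih =>
    rcases Nat.eq_zero_or_pos k with rfl | hk
    · simp
    have hk' : (0 : ℝ) < k := by exact_mod_cast hk
    -- `(a + b)^2 ≤ (1 + 1/k) a^2 + (1 + k) b^2`
    have hpt : ∀ u v : H, dist o (ρ (wd (k + 1) u v) o) ^ 2 ≤
        (1 + (k : ℝ)⁻¹) * dist o (ρ (wd k u v) o) ^ 2 +
        (1 + (k : ℝ)) * dist o (ρ (if Even k then u else v) o) ^ 2 := by
      intro u v
      have e2 : dist (ρ (wd k u v) o) (ρ (wd (k + 1) u v) o) =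
          dist o (ρ (if Even k then u else v) o) := by
        rw [wd_succ_right k, dist_mul_left]
      have h1 := dist_triangle o (ρ (wd k u v) o) (ρ (wd (k + 1) u v) o)
      rw [e2] at h1
      set x := dist o (ρ (wd k u v) o)
      set y := dist o (ρ (if Even k then u else v) o)
      have h2 := pow_le_pow_left₀ dist_nonneg h1 2
      refine h2.trans ?_
      have h3 : (1 + (k : ℝ)⁻¹) * x ^ 2 + (1 + (k : ℝ)) * y ^ 2 - (x + y) ^ 2 =
          (k : ℝ)⁻¹ * (x - k * y) ^ 2 := by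
        field_simp
        ring
      have h4 : 0 ≤ (k : ℝ)⁻¹ * (x - k * y) ^ 2 := by positivity
      linarith
    have h1 : Ex f (fun u => Ex f (fun v => dist o (ρ (wd (k + 1) u v) o) ^ 2)) ≤
        Ex f (fun u => Ex f (fun v => (1 + (k : ℝ)⁻¹) * dist o (ρ (wd k u v) o) ^ 2 +
        (1 + (k : ℝ)) * dist o (ρ (if Even k then u else v) o) ^ 2)) :=
      Ex_mono hf.nonneg fun u => Ex_mono hf.nonneg fun v => hpt u v
    simp only [Ex_add_right, Ex_smul_right] at h1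
    rw [DD_last ρ o hf] at h1
    have h3 : Ex f (fun u => Ex f (fun v => dist o (ρ (wd (k + 1) u v) o) ^ 2)) =
      DD ρ o f (k + 1) := rfl
    have h4 : Ex f (fun u => Ex f (fun v => dist o (ρ (wd k u v) o) ^ 2)) = DD ρ o f k := rfl
    rw [h3, h4] at h1
    have h5 := mul_le_mul_of_nonneg_left ih (a := 1 + (k : ℝ)⁻¹) (by positivity)
    refine h1.trans ?_
    have h6 : (1 + (k : ℝ)⁻¹) * ((k : ℝ) ^ 2 * DD ρ o f 1) + (1 + (k : ℝ)) * DD ρ o f 1 =
        ((k + 1 : ℕ) : ℝ) ^ 2 * DD ρ o f 1 := by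
      push_cast
      field_simp
      ring
    linarith

/-- `√(b n)` is subadditive. -/
theorem sqrt_b_subadd (ρ : H →* (X ≃ᵢ X)) (o : X) {a : MonoidAlgebra ℝ H} (ha : ProbA a)
    (m n : ℕ) : √(Ex (a ^ (m + n)) (fun h => dist o (ρ h o) ^ 2)) ≤
      √(Ex (a ^ m) (fun h => dist o (ρ h o) ^ 2)) + √(Ex (a ^ n) (fun h => dist o (ρ h o) ^ 2)) := by
  have hm := ha.pow m
  have hn := ha.pow n
  set δ : H → ℝ := fun h => dist o (ρ h o) with hδ
  have hδ0 : ∀ h, 0 ≤ δ h := fun h => dist_nonneg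
  have hbm : 0 ≤ Ex (a ^ m) (fun h => δ h ^ 2) := Ex_nonneg hm.nonneg fun _ => sq_nonneg _
  have hbn : 0 ≤ Ex (a ^ n) (fun h => δ h ^ 2) := Ex_nonneg hn.nonneg fun _ => sq_nonneg _
  have hcs : ∀ (f : MonoidAlgebra ℝ H), ProbA f → Ex f δ ≤ √(Ex f (fun h => δ h ^ 2)) := by
    intro f hf
    apply Real.le_sqrt_of_sq_le
    have := Ex_mul_sq_le hf.nonneg δ (fun _ => 1)
    simpa [hf.total] using this
  have h1 : Ex (a ^ (m + n)) (fun h => δ h ^ 2) ≤
      Ex (a ^ m) (fun u => Ex (a ^ n) (fun v => (δ u ^ 2 + δ v ^ 2) + 2 * (δ u * δ v))) := by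
    rw [pow_add, Ex_mul]
    refine Ex_mono hm.nonneg fun u => Ex_mono hn.nonneg fun v => ?_
    have h2 : δ (u * v) ≤ δ u + δ v := by
      have h3 := dist_triangle o (ρ u o) (ρ (u * v) o)
      rwa [dist_mul_left] at h3
    have h4 := pow_le_pow_left₀ (hδ0 _) h2 2
    refine h4.trans (le_of_eq ?_)
    ring
  simp only [Ex_add_right, Ex_smul_right, hn.const, hm.const] at h1
  have h2 : Ex (a ^ m) (fun h => Ex (a ^ n) (fun v => δ h * δ v)) = Ex (a ^ m) δ * Ex (a ^ n) δ := by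
    simp only [Ex_smul_right]
    have : (fun h => δ h * Ex (a ^ n) (fun v => δ v)) = fun h => Ex (a ^ n) δ * δ h := by
      funext h; ring
    rw [this, Ex_smul_right]; ring
  simp only [Ex_smul_right] at h2
  rw [h2] at h1
  apply Real.sqrt_le_iff.2
  refine ⟨by positivity, h1.trans ?_⟩
  have e1 : 0 ≤ Ex (a ^ m) δ := Ex_nonneg hm.nonneg hδ0
  have e2 : 0 ≤ Ex (a ^ n) δ := Ex_nonneg hn.nonneg hδ0
  have e3 := mul_le_mul (hcs _ hm) (hcs _ hn) e2 (Real.sqrt_nonneg _)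
  have e4 := Real.sq_sqrt hbm
  have e5 := Real.sq_sqrt hbn
  nlinarith

/-- **Section 2.** A random walk on a group of bounded exponent has zero drift in every `CN` space.
Proof: `b n = Ex (a^n) (dist o (ρ h o)^2)`, `√(b n)` is subadditive (`Ex_mul`, `Ex_mul_sq_le` =
Minkowski), so `√(b n)/n → L` (`Subadditive.tendsto_lim`). For `m` fixed let
`D k = Ex (a^m) (fun u => Ex (a^m) (fun v => dist o (ρ (alt k u v) o)^2))`, `alt k u v` = the
alternating word `u v u ...` of length `k`; by `Ex_comm` the same number for `alt k v u`. `quad` for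
`x_0, x_1, x_k, x_(k+1)` gives `2 D k ≤ 2 D 1 + lam D (k-1) + lam⁻¹ D (k+1)`; `D 1 = b m`,
`D 2 = b (2m)`. By induction on `k` `D k (m) / m^2 → k^2 L^2` (`lam = (k+1)/(k-1)` and
`D (k+1) ≤ (k+1)^2 D 1`). `alt (2E) u v = (u v)^E = 1`, so `D (2E) = 0` and `L = 0`. -/
theorem drift {H : Type v} [Group H] {X : Type u} [MetricSpace X] [CN X] (ρ : H →* (X ≃ᵢ X))
    (o : X) {E : ℕ} (hE : 0 < E) (hexp : ∀ h : H, h ^ E = 1) {a : MonoidAlgebra ℝ H}
    (ha : ProbA a) :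
    Tendsto (fun n : ℕ => Ex (a ^ n) (fun h => dist o (ρ h o) ^ 2) / (n : ℝ) ^ 2) atTop (𝓝 0) := by
  set b : ℕ → ℝ := fun n => Ex (a ^ n) (fun h => dist o (ρ h o) ^ 2) with hb
  have hb0 : ∀ n, 0 ≤ b n := fun n => Ex_nonneg (ha.pow n).nonneg fun _ => sq_nonneg _
  have hsub : Subadditive (fun n => √(b n)) := fun m n => sqrt_b_subadd ρ o ha m n
  have hbdd : BddBelow (Set.range fun n : ℕ => √(b n) / n) :=
    ⟨0, by rintro _ ⟨n, rfl⟩; positivity⟩
  have hlim := hsub.tendsto_lim hbdd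
  set L := hsub.lim
  have hsq : ∀ n, (√(b n) / n) ^ 2 = b n / (n : ℝ) ^ 2 := fun n => by
    rw [div_pow, Real.sq_sqrt (hb0 n)]
  have h1 : Tendsto (fun m : ℕ => DD ρ o (a ^ m) 1 / (m : ℝ) ^ 2) atTop (𝓝 (L ^ 2)) := by
    have := hlim.pow 2
    refine this.congr fun m => ?_
    rw [hsq, DD_one ρ o (ha.pow m)]
  have h2 : Tendsto (fun m : ℕ => DD ρ o (a ^ m) 2 / (m : ℝ) ^ 2) atTop (𝓝 (4 * L ^ 2)) := by
    have := ((hlim.pow 2).comp (tendsto_id.const_mul_atTop' (r := 2) two_pos)).const_mul 4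
    refine this.congr fun m => ?_
    show 4 * (√(b (2 * m)) / ((2 * m : ℕ) : ℝ)) ^ 2 = _
    rw [hsq, DD_two, ← pow_add, ← two_mul]
    push_cast
    rw [mul_pow, mul_div_assoc', show (2 : ℝ) ^ 2 = 4 by norm_num,
      mul_div_mul_left _ _ (four_ne_zero)]
  have h3 := lim_induction (fun m k => DD ρ o (a ^ m) k) L h1 h2
    (fun m k lam hl => DD_rec ρ o (ha.pow m) k hl) (fun m k => DD_le ρ o (ha.pow m) k) (2 * E - 1)
  have e1 : 2 * E - 1 + 1 = 2 * E := by omega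
  rw [e1] at h3
  have e2 : ∀ m, DD ρ o (a ^ m) (2 * E) = 0 := by
    intro m
    unfold DD
    simp only [wd_two_mul, hexp, map_one]
    simp [Ex_zero_right]
  simp only [e2, zero_div] at h3
  have h4 := tendsto_nhds_unique tendsto_const_nhds h3
  have h5 : L ^ 2 = 0 := by
    rcases mul_eq_zero.1 h4.symm with h | h
    · have : (((2 * E - 1 : ℕ) : ℝ) + 1) = 2 * E := by
        have := congrArg (Nat.cast (R := ℝ)) e1
        push_cast at this ⊢
        linarith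
      rw [this] at h
      have hE' : (0 : ℝ) < E := by exact_mod_cast hE
      have : (2 * (E : ℝ)) ^ 2 > 0 := by positivity
      linarith
    · exact h
  have h6 := hlim.pow 2
  rw [h5] at h6
  exact h6.congr hsq

end CTOR
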