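import Pool.Agent.CTOR.Walk

/-!
# CTOR C: limits of almost invariant probabilities (end of section 3)
-/

namespace CTOR

open Filter Topology

/-- A sequence of almost invariant finitely supported probabilities gives an invariant mean.
Proof: `m φ = lim` of `Ex (p n) φ` along the ultrafilter `hyperfilter ℕ` (for bounded `φ` the values
are in a compact interval); invariance under `s ∈ S`, so under the subgroup generated by `S`
(the set of `g` with `m φ(g⁻¹ .) = m φ` for all bounded `φ` is a subgroup). -/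
theorem exists_invMean_of_seq {H : Type*} [Group H] {S : Set H} (hS : Subgroup.closure S = ⊤)
    (p : ℕ → MonoidAlgebra ℝ H) (hp : ∀ n, ProbA (p n))
    (hinv : ∀ s ∈ S, ∀ (φ : H → ℝ) (C : ℝ), (∀ h, |φ h| ≤ C) → ∀ n : ℕ,
      |Ex (p n) (fun h => φ (s⁻¹ * h)) - Ex (p n) φ| ≤ C / (n + 1)) :
    Nonempty (InvMean H) := by
  classical
  have key : ∀ φ : H → ℝ, Bdd φ →
      ∃ L, Tendsto (fun n => Ex (p n) φ) (hyperfilter ℕ : Filter ℕ) (𝓝 L) := by
    rintro φ ⟨C, hC⟩
    have hmem : ∀ n, Ex (p n) φ ∈ Set.Icc (-C) C := by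
      intro n
      constructor
      · have := Ex_mono (hp n).nonneg (φ := fun _ => -C) (ψ := φ)
          (fun h => neg_le_of_abs_le (hC h))
        rwa [(hp n).const] at this
      · have := Ex_mono (hp n).nonneg (φ := φ) (ψ := fun _ => C)
          (fun h => le_of_abs_le (hC h))
        rwa [(hp n).const] at this
    obtain ⟨L, -, hL⟩ := isCompact_Icc.ultrafilter_le_nhds
      ((hyperfilter ℕ).map (fun n => Ex (p n) φ))
      (by
        rw [Ultrafilter.coe_map, Filter.le_principal_iff, Filter.mem_map]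
        exact Filter.Eventually.of_forall hmem)
    exact ⟨L, by rwa [Ultrafilter.coe_map] at hL⟩
  set m : (H → ℝ) → ℝ := fun φ => if h : Bdd φ then (key φ h).choose else 0 with hm
  have hmt : ∀ φ, Bdd φ →
      Tendsto (fun n => Ex (p n) φ) (hyperfilter ℕ : Filter ℕ) (𝓝 (m φ)) := by
    intro φ h
    simp only [hm, dif_pos h]
    exact (key φ h).choose_spec
  have hadd : ∀ f g : H → ℝ, Bdd f → Bdd g → Bdd (fun h => f h + g h) := by
    rintro f g ⟨C, hC⟩ ⟨D, hD⟩
    exact ⟨C + D, fun h => (abs_add_le _ _).trans (add_le_add (hC h) (hD h))⟩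
  have hsmul : ∀ (c : ℝ) (f : H → ℝ), Bdd f → Bdd (fun h => c * f h) := by
    rintro c f ⟨C, hC⟩
    refine ⟨|c| * C, fun h => ?_⟩
    rw [abs_mul]
    exact mul_le_mul_of_nonneg_left (hC h) (abs_nonneg c)
  have hone : Bdd (fun _ : H => (1 : ℝ)) := ⟨1, fun _ => by simp⟩
  have htr : ∀ (g : H) (f : H → ℝ), Bdd f → Bdd (fun h => f (g * h)) := by
    rintro g f ⟨C, hC⟩
    exact ⟨C, fun h => hC _⟩
  -- invariance under the generators
  have hgen : ∀ s ∈ S, ∀ f : H → ℝ, Bdd f → m (fun h => f (s⁻¹ * h)) = m f := by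
    rintro s hs f ⟨C, hC⟩
    have h1 := hmt _ (htr s⁻¹ f ⟨C, hC⟩)
    have h2 := hmt f ⟨C, hC⟩
    have h3 : Tendsto (fun n => Ex (p n) (fun h => f (s⁻¹ * h)) - Ex (p n) f)
        (hyperfilter ℕ : Filter ℕ) (𝓝 0) := by
      have h4 : Tendsto (fun n : ℕ => C / ((n : ℝ) + 1)) atTop (𝓝 0) :=
        tendsto_const_div_atTop_nhds_zero_nat C |>.comp (tendsto_add_atTop_nat 1) |>.congr
          (fun n => by simp)
      have h5 : Tendsto (fun n : ℕ => C / ((n : ℝ) + 1)) (hyperfilter ℕ : Filter ℕ) (𝓝 0) :=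
        h4.mono_left Nat.hyperfilter_le_atTop
      exact squeeze_zero_norm (fun n => by
        rw [Real.norm_eq_abs]
        exact hinv s hs f C hC n) h5
    have h6 := tendsto_nhds_unique h3 (h1.sub h2)
    linarith
  have hall : ∀ g : H, ∀ f : H → ℝ, Bdd f → m (fun h => f (g⁻¹ * h)) = m f := by
    intro g
    have hg : g ∈ Subgroup.closure S := by rw [hS]; trivial
    induction hg using Subgroup.closure_induction with
    | mem x hx => exact hgen x hx
    | one => intro f _; simp
    | mul x y _ _ hx hy =>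
      intro f hf
      have h1 := hx (fun h => f (y⁻¹ * h)) (htr _ f hf)
      rw [hy f hf] at h1
      rw [← h1]
      congr 1
      funext h
      rw [mul_inv_rev, mul_assoc]
    | inv x _ hx =>
      intro f hf
      have h1 := hx (fun h => f (x * h)) (htr _ f hf)
      simp only [mul_inv_cancel_left] at h1
      rw [inv_inv]
      exact h1.symm
  refine ⟨{ m := m, add := ?_, smul := ?_, nonneg := ?_, one := ?_, inv := hall }⟩
  · intro f g hf hg
    refine tendsto_nhds_unique (hmt _ (hadd f g hf hg)) ?_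
    simp only [Ex_add_right]
    exact (hmt f hf).add (hmt g hg)
  · intro c f hf
    refine tendsto_nhds_unique (hmt _ (hsmul c f hf)) ?_
    simp only [Ex_smul_right]
    exact (hmt f hf).const_mul c
  · intro f hf h0
    exact ge_of_tendsto' (hmt f hf) fun n => Ex_nonneg (hp n).nonneg h0
  · refine tendsto_nhds_unique (hmt _ hone) ?_
    simp only [(hp _).const]
    exact tendsto_const_nhds

end CTOR
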