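import Pool.Agent.CTOR.Kesten
import Pool.Agent.CTOR.Drift
import Pool.Agent.CTOR.MeanLim

/-!
# CTOR B + C, top statement: drift + Kesten give an invariant mean (sections 2 and 3)
-/

namespace CTOR

open Metric Set

universe u v

/-- The uniform probability on a nonempty finite set. -/
noncomputable def unifP {H : Type*} [Group H] (T : Finset H) : MonoidAlgebra ℝ H :=
  ∑ t ∈ T, MonoidAlgebra.single t (1 / (T.card : ℝ))

theorem Ex_finset_sum {H ι : Type*} [Group H] (s : Finset ι) (f : ι → MonoidAlgebra ℝ H)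
    (φ : H → ℝ) : Ex (∑ i ∈ s, f i) φ = ∑ i ∈ s, Ex (f i) φ := by
  classical
  induction s using Finset.induction_on with
  | empty => rw [Finset.sum_empty, Finset.sum_empty, Ex_zero]
  | insert a s ha ih => rw [Finset.sum_insert ha, Finset.sum_insert ha, Ex_add, ih]

open Classical in
theorem unifP_coeff {H : Type*} [Group H] (T : Finset H) (h : H) :
    (unifP T).coeff h = if h ∈ T then 1 / (T.card : ℝ) else 0 := by
  rw [← Ex_indicator, unifP, Ex_finset_sum]
  simp only [Ex_single]
  by_cases hh : h ∈ T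
  · rw [Finset.sum_eq_single h]
    · simp [hh]
    · intro b _ hb; simp [hb]
    · intro h'; exact absurd hh h'
  · rw [if_neg hh, Finset.sum_eq_zero]
    intro b hb
    have : b ≠ h := fun h' => hh (h' ▸ hb)
    simp [this]

theorem unifP_prob {H : Type*} [Group H] {T : Finset H} (hT : T.Nonempty) : ProbA (unifP T) := by
  classical
  refine ⟨fun h => ?_, ?_⟩
  · rw [unifP_coeff]; split_ifs <;> positivity
  · rw [unifP, Ex_finset_sum]
    simp only [Ex_single, mul_one]
    have : (T.card : ℝ) ≠ 0 := by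
      have := hT.card_pos
      exact_mod_cast this.ne'
    rw [Finset.sum_const, nsmul_eq_mul]
    field_simp

theorem cN_pos {H : Type*} [Group H] {a : MonoidAlgebra ℝ H} (hp : ProbA a) (n : ℕ) :
    0 < cN a n := by
  refine lt_of_le_of_ne (cN_nonneg a n) fun h0 => ?_
  rw [cN_eq_sum a n (Finset.Subset.refl _)] at h0
  have h1 := (Finset.sum_eq_zero_iff_of_nonneg fun u _ => sq_nonneg _).mp h0.symm
  have h2 := (hp.pow n).total
  rw [Ex_eq_sum, Finset.sum_eq_zero] at h2
  · exact zero_ne_one h2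
  · intro u hu
    have := h1 u hu
    have h3 : (a ^ n).coeff u = 0 := pow_eq_zero_iff (two_ne_zero) |>.mp this
    rw [h3, zero_mul]

/-- **Section 3.** A finitely generated group which acts isometrically with exponential orbit growth
such that all symmetric finitely supported random walks have zero drift has an invariant mean. -/
theorem exists_invMean_of_drift {H : Type v} [Group H] {X : Type u} [MetricSpace X]
    (ρ : H →* (X ≃ᵢ X)) (hfg : Group.FG H) (o : X)
    (hdrift : ∀ a : MonoidAlgebra ℝ H, ProbA a → (∀ h, a.coeff h⁻¹ = a.coeff h) →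
      Filter.Tendsto (fun n : ℕ => Ex (a ^ n) (fun h => dist o (ρ h o) ^ 2) / (n : ℝ) ^ 2)
        Filter.atTop (nhds 0))
    (hfin : ∀ n : ℕ, {h : H | dist o (ρ h o) ≤ n}.Finite) (A : ℕ) (hA : 1 ≤ A)
    (hgr : ∀ n : ℕ, {h : H | dist o (ρ h o) ≤ n}.ncard ≤ A ^ (n + 2)) :
    Nonempty (InvMean H) := by
  classical
  obtain ⟨S, hS, hSf⟩ := Group.fg_iff.mp hfg
  set T : Finset H := insert 1 (hSf.toFinset ∪ hSf.toFinset.image (fun x => x⁻¹)) with hT
  have h1T : (1 : H) ∈ T := Finset.mem_insert_self _ _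
  have hST : ∀ s ∈ S, s ∈ T := fun s hs => Finset.mem_insert_of_mem
    (Finset.mem_union_left _ (hSf.mem_toFinset.mpr hs))
  have hTinv : ∀ x, x ∈ T → x⁻¹ ∈ T := by
    intro x hx
    rw [hT, Finset.mem_insert, Finset.mem_union, Finset.mem_image] at hx ⊢
    rcases hx with rfl | hx | ⟨y, hy, rfl⟩
    · left; exact inv_one
    · right; right; exact ⟨x, hx, rfl⟩
    · right; left; rw [inv_inv]; exact hy
  have hTne : T.Nonempty := ⟨1, h1T⟩
  have hcard : (0 : ℝ) < T.card := by exact_mod_cast hTne.card_pos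
  set a := unifP T with ha
  have hp : ProbA a := unifP_prob hTne
  have hsym : SymA a := by
    intro h
    rw [ha, unifP_coeff, unifP_coeff]
    have : h⁻¹ ∈ T ↔ h ∈ T := ⟨fun h' => by simpa using hTinv _ h', hTinv h⟩
    simp only [this]
  have ha2 : ∀ s ∈ T, 1 / (T.card : ℝ) ^ 2 ≤ (a ^ 2).coeff s := by
    intro s hs
    rw [pow_two a, coeff_mul_eq]
    have e1 : Ex a (fun u => (1 / (T.card : ℝ)) * (if u = 1 then 1 else 0)) ≤
        Ex a (fun u => a.coeff (u⁻¹ * s)) := by
      refine Ex_mono hp.nonneg fun u => ?_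
      by_cases hu : u = 1
      · subst hu
        rw [ha, unifP_coeff]
        simp [hs]
      · simp only [hu, if_false, mul_zero]
        exact hp.nonneg _
    rw [Ex_smul_right, Ex_indicator, ha, unifP_coeff, if_pos h1T] at e1
    calc 1 / (T.card : ℝ) ^ 2 = 1 / (T.card : ℝ) * (1 / (T.card : ℝ)) := by
          field_simp
      _ ≤ _ := e1
  have hd := hdrift a hp hsym
  -- the sequence
  have hseq : ∀ k : ℕ, ∃ n : ℕ, ∀ s ∈ T,
      cN a n - iN a n s ≤ (1 / ((k : ℝ) + 1)) ^ 2 / 8 * cN a n := by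
    intro k
    have hk : (0 : ℝ) < (k : ℝ) + 1 := by positivity
    set η : ℝ := 1 / ((k : ℝ) + 1) with hη
    have hη0 : 0 < η := by positivity
    have hη1 : η ≤ 1 := by
      rw [hη, div_le_one hk]
      have : (0 : ℝ) ≤ k := Nat.cast_nonneg k
      linarith
    set ε : ℝ := η ^ 2 / (8 * (T.card : ℝ) ^ 2) with hε
    have hcard1 : (1 : ℝ) ≤ T.card := by exact_mod_cast hTne.card_pos
    have hε0 : 0 < ε := by positivity
    have hε1 : ε < 1 := by
      rw [hε, div_lt_one (by positivity)]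
      nlinarith
    obtain ⟨n, hn⟩ := exists_ratio ρ o hfin hA hgr hp hd hε0 hε1
    refine ⟨n, fun s hs => ?_⟩
    have e1 := coeff_mul_le hp hsym n s
    have e2 := ha2 s hs
    have e3 := iN_le a n s
    have e4 : 1 / (T.card : ℝ) ^ 2 * (cN a n - iN a n s) ≤ ε * cN a n := by
      calc 1 / (T.card : ℝ) ^ 2 * (cN a n - iN a n s)
          ≤ (a ^ 2).coeff s * (cN a n - iN a n s) :=
            mul_le_mul_of_nonneg_right e2 (by linarith)
        _ ≤ cN a n - cN a (n + 1) := e1
        _ ≤ ε * cN a n := by linarith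
    have e5 : cN a n - iN a n s = (T.card : ℝ) ^ 2 *
        (1 / (T.card : ℝ) ^ 2 * (cN a n - iN a n s)) := by field_simp
    rw [e5]
    calc (T.card : ℝ) ^ 2 * (1 / (T.card : ℝ) ^ 2 * (cN a n - iN a n s))
        ≤ (T.card : ℝ) ^ 2 * (ε * cN a n) := mul_le_mul_of_nonneg_left e4 (by positivity)
      _ = η ^ 2 / 8 * cN a n := by rw [hε]; field_simp
  choose N hN using hseq
  refine exists_invMean_of_seq (S := S) hS (fun k => sqP a (N k))
    (fun k => sqP_prob a (N k) (cN_pos hp _)) ?_
  intro s hs φ C hφ k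
  have := sqP_inv (cN_pos hp (N k)) (s := s) (η := 1 / ((k : ℝ) + 1)) (by positivity)
    (hN k s (hST s hs)) hφ
  calc _ ≤ C * (1 / ((k : ℝ) + 1)) := this
    _ = C / (k + 1) := by ring

/-- **Sections 2 and 3.** A finitely generated group of bounded exponent which acts isometrically on
a `CN` space with exponential orbit growth has an invariant mean. -/
theorem exists_invMean {H : Type v} [Group H] {X : Type u} [MetricSpace X] [CN X]
    (ρ : H →* (X ≃ᵢ X)) (hfg : Group.FG H) (E : ℕ) (hE : 0 < E) (hexp : ∀ h : H, h ^ E = 1)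
    (o : X) (hfin : ∀ n : ℕ, {h : H | dist o (ρ h o) ≤ n}.Finite) (A : ℕ) (hA : 1 ≤ A)
    (hgr : ∀ n : ℕ, {h : H | dist o (ρ h o) ≤ n}.ncard ≤ A ^ (n + 2)) :
    Nonempty (InvMean H) :=
  exists_invMean_of_drift ρ hfg o (fun _ ha _ => drift ρ o hE hexp ha) hfin A hA hgr

end CTOR
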