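import Mathlib

/-!
# CTOR, basics: CAT(0) inequalities without angles

Everything is derived from the strong CN inequality `CN`: for `x y` and `t` in `[0,1]` there is a
point `w` with `d(p,w)^2 <= (1-t) d(p,x)^2 + t d(p,y)^2 - t(1-t) d(x,y)^2` for all `p`.
-/

namespace CTOR

open Metric Set

/-- Strong CN inequality (for complete spaces equivalent to CAT(0)). -/
class CN (X : Type*) [MetricSpace X] : Prop where
  ex : ∀ (x y : X) (t : ℝ), 0 ≤ t → t ≤ 1 → ∃ w : X, ∀ p : X,
    dist p w ^ 2 ≤ (1 - t) * dist p x ^ 2 + t * dist p y ^ 2 - t * (1 - t) * dist x y ^ 2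

variable {X : Type*} [MetricSpace X] [CN X]

open Classical in
/-- The point at fraction `t` on the geodesic from `x` to `y` (junk value `x` outside `[0,1]`). -/
noncomputable def pt (x y : X) (t : ℝ) : X :=
  if h : 0 ≤ t ∧ t ≤ 1 then (CN.ex x y t h.1 h.2).choose else x

/-- The CN inequality for `pt`. -/
theorem pt_cn (x y p : X) {t : ℝ} (h0 : 0 ≤ t) (h1 : t ≤ 1) :
    dist p (pt x y t) ^ 2 ≤
      (1 - t) * dist p x ^ 2 + t * dist p y ^ 2 - t * (1 - t) * dist x y ^ 2 := by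
  unfold pt
  rw [dif_pos ⟨h0, h1⟩]
  exact (CN.ex x y t h0 h1).choose_spec p

theorem sq_le_sq_abs {a b : ℝ} (hb : 0 ≤ b) (h : a ^ 2 ≤ b ^ 2) : a ≤ b :=
  abs_le_of_sq_le_sq' h hb |>.2

theorem dist_left_le (x y : X) {t : ℝ} (h0 : 0 ≤ t) (h1 : t ≤ 1) :
    dist x (pt x y t) ≤ t * dist x y := by
  apply sq_le_sq_abs (by positivity)
  have := pt_cn x y x h0 h1
  rw [dist_self] at this
  nlinarith

theorem dist_right_le (x y : X) {t : ℝ} (h0 : 0 ≤ t) (h1 : t ≤ 1) :
    dist (pt x y t) y ≤ (1 - t) * dist x y := by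
  apply sq_le_sq_abs (mul_nonneg (by linarith) dist_nonneg)
  have := pt_cn x y y h0 h1
  rw [dist_self, dist_comm y x, dist_comm y (pt x y t)] at this
  nlinarith

theorem dist_left (x y : X) {t : ℝ} (h0 : 0 ≤ t) (h1 : t ≤ 1) :
    dist x (pt x y t) = t * dist x y := by
  have h2 := dist_left_le x y h0 h1
  have h3 := dist_right_le x y h0 h1
  have h4 := dist_triangle x (pt x y t) y
  linarith

theorem dist_right (x y : X) {t : ℝ} (h0 : 0 ≤ t) (h1 : t ≤ 1) :
    dist (pt x y t) y = (1 - t) * dist x y := by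
  have h2 := dist_left_le x y h0 h1
  have h3 := dist_right_le x y h0 h1
  have h4 := dist_triangle x (pt x y t) y
  linarith

/-- Uniqueness of the point at fraction `t`. -/
theorem pt_unique {x y w : X} {t : ℝ} (h0 : 0 ≤ t) (h1 : t ≤ 1)
    (hx : dist x w ≤ t * dist x y) (hy : dist w y ≤ (1 - t) * dist x y) : w = pt x y t := by
  have h := pt_cn x y w h0 h1
  have a1 : dist w x ^ 2 ≤ (t * dist x y) ^ 2 := by
    rw [dist_comm w x]; exact pow_le_pow_left₀ dist_nonneg hx 2
  have a2 : dist w y ^ 2 ≤ ((1 - t) * dist x y) ^ 2 := pow_le_pow_left₀ dist_nonneg hy 2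
  have h3 : dist w (pt x y t) ^ 2 ≤ 0 := by
    have b1 := mul_le_mul_of_nonneg_left a1 (by linarith : (0 : ℝ) ≤ 1 - t)
    have b2 := mul_le_mul_of_nonneg_left a2 h0
    nlinarith
  have h4 : dist w (pt x y t) = 0 := by
    have := sq_nonneg (dist w (pt x y t))
    exact pow_eq_zero_iff (n := 2) (by norm_num) |>.1 (le_antisymm h3 this)
  exact dist_eq_zero.1 h4

theorem pt_zero (x y : X) : pt x y 0 = x :=
  (pt_unique le_rfl zero_le_one (by simp) (by simp)).symm

theorem pt_one (x y : X) : pt x y 1 = y :=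
  (pt_unique zero_le_one le_rfl (by simp) (by simp)).symm

theorem pt_symm (x y : X) {t : ℝ} (h0 : 0 ≤ t) (h1 : t ≤ 1) : pt y x t = pt x y (1 - t) := by
  apply pt_unique (by linarith) (by linarith)
  · rw [dist_comm x (pt y x t), dist_right y x h0 h1, dist_comm y x]
  · rw [dist_comm (pt y x t) y, dist_left y x h0 h1, dist_comm y x]; linarith

theorem pt_self (x : X) {t : ℝ} (h0 : 0 ≤ t) (h1 : t ≤ 1) : pt x x t = x :=
  (pt_unique h0 h1 (by simp) (by simp)).symm

/-- The quadrilateral inequality (Q). -/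
theorem quad (a b c d : X) {lam : ℝ} (hl : 0 < lam) :
    dist a c ^ 2 + dist b d ^ 2 ≤
      dist a b ^ 2 + dist c d ^ 2 + lam * dist b c ^ 2 + lam⁻¹ * dist a d ^ 2 := by
  set t : ℝ := lam / (1 + lam) with ht
  have hl1 : 0 < 1 + lam := by linarith
  have t0 : 0 < t := div_pos hl hl1
  have t1 : 1 - t = 1 / (1 + lam) := by rw [ht]; field_simp; ring
  have t1' : 0 < 1 - t := by rw [t1]; positivity
  have hb := pt_cn a c b t0.le (by linarith)
  have hd := pt_cn a c d t0.le (by linarith)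
  set m := pt a c t
  have h1 : dist b d ^ 2 ≤ dist b m ^ 2 / (1 - t) + dist d m ^ 2 / t := by
    have h2 : dist b d ≤ dist b m + dist d m := by
      rw [dist_comm d m]; exact dist_triangle _ _ _
    have h3 : dist b d ^ 2 ≤ (dist b m + dist d m) ^ 2 := pow_le_pow_left₀ dist_nonneg h2 2
    refine h3.trans ?_
    rw [div_add_div _ _ t1'.ne' t0.ne', le_div_iff₀ (mul_pos t1' t0)]
    nlinarith [sq_nonneg (t * dist b m - (1 - t) * dist d m)]
  have h5 : dist b m ^ 2 / (1 - t) ≤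
      dist a b ^ 2 + lam * dist b c ^ 2 - t * dist a c ^ 2 := by
    rw [div_le_iff₀ t1']
    have e1 : lam * (1 - t) = t := by rw [t1, ht]; field_simp
    rw [dist_comm b a] at hb
    calc dist b m ^ 2 ≤ _ := hb
      _ = (dist a b ^ 2 + lam * dist b c ^ 2 - t * dist a c ^ 2) * (1 - t) := by
        linear_combination (-dist b c ^ 2) * e1
  have h6 : dist d m ^ 2 / t ≤
      lam⁻¹ * dist a d ^ 2 + dist c d ^ 2 - (1 - t) * dist a c ^ 2 := by
    rw [div_le_iff₀ t0]
    have e2 : lam⁻¹ * t = 1 - t := by rw [t1, ht]; field_simp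
    rw [dist_comm d a, dist_comm d c] at hd
    calc dist d m ^ 2 ≤ _ := hd
      _ = (lam⁻¹ * dist a d ^ 2 + dist c d ^ 2 - (1 - t) * dist a c ^ 2) * t := by
        linear_combination (-dist a d ^ 2) * e2
  nlinarith

/-- Two geodesics from the same point. -/
theorem dist_pt_pt_same (x y z : X) {t : ℝ} (h0 : 0 ≤ t) (h1 : t ≤ 1) :
    dist (pt x y t) (pt x z t) ≤ t * dist y z := by
  apply sq_le_sq_abs (by positivity)
  have a1 := pt_cn x z (pt x y t) h0 h1
  have a2 := pt_cn x y z h0 h1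
  have a3 := dist_left x y h0 h1
  rw [dist_comm (pt x y t) x, a3] at a1
  rw [dist_comm z (pt x y t), dist_comm z x, dist_comm z y] at a2
  have a4 := mul_le_mul_of_nonneg_left a2 h0
  nlinarith

/-- Convexity of the metric. -/
theorem dist_pt_pt (x y x' y' : X) {t : ℝ} (h0 : 0 ≤ t) (h1 : t ≤ 1) :
    dist (pt x y t) (pt x' y' t) ≤ (1 - t) * dist x x' + t * dist y y' := by
  have h2 : dist (pt x y t) (pt x y' t) ≤ t * dist y y' := dist_pt_pt_same x y y' h0 h1
  have h3 : dist (pt x y' t) (pt x' y' t) ≤ (1 - t) * dist x x' := by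
    rw [pt_symm y' x h0 h1, pt_symm y' x' h0 h1]
    exact dist_pt_pt_same y' x x' (by linarith) (by linarith)
  linarith [dist_triangle (pt x y t) (pt x y' t) (pt x' y' t)]

/-- The distance to a point is convex. -/
theorem dist_pt_le (p x y : X) {t : ℝ} (h0 : 0 ≤ t) (h1 : t ≤ 1) :
    dist p (pt x y t) ≤ (1 - t) * dist p x + t * dist p y := by
  have := dist_pt_pt p p x y h0 h1
  rwa [pt_self p h0 h1] at this

/-- Isometries map geodesics to geodesics. -/
theorem map_pt {Y : Type*} [MetricSpace Y] [CN Y] {f : X → Y}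
    (hf : ∀ a b, dist (f a) (f b) = dist a b) (x y : X) {t : ℝ} (h0 : 0 ≤ t) (h1 : t ≤ 1) :
    f (pt x y t) = pt (f x) (f y) t := by
  apply pt_unique h0 h1
  · rw [hf, hf, dist_left x y h0 h1]
  · rw [hf, hf, dist_right x y h0 h1]

/-- Geodesically convex sets. -/
def GConv (A : Set X) : Prop := ∀ x ∈ A, ∀ y ∈ A, ∀ t : ℝ, 0 ≤ t → t ≤ 1 → pt x y t ∈ A

theorem GConv.inter {A B : Set X} (hA : GConv A) (hB : GConv B) : GConv (A ∩ B) :=
  fun x hx y hy t h0 h1 => ⟨hA x hx.1 y hy.1 t h0 h1, hB x hx.2 y hy.2 t h0 h1⟩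

/-- A convex subset is again `CN`. -/
theorem GConv.cn {A : Set X} (hA : GConv A) : CN A := by
  constructor
  intro x y t h0 h1
  refine ⟨⟨pt (x : X) y t, hA x x.2 y y.2 t h0 h1⟩, fun p => ?_⟩
  exact pt_cn (x : X) y p h0 h1

theorem coe_pt {A : Set X} [CN A] (x y : A) {t : ℝ} (h0 : 0 ≤ t) (h1 : t ≤ 1) :
    ((pt x y t : A) : X) = pt (x : X) (y : X) t :=
  map_pt (f := fun a : A => (a : X)) (fun _ _ => rfl) x y h0 h1

end CTOR
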