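import Pool.Agent.CTOR.Defs

/-!
# CTOR A2: finite groups have fixed points, finite subgroups are bounded (1.1)
-/

namespace CTOR

open Metric Set

universe u v

variable {X : Type u} [MetricSpace X] [CN X] {G : Type v} [Group G]

/-- A finite subgroup fixes a point. Proof: `f x = ∑ g : F, dist x (ρ g o) ^ 2` is continuous and
tends to infinity, so it has a minimum point `x` on the proper space `X`; by `pt_cn` with `t = 1/2` a
second minimum point `y` would give `f (pt x y (1/2)) ≤ min - (card F) d(x,y)^2/4`, so the minimum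
point is unique; `f (ρ h x) = f x` for `h ∈ F`, so `ρ h x = x`. -/
theorem exists_fixed [ProperSpace X] [Nonempty X] (ρ : G →* (X ≃ᵢ X)) (F : Subgroup G)
    [Finite F] : ∃ x : X, ∀ g ∈ F, ρ g x = x := by
  classical
  have : Fintype F := Fintype.ofFinite F
  obtain ⟨o⟩ := ‹Nonempty X›
  set f : X → ℝ := fun x => ∑ g : F, dist x (ρ (g : G) o) ^ 2 with hf
  have hcont : Continuous f := by
    rw [hf]
    exact continuous_finsetSum _ fun g _ => (continuous_id.dist continuous_const).pow 2
  have hf1 : ∀ x, dist x o ^ 2 ≤ f x := by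
    intro x
    have := Finset.single_le_sum (f := fun g : F => dist x (ρ (g : G) o) ^ 2)
      (fun g _ => sq_nonneg _) (Finset.mem_univ (1 : F))
    simpa [hf] using this
  have hten : Filter.Tendsto f (Filter.cocompact X) Filter.atTop :=
    Filter.tendsto_atTop_mono hf1
      ((Filter.tendsto_pow_atTop two_ne_zero).comp (tendsto_dist_right_cocompact_atTop o))
  have : Nonempty X := ⟨o⟩
  obtain ⟨x, hx⟩ := hcont.exists_forall_le hten
  have huniq : ∀ y, f y ≤ f x → y = x := by
    intro y hy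
    have h1 : f (pt x y (1 / 2)) ≤
        ∑ g : F, ((1 - 1 / 2) * dist x (ρ (g : G) o) ^ 2 + (1 / 2) * dist y (ρ (g : G) o) ^ 2
          - (1 / 2) * (1 - 1 / 2) * dist x y ^ 2) := by
      rw [hf]
      apply Finset.sum_le_sum
      intro g _
      have := pt_cn x y (ρ (g : G) o) (t := 1 / 2) (by norm_num) (by norm_num)
      rwa [dist_comm (ρ (g : G) o) (pt x y (1 / 2)), dist_comm (ρ (g : G) o) x,
        dist_comm (ρ (g : G) o) y] at this
    rw [Finset.sum_sub_distrib, Finset.sum_add_distrib, ← Finset.mul_sum, ← Finset.mul_sum,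
      Finset.sum_const, Finset.card_univ, nsmul_eq_mul] at h1
    have h2 := hx (pt x y (1 / 2))
    have h3 : (1 : ℝ) ≤ (Fintype.card F : ℝ) := by
      exact_mod_cast Fintype.card_pos
    have h4 : dist x y ^ 2 ≤ 0 := by
      have h5 : (Fintype.card F : ℝ) * ((1 / 2) * (1 - 1 / 2) * dist x y ^ 2) ≤ 0 := by
        have e1 : f x = ∑ g : F, dist x (ρ (g : G) o) ^ 2 := rfl
        have e2 : f y = ∑ g : F, dist y (ρ (g : G) o) ^ 2 := rfl
        rw [← e1, ← e2] at h1
        linarith
      nlinarith [sq_nonneg (dist x y)]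
    have h6 : dist x y = 0 := by
      have := sq_nonneg (dist x y)
      exact pow_eq_zero_iff (n := 2) (by norm_num) |>.1 (le_antisymm h4 this)
    exact (dist_eq_zero.1 h6).symm
  refine ⟨x, fun h hh => huniq _ (le_of_eq ?_)⟩
  show ∑ g : F, dist (ρ h x) (ρ (g : G) o) ^ 2 = ∑ g : F, dist x (ρ (g : G) o) ^ 2
  rw [← Equiv.sum_comp (Equiv.mulLeft (⟨h, hh⟩ : F))
    (fun g : F => dist (ρ h x) (ρ (g : G) o) ^ 2)]
  apply Finset.sum_congr rfl
  intro g _
  have e : ρ ((Equiv.mulLeft (⟨h, hh⟩ : F) g : F) : G) o = ρ h (ρ (g : G) o) := by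
    simp [IsometryEquiv.mul_apply]
  rw [e, (ρ h).dist_eq]

/-- Finite subgroups of a geometric group have bounded order. Proof: `F` fixes `x`, and
`x` is at distance at most `D` from `ρ g o`; then `ρ (g⁻¹ f g)` moves `o` by at most `2D`
(`d(o, g⁻¹ f g o) = d(g o, f g o) ≤ d(go,x) + d(fx, fgo) ≤ 2D`), and `f ↦ g⁻¹ f g` is injective.
So `Nat.card F ≤ ncard {g | dist o (ρ g o) ≤ 2D}`. -/
theorem Geom.bound_fin [ProperSpace X] [Nonempty X] {ρ : G →* (X ≃ᵢ X)} (hG : Geom ρ) :
    ∃ M : ℕ, ∀ F : Subgroup G, Finite F → Nat.card F ≤ M := by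
  obtain ⟨o, D, hD⟩ := hG.cobdd
  refine ⟨{g : G | dist o (ρ g o) ≤ 2 * D}.ncard, fun F hF => ?_⟩
  obtain ⟨x, hx⟩ := exists_fixed ρ F
  obtain ⟨g, hg⟩ := hD x
  have h1 : (F : Set G).ncard ≤ {g : G | dist o (ρ g o) ≤ 2 * D}.ncard := by
    refine Set.ncard_le_ncard_of_injOn (fun a => g⁻¹ * a * g) ?_ ?_ (hG.proper o (2 * D))
    · intro a ha
      show dist o (ρ (g⁻¹ * a * g) o) ≤ 2 * D
      have e1 : ρ g (ρ (g⁻¹ * a * g) o) = ρ a (ρ g o) := by
        rw [← IsometryEquiv.mul_apply, ← map_mul, ← IsometryEquiv.mul_apply, ← map_mul]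
        congr 2
        group
      have e2 : dist o (ρ (g⁻¹ * a * g) o) = dist (ρ g o) (ρ a (ρ g o)) := by
        rw [← e1, (ρ g).dist_eq]
      rw [e2]
      have e3 : dist x (ρ a (ρ g o)) = dist x (ρ g o) := by
        conv_lhs => rw [← hx a ha]
        exact (ρ a).dist_eq _ _
      have := dist_triangle (ρ g o) x (ρ a (ρ g o))
      rw [e3, dist_comm (ρ g o) x] at this
      linarith
    · intro a _ b _ hab
      simpa using hab
  exact h1

/-- Bounded exponent of the torsion elements: `E = M!` (`Subgroup.zpowers g` is finite of order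
`orderOf g ≤ M`). -/
theorem Geom.bound_exp [ProperSpace X] [Nonempty X] {ρ : G →* (X ≃ᵢ X)} (hG : Geom ρ) :
    ∃ E : ℕ, 0 < E ∧ ∀ g : G, IsOfFinOrder g → g ^ E = 1 := by
  obtain ⟨M, hM⟩ := hG.bound_fin
  refine ⟨M.factorial, Nat.factorial_pos M, fun g hg => ?_⟩
  have h1 : Finite (Subgroup.zpowers g) := finite_zpowers.2 hg
  have h2 := hM _ h1
  rw [Nat.card_zpowers] at h2
  exact orderOf_dvd_iff_pow_eq_one.1 (Nat.dvd_factorial hg.orderOf_pos h2)

/-- An infinite subgroup all of whose finitely generated subgroups are finite would contain a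
finite subgroup of order `> M`: take `M + 1` distinct elements and the subgroup they generate.
So every infinite subgroup contains an infinite finitely generated subgroup. -/
theorem Geom.exists_fg [ProperSpace X] [Nonempty X] {ρ : G →* (X ≃ᵢ X)} (hG : Geom ρ)
    (H : Subgroup G) (hinf : Infinite H) :
    ∃ K : Subgroup G, K ≤ H ∧ K.FG ∧ Infinite K := by
  classical
  obtain ⟨M, hM⟩ := hG.bound_fin
  have hinf' : (H : Set G).Infinite := Set.infinite_coe_iff.1 hinf
  obtain ⟨t, ht, hcard⟩ := hinf'.exists_subset_card_eq (M + 1)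
  refine ⟨Subgroup.closure (t : Set G), (Subgroup.closure_le H).2 ht, ⟨t, rfl⟩, ?_⟩
  by_contra hfin
  rw [not_infinite_iff_finite] at hfin
  have h1 := hM _ hfin
  have h2 : (t : Set G).ncard ≤ ((Subgroup.closure (t : Set G) : Subgroup G) : Set G).ncard :=
    Set.ncard_le_ncard Subgroup.subset_closure (Set.toFinite _)
  rw [Set.ncard_coe_finset, hcard] at h2
  have h3 : ((Subgroup.closure (t : Set G) : Subgroup G) : Set G).ncard =
    Nat.card (Subgroup.closure (t : Set G)) := rfl
  omega

/-- Torsion abelian subgroups are finite. Proof: by `Geom.exists_fg` it is enough that a finitely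
generated torsion abelian group is finite (`CommGroup.finite_of_fg_torsion`). -/
theorem Geom.finite_comm [ProperSpace X] [Nonempty X] {ρ : G →* (X ≃ᵢ X)} (hG : Geom ρ)
    (H : Subgroup G) (ht : ∀ h ∈ H, IsOfFinOrder h) (hc : ∀ a ∈ H, ∀ b ∈ H, a * b = b * a) :
    Finite H := by
  by_contra hinf
  rw [not_finite_iff_infinite] at hinf
  obtain ⟨K, hKH, hKfg, hKinf⟩ := hG.exists_fg H hinf
  let _ : CommGroup K :=
    { (inferInstance : Group K) with
      mul_comm := fun a b => Subtype.ext (hc a (hKH a.2) b (hKH b.2)) }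
  have : Group.FG K := (Group.fg_iff_subgroup_fg K).2 hKfg
  have htor : IsMulTorsion K := fun k => Submonoid.isOfFinOrder_coe.1 (ht k (hKH k.2))
  have := CommGroup.finite_of_fg_isMulTorsion K htor
  exact hKinf.not_finite this

end CTOR
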