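import Mathlib

/-!
# CTOR: the definitions used in the final statement (owner: helper23)

`CAT(0)` spaces, geometric actions and `CAT(0)` groups, as in the literature.
-/

namespace CTOR

open Metric Set

universe u v

/-- `c` is a geodesic from `x` to `y`, parametrised by arc length on `[0, dist x y]`. -/
def IsGeodesic {X : Type u} [MetricSpace X] (c : ℝ → X) (x y : X) : Prop :=
  c 0 = x ∧ c (dist x y) = y ∧
    ∀ s ∈ Icc (0 : ℝ) (dist x y), ∀ t ∈ Icc (0 : ℝ) (dist x y), dist (c s) (c t) = |s - t|

/-- A `CAT(0)` space: a (nonempty) complete geodesic metric space whose geodesic triangles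
(vertices `p 0, p 1, p 2`, sides `c i` from `p i` to `p (i + 1)`, indices modulo `3`) are no fatter
than their comparison triangles `q 0, q 1, q 2` in the Euclidean plane: if the points `c i s` and
`c j t` of the triangle correspond to the points `x` and `y` of the comparison triangle then
`dist (c i s) (c j t) ≤ dist x y`. -/
structure IsCAT0 (X : Type u) [MetricSpace X] : Prop where
  nonempty : Nonempty X
  complete : CompleteSpace X
  geodesic : ∀ x y : X, ∃ c : ℝ → X, IsGeodesic c x y
  comparison : ∀ (p : Fin 3 → X) (c : Fin 3 → ℝ → X) (q : Fin 3 → EuclideanSpace ℝ (Fin 2)),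
    (∀ i, IsGeodesic (c i) (p i) (p (i + 1))) →
    (∀ i j, dist (q i) (q j) = dist (p i) (p j)) →
    ∀ i j : Fin 3, ∀ s ∈ Icc (0 : ℝ) (dist (p i) (p (i + 1))),
      ∀ t ∈ Icc (0 : ℝ) (dist (p j) (p (j + 1))),
      ∀ x ∈ segment ℝ (q i) (q (i + 1)), ∀ y ∈ segment ℝ (q j) (q (j + 1)),
        dist (q i) x = s → dist (q j) y = t → dist (c i s) (c j t) ≤ dist x y

/-- A geometric action: by isometries, properly discontinuous (for each compact set `K` only
finitely many translates `g K` meet `K`) and cocompact (the translates of some compact set cover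
the space). -/
structure IsGeometric (G : Type v) (X : Type u) [Group G] [MetricSpace X] [MulAction G X] :
    Prop where
  isometric : ∀ (g : G) (x y : X), dist (g • x) (g • y) = dist x y
  properlyDiscontinuous : ∀ K : Set X, IsCompact K →
    {g : G | ((fun x => g • x) '' K ∩ K).Nonempty}.Finite
  cocompact : ∃ K : Set X, IsCompact K ∧ ∀ x : X, ∃ g : G, ∃ y ∈ K, g • y = x

/-- A `CAT(0)` group: a group with a geometric action on some proper `CAT(0)` space. -/
def IsCAT0Group (G : Type v) [Group G] : Prop :=
  ∃ (X : Type u) (_ : MetricSpace X) (_ : MulAction G X),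
    IsCAT0 X ∧ ProperSpace X ∧ IsGeometric G X

end CTOR
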