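import Pool.Agent.CTOR.Growth

/-!
# CTOR A4: centralizers act geometrically on the sets `Xc` (1.3)
-/

namespace CTOR

open Metric Set

universe u v

variable {X : Type u} [MetricSpace X] {G : Type v} [Group G]

/-- Closed: intersection of closed sets. -/
theorem isClosed_Xc (ρ : G →* (X ≃ᵢ X)) (S : Set G) (c : ℝ) : IsClosed (Xc ρ S c) := by
  have : Xc ρ S c = ⋂ s ∈ S, {x | dist x (ρ s x) ≤ c} := by
    ext x
    simp [Xc]
  rw [this]
  exact isClosed_biInter fun s _ =>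
    isClosed_le (continuous_id.dist (ρ s).continuous) continuous_const

/-- Convex: `ρ s (pt x y t) = pt (ρ s x) (ρ s y) t` (`map_pt`) and `dist_pt_pt`. -/
theorem gconv_Xc [CN X] (ρ : G →* (X ≃ᵢ X)) (S : Set G) (c : ℝ) : GConv (Xc ρ S c) := by
  intro x hx y hy t h0 h1 s hs
  have h := dist_pt_pt x y (ρ s x) (ρ s y) h0 h1
  rw [← map_pt (f := ρ s) (fun a b => (ρ s).dist_eq a b) x y h0 h1] at h
  have h2 := mul_le_mul_of_nonneg_left (hx s hs) (by linarith : (0 : ℝ) ≤ 1 - t)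
  have h3 := mul_le_mul_of_nonneg_left (hy s hs) h0
  linarith

/-- Invariant under the centralizer. -/
theorem Xc_inv (ρ : G →* (X ≃ᵢ X)) (S : Set G) (c : ℝ) (g : G)
    (hg : g ∈ Subgroup.centralizer S) (x : X) (hx : x ∈ Xc ρ S c) : ρ g x ∈ Xc ρ S c := by
  intro s hs
  have e : ρ s (ρ g x) = ρ g (ρ s x) := by
    rw [← IsometryEquiv.mul_apply, ← map_mul, ← IsometryEquiv.mul_apply, ← map_mul,
      Subgroup.mem_centralizer_iff.1 hg s hs]
  rw [e, (ρ g).dist_eq]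
  exact hx s hs

/-- The centralizer acts coboundedly on `Xc`. Proof: `D0` with `∀ x, ∃ g, dist x (ρ g o) ≤ D0` (move the
base point of `Geom.cobdd` to `o`). For `x ∈ Xc` and such a `g` all `g⁻¹ s g`, `s ∈ S`, lie in the
finite set `T = {a | dist o (ρ a o) ≤ c + 2 D0}`. The map `s ↦ g⁻¹ s g` is an element of the finite
set of functions `S → T`; for each function that occurs fix one `g0`. If `g` and `g0` have the same
function then `g * g0⁻¹ ∈ centralizer S` and `dist x (ρ (g * g0⁻¹) o) ≤ dist x (ρ g o) +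
dist (ρ g o) (ρ (g * g0⁻¹) o) ≤ D0 + dist o (ρ g0⁻¹ o)`. Take the maximum over the finitely many `g0`. -/
theorem Geom.cent {ρ : G →* (X ≃ᵢ X)} (hG : Geom ρ) {S : Set G} (hS : S.Finite) (o : X) (c : ℝ) :
    ∃ D : ℝ, ∀ x ∈ Xc ρ S c, ∃ g ∈ Subgroup.centralizer S, dist x (ρ g o) ≤ D := by
  classical
  obtain ⟨D0, hD00, hD0⟩ := hG.dense o
  have hSf : Finite S := hS
  set T : Set G := {a | dist o (ρ a o) ≤ c + 2 * D0} with hT
  have hTfin : T.Finite := hG.proper o _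
  set P : Set (S → G) := Set.pi Set.univ (fun _ => T) with hP
  have hPfin : P.Finite := Set.Finite.pi fun _ => hTfin
  set Φ : G → (S → G) := fun g s => g⁻¹ * s * g with hΦ
  set g0 : (S → G) → G := fun f => if h : ∃ g, Φ g = f then h.choose else 1 with hg0
  have hg0' : ∀ g, Φ (g0 (Φ g)) = Φ g := by
    intro g
    have h : ∃ g', Φ g' = Φ g := ⟨g, rfl⟩
    simp only [hg0, dif_pos h]
    exact h.choose_spec
  obtain ⟨B, hB⟩ := (hPfin.image (fun f => dist o (ρ (g0 f)⁻¹ o))).bddAbove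
  refine ⟨D0 + B, fun x hx => ?_⟩
  obtain ⟨g, hg⟩ := hD0 x
  have hgP : Φ g ∈ P := by
    intro s _
    show dist o (ρ (g⁻¹ * s * g) o) ≤ c + 2 * D0
    have e1 : ρ g (ρ (g⁻¹ * s * g) o) = ρ s (ρ g o) := by
      rw [← IsometryEquiv.mul_apply, ← map_mul, ← IsometryEquiv.mul_apply, ← map_mul]
      congr 2
      group
    have e2 : dist o (ρ (g⁻¹ * s * g) o) = dist (ρ g o) (ρ s (ρ g o)) := by
      rw [← e1, (ρ g).dist_eq]
    rw [e2]
    have h1 := dist_triangle (ρ g o) x (ρ s (ρ g o))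
    have h2 := dist_triangle x (ρ s x) (ρ (s : G) (ρ g o))
    rw [(ρ (s : G)).dist_eq] at h2
    have h3 := hx s s.2
    rw [dist_comm (ρ g o) x] at h1
    linarith
  have hb := hB (Set.mem_image_of_mem _ hgP)
  refine ⟨g * (g0 (Φ g))⁻¹, ?_, ?_⟩
  · rw [Subgroup.mem_centralizer_iff]
    intro s hs
    have h := congrFun (hg0' g) ⟨s, hs⟩
    simp only [hΦ] at h
    calc s * (g * (g0 (Φ g))⁻¹) = g * (g⁻¹ * s * g) * (g0 (Φ g))⁻¹ := by group
      _ = g * ((g0 (Φ g))⁻¹ * s * g0 (Φ g)) * (g0 (Φ g))⁻¹ := by rw [← h]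
      _ = g * (g0 (Φ g))⁻¹ * s := by group
  · have h1 := dist_triangle x (ρ g o) (ρ (g * (g0 (Φ g))⁻¹) o)
    rw [map_mul, IsometryEquiv.mul_apply, (ρ g).dist_eq] at h1
    rw [map_mul, IsometryEquiv.mul_apply]
    have hb' : dist o (ρ (g0 (Φ g))⁻¹ o) ≤ B := hb
    linarith

/-- Hence the centralizer of a finite set acts geometrically on `Xc` if this is not empty. -/
theorem Geom.restr_cent {ρ : G →* (X ≃ᵢ X)} (hG : Geom ρ) {S : Set G} (hS : S.Finite) (c : ℝ)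
    (hne : (Xc ρ S c).Nonempty) :
    Geom (restr (ρ.comp (Subgroup.centralizer S).subtype) (Xc ρ S c)
      (fun g x hx => Xc_inv ρ S c g g.2 x hx)) := by
  refine ⟨fun o R => ?_, ?_⟩
  · exact Set.Finite.preimage (f := fun g : Subgroup.centralizer S => (g : G))
      Subtype.val_injective.injOn (hG.proper (o : X) R)
  · obtain ⟨o, ho⟩ := hne
    obtain ⟨D, hD⟩ := hG.cent hS o c
    refine ⟨⟨o, ho⟩, D, fun x => ?_⟩
    obtain ⟨g, hg, hgx⟩ := hD x x.2
    exact ⟨⟨g, hg⟩, hgx⟩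

/-- If the centralizer is finite then all `Xc` are bounded. -/
theorem Geom.bdd_Xc {ρ : G →* (X ≃ᵢ X)} (hG : Geom ρ) {S : Set G} (hS : S.Finite)
    (hfin : Finite (Subgroup.centralizer S)) (c : ℝ) : Bornology.IsBounded (Xc ρ S c) := by
  obtain ⟨o, -, -⟩ := hG.cobdd
  obtain ⟨D, hD⟩ := hG.cent hS o c
  have hsub : Xc ρ S c ⊆ ⋃ g : Subgroup.centralizer S, closedBall (ρ (g : G) o) D := by
    intro x hx
    obtain ⟨g, hg, hgx⟩ := hD x hx
    exact Set.mem_iUnion.2 ⟨⟨g, hg⟩, hgx⟩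
  exact (Bornology.isBounded_iUnion.2 fun _ => isBounded_closedBall).subset hsub

end CTOR
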