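import Pool.Agent.CTOR.Defs
import Pool.Agent.CTOR.CatDefs

/-!
# CTOR F: from the definitions of the literature to the interfaces (owner: helper23)
-/

namespace CTOR

open Metric Set

universe u v

/-- Existence of comparison triangles. -/
theorem exists_comparison {a b c : ℝ} (ha : 0 ≤ a) (hb : 0 ≤ b) (hc : 0 ≤ c)
    (h1 : a ≤ b + c) (h2 : b ≤ a + c) (h3 : c ≤ a + b) :
    ∃ x y z : EuclideanSpace ℝ (Fin 2), dist x y = a ∧ dist y z = b ∧ dist z x = c := by
  rcases ha.eq_or_lt with rfl | ha
  · refine ⟨!₂[0, 0], !₂[0, 0], !₂[b, 0], by simp, ?_, ?_⟩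
    · rw [EuclideanSpace.dist_eq]
      simp [Real.sqrt_sq hb, Real.dist_eq, abs_of_nonneg hb]
    · rw [EuclideanSpace.dist_eq]
      have : b = c := by linarith
      subst this
      simp [Real.sqrt_sq hb, Real.dist_eq, abs_of_nonneg hb]
  · set w : ℝ := (a ^ 2 + c ^ 2 - b ^ 2) / (2 * a) with hw
    have hw' : 2 * a * w = a ^ 2 + c ^ 2 - b ^ 2 := by rw [hw]; field_simp
    have hle : w ≤ c := by
      rw [hw, div_le_iff₀ (by positivity)]
      nlinarith [mul_nonneg (by linarith : 0 ≤ b + a - c) (by linarith : 0 ≤ b + c - a)]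
    have hge : -c ≤ w := by
      rw [hw, le_div_iff₀ (by positivity)]
      nlinarith [mul_nonneg (by linarith : 0 ≤ a + c - b) (by linarith : 0 ≤ a + c + b)]
    have hsq : 0 ≤ c ^ 2 - w ^ 2 := by nlinarith
    refine ⟨!₂[0, 0], !₂[a, 0], !₂[w, √(c ^ 2 - w ^ 2)], ?_, ?_, ?_⟩
    · rw [EuclideanSpace.dist_eq]
      simp [Real.sqrt_sq ha.le, Real.dist_eq, abs_of_pos ha]
    · rw [EuclideanSpace.dist_eq]
      simp only [Fin.sum_univ_two, Real.dist_eq, sq_abs]
      simp only [Matrix.cons_val_zero, Matrix.cons_val_one, Matrix.cons_val_fin_one]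
      rw [show (a - w) ^ 2 + (0 - √(c ^ 2 - w ^ 2)) ^ 2 = b ^ 2 by
        rw [zero_sub, neg_sq, Real.sq_sqrt hsq]; linear_combination -hw']
      exact Real.sqrt_sq hb
    · rw [EuclideanSpace.dist_eq]
      simp only [Fin.sum_univ_two, Real.dist_eq, sq_abs]
      simp only [Matrix.cons_val_zero, Matrix.cons_val_one, Matrix.cons_val_fin_one]
      rw [show (w - 0) ^ 2 + (√(c ^ 2 - w ^ 2) - 0) ^ 2 = c ^ 2 by
        rw [sub_zero, sub_zero, Real.sq_sqrt hsq]; ring]
      exact Real.sqrt_sq hc

/-- Stewart's formula. -/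
theorem dist_lineMap_sq {E : Type*} [NormedAddCommGroup E] [InnerProductSpace ℝ E] (x y z : E)
    (t : ℝ) : dist (AffineMap.lineMap x y t) z ^ 2 =
      (1 - t) * dist x z ^ 2 + t * dist y z ^ 2 - t * (1 - t) * dist x y ^ 2 := by
  have h1 : AffineMap.lineMap x y t - z = (x - z) + t • (y - x) := by
    rw [AffineMap.lineMap_apply]
    simp only [vsub_eq_sub, vadd_eq_add]
    abel
  have h2 : y - z = (x - z) + (y - x) := by abel
  rw [dist_eq_norm, dist_eq_norm, dist_eq_norm, dist_comm, dist_eq_norm, h1, h2,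
    norm_add_sq_real, norm_add_sq_real, norm_smul, inner_smul_right, mul_pow, Real.norm_eq_abs,
    sq_abs]
  ring

/-- A `CAT(0)` space satisfies the strong CN inequality. -/
theorem IsCAT0.cn {X : Type u} [MetricSpace X] (hX : IsCAT0 X) : CN X := by
  constructor
  intro x y t ht0 ht1
  obtain ⟨c0, hc0⟩ := hX.geodesic x y
  refine ⟨c0 (t * dist x y), fun p => ?_⟩
  obtain ⟨c1, hc1⟩ := hX.geodesic y p
  obtain ⟨c2, hc2⟩ := hX.geodesic p x
  obtain ⟨x', y', z', h1, h2, h3⟩ := exists_comparison (a := dist x y) (b := dist y p)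
    (c := dist p x) dist_nonneg dist_nonneg dist_nonneg
    (by have := dist_triangle x p y; rw [dist_comm x p, dist_comm p y] at this; linarith)
    (by have := dist_triangle y x p; rw [dist_comm y x, dist_comm x p] at this; linarith)
    (by have := dist_triangle x y p; rw [dist_comm x p] at this; linarith)
  have key := hX.comparison ![x, y, p] ![c0, c1, c2] ![x', y', z']
    (by intro i; fin_cases i <;> simpa using by assumption)
    (by
      intro i j
      fin_cases i <;> fin_cases j <;>
        simp [h1, h2, h3, dist_comm y' x', dist_comm z' y', dist_comm x' z', dist_comm y x,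
          dist_comm p y, dist_comm x p])
    0 2 (t * dist x y) ⟨by positivity, by
      have := dist_nonneg (x := x) (y := y)
      simpa using (mul_le_of_le_one_left this ht1)⟩ 0 ⟨le_rfl, dist_nonneg⟩
    (AffineMap.lineMap x' y' t) (by
      rw [segment_eq_image_lineMap]
      exact ⟨t, ⟨ht0, ht1⟩, rfl⟩) z' (left_mem_segment ℝ _ _)
    (by
      show dist x' (AffineMap.lineMap x' y' t) = _
      rw [dist_left_lineMap, Real.norm_eq_abs, abs_of_nonneg ht0, h1])
    (by simp)
  have key' : dist (c0 (t * dist x y)) p ≤ dist (AffineMap.lineMap x' y' t) z' := by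
    have h4 : c2 0 = p := hc2.1
    rw [← h4]
    exact key
  rw [dist_comm]
  calc dist (c0 (t * dist x y)) p ^ 2 ≤ dist (AffineMap.lineMap x' y' t) z' ^ 2 :=
        pow_le_pow_left₀ dist_nonneg key' 2
    _ = _ := by
        rw [dist_lineMap_sq, h1, h2, dist_comm x' z', h3, dist_comm y p]

/-- The homomorphism to the isometry group. -/
noncomputable def IsGeometric.hom {G : Type v} {X : Type u} [Group G] [MetricSpace X]
    [MulAction G X] (h : IsGeometric G X) : G →* (X ≃ᵢ X) where
  toFun g := ⟨MulAction.toPerm g, Isometry.of_dist_eq (h.isometric g)⟩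
  map_one' := by ext x; simp
  map_mul' a b := by ext x; simp [IsometryEquiv.mul_apply, mul_smul]

theorem IsGeometric.hom_apply {G : Type v} {X : Type u} [Group G] [MetricSpace X]
    [MulAction G X] (h : IsGeometric G X) (g : G) (x : X) : h.hom g x = g • x := rfl

/-- A geometric action on a proper space is geometric in the metric sense. -/
theorem IsGeometric.geom {G : Type v} {X : Type u} [Group G] [MetricSpace X] [ProperSpace X]
    [Nonempty X] [MulAction G X] (h : IsGeometric G X) : Geom h.hom := by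
  constructor
  · intro o R
    refine (h.properlyDiscontinuous (closedBall o (max R 0)) (isCompact_closedBall _ _)).subset ?_
    intro g hg
    refine ⟨g • o, ⟨o, mem_closedBall_self (le_max_right _ _), rfl⟩, ?_⟩
    rw [mem_closedBall, dist_comm]
    exact le_trans hg (le_max_left _ _)
  · obtain ⟨K, hK, hc⟩ := h.cocompact
    obtain ⟨o⟩ := ‹Nonempty X›
    obtain ⟨D, hD⟩ := hK.isBounded.subset_closedBall o
    refine ⟨o, D, fun x => ?_⟩
    obtain ⟨g, y, hy, rfl⟩ := hc x
    refine ⟨g, ?_⟩
    rw [h.hom_apply, h.isometric]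
    exact mem_closedBall.1 (hD hy)

end CTOR
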