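import Pool.Agent.CTOR.CoreF

/-!
# CTOR D, top statement: the core contradiction (4.2-4.8)
-/

namespace CTOR

open Metric Set

universe u v

/-- **Section 4.** An infinite group of bounded exponent with an invariant mean cannot act properly
on a proper `CN` space such that all sets `Xc ρ S c` (`S` a fixed finite set) are bounded. -/
theorem core_false {H : Type v} [Group H] [Infinite H] {X : Type u} [MetricSpace X] [CN X]
    [ProperSpace X] [Nonempty X] (ρ : H →* (X ≃ᵢ X)) (M : InvMean H) (E : ℕ) (hE : 0 < E)
    (hexp : ∀ h : H, h ^ E = 1) (hpr : ∀ (o : X) (R : ℝ), {h : H | dist o (ρ h o) ≤ R}.Finite)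
    {S : Set H} (hS : S.Finite) (hb : ∀ c : ℝ, Bornology.IsBounded (Xc ρ S c)) : False := by
  obtain ⟨X0, h0⟩ := exists_min ρ hS hb
  exact core_min ρ M h0 hE hexp hpr

end CTOR
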