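import Mathlib

/-!
# CTOR, block D: fixed points of groups of bounded exponent acting by affine isometries on
a finite dimensional Hilbert space (step 4.7)
-/

namespace CTOR

section
variable {V : Type*} [NormedAddCommGroup V] [InnerProductSpace ℝ V]

/-- `‖A^i w - w‖ ≤ i δ ‖w‖` for a linear isometry `A` with `‖A w - w‖ ≤ δ ‖w‖`. -/
theorem norm_pow_sub_le (A : V →L[ℝ] V) (hA : ∀ v, ‖A v‖ = ‖v‖) {δ : ℝ}
    (hδ : ∀ v, ‖A v - v‖ ≤ δ * ‖v‖) (i : ℕ) (w : V) : ‖(A ^ i) w - w‖ ≤ i * δ * ‖w‖ := by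
  induction i with
  | zero => simp
  | succ i ih =>
    have h1 : (A ^ (i + 1)) w - w = A ((A ^ i) w - w) + (A w - w) := by
      rw [pow_succ']
      simp only [mul_apply_eq_comp, map_sub]
      abel
    calc ‖(A ^ (i + 1)) w - w‖ ≤ ‖A ((A ^ i) w - w)‖ + ‖A w - w‖ := by
            rw [h1]; exact norm_add_le _ _
      _ ≤ i * δ * ‖w‖ + δ * ‖w‖ := by
            rw [hA]; exact add_le_add ih (hδ w)
      _ = ((i + 1 : ℕ) : ℝ) * δ * ‖w‖ := by push_cast; ring

/-- A linear isometry of finite order `E` at distance `< 1 / E` from the identity is the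
identity. -/
theorem eq_one_of_pow_eq_one (A : V →L[ℝ] V) (hA : ∀ v, ‖A v‖ = ‖v‖) {E : ℕ} (hE : 0 < E)
    (hpow : A ^ E = 1) (hlt : ‖A - 1‖ < 1 / E) : A = 1 := by
  have hE' : (0 : ℝ) < E := by exact_mod_cast hE
  have hδ : ∀ v, ‖A v - v‖ ≤ ‖A - 1‖ * ‖v‖ := fun v => by
    have := (A - 1).le_opNorm v
    simpa using this
  ext v
  by_contra hne
  set w : V := A v - v with hw
  have hw0 : w ≠ 0 := fun h => hne (by simpa [hw, sub_eq_zero] using h)
  have hsum : (∑ i ∈ Finset.range E, (A ^ i) w) = 0 := by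
    have h1 : (∑ i ∈ Finset.range E, A ^ i) * (A - 1) = A ^ E - 1 := geom_sum_mul A E
    rw [hpow, sub_self] at h1
    have h2 : ((∑ i ∈ Finset.range E, A ^ i) * (A - 1)) v = 0 := by rw [h1]; rfl
    simpa [mul_apply_eq_comp, sum_apply, hw] using h2
  have h3 : (E : ℝ) • w = ∑ i ∈ Finset.range E, (w - (A ^ i) w) := by
    rw [Finset.sum_sub_distrib, hsum, sub_zero, Finset.sum_const, Finset.card_range,
      Nat.cast_smul_eq_nsmul]
  have hw1 : 0 < ‖w‖ := norm_pos_iff.mpr hw0
  have h4 : ∀ i ∈ Finset.range E, ‖w - (A ^ i) w‖ ≤ ((E : ℝ) - 1) * ‖A - 1‖ * ‖w‖ := by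
    intro i hi
    rw [norm_sub_rev]
    refine (norm_pow_sub_le A hA hδ i w).trans ?_
    have : (i : ℝ) ≤ E - 1 := by
      have : i + 1 ≤ E := Finset.mem_range.mp hi
      have : ((i + 1 : ℕ) : ℝ) ≤ E := by exact_mod_cast this
      push_cast at this; linarith
    have h0 : 0 ≤ ‖A - 1‖ := norm_nonneg _
    gcongr
  have h5 : (E : ℝ) * ‖w‖ ≤ E * (((E : ℝ) - 1) * ‖A - 1‖ * ‖w‖) := by
    calc (E : ℝ) * ‖w‖ = ‖(E : ℝ) • w‖ := by rw [norm_smul]; simp
      _ = ‖∑ i ∈ Finset.range E, (w - (A ^ i) w)‖ := by rw [h3]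
      _ ≤ ∑ i ∈ Finset.range E, ‖w - (A ^ i) w‖ := norm_sum_le _ _
      _ ≤ ∑ i ∈ Finset.range E, ((E : ℝ) - 1) * ‖A - 1‖ * ‖w‖ := Finset.sum_le_sum h4
      _ = E * (((E : ℝ) - 1) * ‖A - 1‖ * ‖w‖) := by simp
  have h6 : ‖w‖ ≤ ((E : ℝ) - 1) * ‖A - 1‖ * ‖w‖ := le_of_mul_le_mul_left h5 hE'
  have h7 : (1 : ℝ) ≤ (E - 1) * ‖A - 1‖ := by
    by_contra hc
    push Not at hc
    have := mul_lt_mul_of_pos_right hc hw1
    linarith
  have h8 : (E : ℝ) * ‖A - 1‖ < 1 := by
    rw [lt_div_iff₀ hE'] at hlt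
    linarith
  nlinarith [norm_nonneg (A - 1)]

end

variable {V : Type*} [NormedAddCommGroup V] [InnerProductSpace ℝ V] [FiniteDimensional ℝ V]
  {H : Type*} [Group H]

/-- The image of a group of bounded exponent in the isometries of `V` is finite. -/
theorem finite_range_rep (p : H →* (V ≃ₗᵢ[ℝ] V)) {E : ℕ} (hE : 0 < E) (hexp : ∀ g : H, g ^ E = 1) :
    (Set.range p).Finite := by
  -- embed in the continuous linear maps
  let f : H → (V →L[ℝ] V) := fun g => ((p g).toContinuousLinearEquiv : V →L[ℝ] V)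
  have hf : ∀ g v, f g v = p g v := fun g v => rfl
  have hE' : (0 : ℝ) < E := by exact_mod_cast hE
  have hmul : ∀ g h, f (g * h) = f g * f h := by
    intro g h; ext v; simp [hf, map_mul]
  have hone : f 1 = 1 := by ext v; simp [hf]
  have hpow : ∀ (g : H) (n : ℕ), f (g ^ n) = f g ^ n := by
    intro g n
    induction n with
    | zero => simp [hone]
    | succ n ih => rw [pow_succ, hmul, ih, pow_succ]
  have hiso : ∀ g v, ‖f g v‖ = ‖v‖ := fun g v => by rw [hf]; exact (p g).norm_map v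
  have hsep : (Set.range f).Pairwise fun x y => 1 / (E : ℝ) ≤ dist x y := by
    rintro _ ⟨g, rfl⟩ _ ⟨h, rfl⟩ hne
    by_contra hlt
    push Not at hlt
    apply hne
    have h1 : f (h⁻¹ * g) = 1 := by
      apply eq_one_of_pow_eq_one (f (h⁻¹ * g)) (hiso _) hE
      · rw [← hpow, hexp, hone]
      · refine lt_of_le_of_lt ?_ hlt
        refine ContinuousLinearMap.opNorm_le_bound _ dist_nonneg fun v => ?_
        have h2 : (f (h⁻¹ * g) - 1) v = f h⁻¹ ((f g - f h) v) := by
          have h3 : f h⁻¹ (f h v) = v := by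
            have : f (h⁻¹ * h) v = v := by rw [inv_mul_cancel, hone]; rfl
            rw [hmul] at this
            exact this
          simp [hmul, map_sub, h3]
        rw [h2, hiso, dist_eq_norm]
        exact (f g - f h).le_opNorm v
    have h2 : f g = f (h * (h⁻¹ * g)) := by rw [mul_inv_cancel_left]
    rw [h2, hmul, h1, mul_one]
  have hfin : (Set.range f).Finite := by
    have hcl : IsClosed (Set.range f) := Metric.isClosed_of_pairwise_le_dist (by positivity) hsep
    have : DiscreteTopology (Set.range f) := by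
      apply DiscreteTopology.of_forall_le_dist (r := 1 / (E : ℝ)) (by positivity)
      intro x y hxy
      exact hsep x.2 y.2 (fun h => hxy (Subtype.ext h))
    have : ProperSpace (V →L[ℝ] V) := FiniteDimensional.proper_real _
    have hb : Bornology.IsBounded (Metric.closedBall (0 : V →L[ℝ] V) 1) :=
      Metric.isBounded_closedBall
    have := Metric.finite_isBounded_inter_isClosed ⟨‹_›⟩ hb hcl
    refine this.subset ?_
    rintro _ ⟨g, rfl⟩
    refine ⟨?_, g, rfl⟩
    rw [mem_closedBall_zero_iff]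
    refine ContinuousLinearMap.opNorm_le_bound _ zero_le_one fun v => ?_
    rw [hiso, one_mul]
  -- the range of `p` is the preimage
  have hinj : Set.InjOn (fun T : V ≃ₗᵢ[ℝ] V => (T.toContinuousLinearEquiv : V →L[ℝ] V))
      (Set.range p) := by
    intro S _ T _ h
    ext v
    exact congrArg (fun A : V →L[ℝ] V => A v) h
  refine Set.Finite.of_finite_image (hfin.subset ?_) hinj
  rintro _ ⟨_, ⟨g, rfl⟩, rfl⟩
  exact ⟨g, rfl⟩

/-- A group of bounded exponent acting by affine isometries on a finite dimensional Hilbert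
space has a fixed point. -/
theorem fixed_point (p : H →* (V ≃ₗᵢ[ℝ] V)) (c : H → V)
    (hc : ∀ g h, c (g * h) = p g (c h) + c g) {E : ℕ} (hE : 0 < E)
    (hexp : ∀ g : H, g ^ E = 1) : ∃ w, ∀ g, p g w + c g = w := by
  classical
  have hc1 : c 1 = 0 := by
    have := hc 1 1
    simpa using this
  -- elements acting trivially have trivial cocycle
  have hker : ∀ k, p k = 1 → c k = 0 := by
    intro k hk
    have hn : ∀ n : ℕ, c (k ^ n) = (n : ℝ) • c k := by
      intro n
      induction n with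
      | zero => simp [hc1]
      | succ n ih =>
        rw [pow_succ', hc, hk, ih]
        push_cast
        rw [add_smul, one_smul]
        rfl
    have h1 := hn E
    rw [hexp, hc1] at h1
    have hE' : (E : ℝ) ≠ 0 := by exact_mod_cast hE.ne'
    exact (smul_eq_zero.mp h1.symm).resolve_left hE'
  have hfac : ∀ g h, p g = p h → c g = c h := by
    intro g h hgh
    have hk : p (h⁻¹ * g) = 1 := by rw [map_mul, hgh, map_inv, inv_mul_cancel]
    have := hc h (h⁻¹ * g)
    rw [mul_inv_cancel_left, hker _ hk, map_zero, zero_add] at this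
    exact this
  have hfin : (Set.range c).Finite := by
    have hr := finite_range_rep p hE hexp
    -- `c` factors through `p`
    have : Set.range c ⊆ (fun T : V ≃ₗᵢ[ℝ] V => if h : ∃ g, p g = T then c h.choose else 0) ''
        Set.range p := by
      rintro _ ⟨g, rfl⟩
      refine ⟨p g, ⟨g, rfl⟩, ?_⟩
      have h : ∃ g', p g' = p g := ⟨g, rfl⟩
      simp only [h, dif_pos]
      exact hfac _ _ h.choose_spec
    exact (hr.image _).subset this
  set S : Finset V := hfin.toFinset with hS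
  have hmem : ∀ v, v ∈ S ↔ ∃ g, c g = v := by intro v; simp [hS]
  have hSne : S.Nonempty := ⟨c 1, (hmem _).mpr ⟨1, rfl⟩⟩
  have hcard : (0 : ℝ) < S.card := by exact_mod_cast hSne.card_pos
  refine ⟨(S.card : ℝ)⁻¹ • ∑ v ∈ S, v, fun g => ?_⟩
  have hperm : ∑ v ∈ S, (p g v + c g) = ∑ v ∈ S, v := by
    refine Finset.sum_bij (fun v _ => p g v + c g) ?_ ?_ ?_ ?_
    · intro v hv
      obtain ⟨h, rfl⟩ := (hmem _).mp hv
      exact (hmem _).mpr ⟨g * h, hc g h⟩
    · intro v _ w _ h
      exact (p g).injective (add_right_cancel h)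
    · intro v hv
      obtain ⟨h, rfl⟩ := (hmem _).mp hv
      refine ⟨c (g⁻¹ * h), (hmem _).mpr ⟨_, rfl⟩, ?_⟩
      have := hc g (g⁻¹ * h)
      rw [mul_inv_cancel_left] at this
      exact this.symm
    · intro v _; rfl
  rw [Finset.sum_add_distrib, Finset.sum_const] at hperm
  rw [map_smul, map_sum]
  have h1 : ∑ v ∈ S, p g v = ∑ v ∈ S, v - S.card • c g := eq_sub_of_add_eq hperm
  rw [h1, smul_sub, ← Nat.cast_smul_eq_nsmul ℝ, smul_smul, inv_mul_cancel₀ hcard.ne', one_smul]
  abel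

end CTOR
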