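import Pool.Agent.CTOR.EmbF
import Pool.Agent.CTOR.FixPt

/-!
# CTOR, block D: the covariance form is not zero, end of the proof (steps 4.5 - 4.8)
-/

namespace CTOR

open Metric Set

universe u v

variable {X : Type u} [MetricSpace X] [CN X] {H : Type v} [Group H] (ρ : H →* (X ≃ᵢ X))
  (M : InvMean H) (o : X)

/-- The set of the elements whose direction is near `y`. -/
def nearS (y : X) (r : ℝ) : Set H := {h | 1 ≤ dist o (ρ h o) ∧ dist (xh ρ o h) y < r}

/-- (4.5) There is a direction that carries mass at every scale. -/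
theorem exists_dir [ProperSpace X] [Infinite H]
    (hpr : ∀ (o : X) (R : ℝ), {h : H | dist o (ρ h o) ≤ R}.Finite) :
    ∃ y : X, dist o y = 1 ∧ ∀ r : ℝ, 0 < r → 0 < M.m ((nearS ρ o y r).indicator fun _ => 1) := by
  classical
  by_contra hcon
  push Not at hcon
  have hK : IsCompact (sphere o 1) := isCompact_sphere o 1
  have h1 : ∀ y ∈ sphere o 1, ∃ r : ℝ, 0 < r ∧
      M.m ((nearS ρ o y r).indicator fun _ => 1) ≤ 0 := by
    intro y hy
    rw [mem_sphere, dist_comm] at hy
    exact hcon y hy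
  choose! r hr0 hr using h1
  obtain ⟨t, htK, hcov⟩ := hK.elim_nhds_subcover (fun y => ball y (r y)) fun y hy =>
    ball_mem_nhds y (hr0 y hy)
  have hfin : ({h : H | dist o (ρ h o) ≤ 1}).Finite := hpr o 1
  have hsub : (Set.univ : Set H) ⊆ {h : H | dist o (ρ h o) ≤ 1} ∪ ⋃ y ∈ t, nearS ρ o y (r y) := by
    intro h _
    by_cases hd : dist o (ρ h o) ≤ 1
    · exact Or.inl hd
    · right
      push Not at hd
      have hmem : xh ρ o h ∈ sphere o 1 := by
        rw [mem_sphere, dist_comm]; exact dist_xh ρ o hd.le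
      obtain ⟨y, hyt, hy⟩ := Set.mem_iUnion₂.mp (hcov hmem)
      exact Set.mem_iUnion₂.mpr ⟨y, hyt, hd.le, hy⟩
  have hun : ∀ s : Finset X, s ⊆ t → M.m ((⋃ y ∈ s, nearS ρ o y (r y)).indicator fun _ => 1) ≤ 0 := by
    intro s
    induction s using Finset.induction_on with
    | empty => intro _; simpa using M.zero.le
    | insert a s ha ih =>
      intro hst
      rw [Finset.set_biUnion_insert]
      refine (M.ind_union_le _ _).trans ?_
      have e1 := hr a (htK a (hst (Finset.mem_insert_self _ _)))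
      have e2 := ih fun x hx => hst (Finset.mem_insert_of_mem hx)
      linarith
  have h2 := M.ind_mono hsub
  have h3 : M.m ((Set.univ : Set H).indicator fun _ => 1) = 1 := by
    rw [Set.indicator_univ]; exact M.one
  have h4 := M.ind_union_le {h : H | dist o (ρ h o) ≤ 1} (⋃ y ∈ t, nearS ρ o y (r y))
  have h5 := M.finite_null hfin
  have h6 := hun t (Finset.Subset.refl t)
  linarith

/-- (4.5) The covariance form does not vanish. -/
theorem exists_Theta_ne [ProperSpace X] [Infinite H]
    (hpr : ∀ (o : X) (R : ℝ), {h : H | dist o (ρ h o) ≤ R}.Finite) :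
    ∃ a : HM M, Theta M (vh ρ M o) a ≠ 0 := by
  classical
  obtain ⟨y, hy, hpos⟩ := exists_dir ρ M o hpr
  -- the norm of `F y` is positive
  have hn2 : 0 < ‖FM ρ M o y‖ ^ 2 := by
    unfold FM
    rw [norm_cls_sq M (bdd_bus ρ o y)]
    have h1 := M.mono ((bdd_ind (nearS ρ o y (1 / 2))).smul (1 / 4)) (bdd_bus ρ o y).sq fun h => by
      show 1 / 4 * (nearS ρ o y (1 / 2)).indicator (fun _ => (1 : ℝ)) h ≤ (bus ρ o h y) ^ 2
      by_cases hh : h ∈ nearS ρ o y (1 / 2)
      · rw [Set.indicator_of_mem hh]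
        have e1 := bus_xh ρ o hh.1
        have e2 := abs_bus_sub_le ρ o h (xh ρ o h) y
        have e3 := hh.2
        rw [e1, abs_le] at e2
        nlinarith
      · rw [Set.indicator_of_notMem hh]
        have := sq_nonneg (bus ρ o h y)
        linarith
    rw [M.smul _ _ (bdd_ind _)] at h1
    have := hpos (1 / 2) (by norm_num)
    linarith
  set n2 := ‖FM ρ M o y‖ ^ 2 with hn2d
  have hn1 : ‖FM ρ M o y‖ ≤ 1 := by
    have := norm_FM_le ρ M o y
    rwa [dist_comm, hy] at this
  refine ⟨FM ρ M o y, ne_of_gt ?_⟩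
  have h1 := M.mono ((bdd_ind (nearS ρ o y (n2 / 2))).smul ((n2 / 2) ^ 2))
    (bdd_inner (norm_vh_le ρ M o) (FM ρ M o y)).sq fun h => by
      show (n2 / 2) ^ 2 * (nearS ρ o y (n2 / 2)).indicator (fun _ => (1 : ℝ)) h ≤
        (inner ℝ (vh ρ M o h) (FM ρ M o y)) ^ 2
      by_cases hh : h ∈ nearS ρ o y (n2 / 2)
      · rw [Set.indicator_of_mem hh, mul_one]
        have e1 : inner ℝ (vh ρ M o h) (FM ρ M o y) = n2 -
            inner ℝ (FM ρ M o y - vh ρ M o h) (FM ρ M o y) := by
          rw [inner_sub_left, real_inner_self_eq_norm_sq]; ring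
        have e2 : |inner ℝ (FM ρ M o y - vh ρ M o h) (FM ρ M o y)| ≤ n2 / 2 := by
          refine (abs_real_inner_le_norm _ _).trans ?_
          have e3 : ‖FM ρ M o y - vh ρ M o h‖ ≤ n2 / 2 := by
            refine (norm_FM_sub_le ρ M o _ _).trans ?_
            rw [dist_comm]; exact hh.2.le
          calc ‖FM ρ M o y - vh ρ M o h‖ * ‖FM ρ M o y‖ ≤ (n2 / 2) * 1 :=
                mul_le_mul e3 hn1 (norm_nonneg _) (by positivity)
            _ = n2 / 2 := mul_one _
        rw [abs_le] at e2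
        have e4 : n2 / 2 ≤ inner ℝ (vh ρ M o h) (FM ρ M o y) := by rw [e1]; linarith
        exact pow_le_pow_left₀ (by positivity) e4 2
      · rw [Set.indicator_of_notMem hh, mul_zero]
        exact sq_nonneg _
  rw [M.smul _ _ (bdd_ind _)] at h1
  have h2 := hpos (n2 / 2) (by positivity)
  have h3 : 0 < (n2 / 2) ^ 2 * M.m ((nearS ρ o y (n2 / 2)).indicator fun _ => 1) := by positivity
  exact lt_of_lt_of_le h3 h1

/-- (4.4) The covariance form is invariant. -/
theorem Theta_vh_inv {X0 : Set X} (h0 : IsMin ρ X0) (ho : o ∈ X0) {E : ℕ} (hE : 0 < E)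
    (hexp : ∀ g : H, g ^ E = 1) [Infinite H]
    (hpr : ∀ (o : X) (R : ℝ), {h : H | dist o (ρ h o) ≤ R}.Finite) (g : H) (a : HM M) :
    Theta M (vh ρ M o) (rep M g a) = Theta M (vh ρ M o) a := by
  apply Theta_inv M (rep M) (norm_vh_le ρ M o)
  intro g ε hε
  apply M.finite_null
  have h1 : ({h : H | dist o (ρ h o) ≤ 1}).Finite := hpr o 1
  have h2 : ({h : H | dist o (ρ (g * h) o) ≤ 1}).Finite := by
    have : {h : H | dist o (ρ (g * h) o) ≤ 1} = (fun h => g * h) ⁻¹' {h : H | dist o (ρ h o) ≤ 1} :=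
      rfl
    rw [this]
    exact h1.preimage (mul_right_injective g).injOn
  have h3 : ({h : H | dist o (ρ h o) ≤ 2 * dist o (ρ g o) / ε}).Finite := hpr o _
  refine ((h1.union h2).union h3).subset ?_
  intro h hh
  by_contra hcon
  simp only [Set.mem_union, Set.mem_ofPred_eq, not_or, not_le] at hcon
  obtain ⟨⟨c1, c2⟩, c3⟩ := hcon
  have h4 := norm_rep_vh_sub_le ρ M o h0 ho hE hexp c1.le c2.le
  have h5 : ε < 2 * dist o (ρ g o) / dist o (ρ h o) := lt_of_lt_of_le hh h4
  have p1 : 0 < dist o (ρ h o) := by linarith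
  rw [lt_div_iff₀ p1] at h5
  rw [div_lt_iff₀ hε] at c3
  linarith

include M in
/-- (4.6)-(4.8) The contradiction on a minimal set. -/
theorem core_min [ProperSpace X] [Infinite H] {X0 : Set X} (h0 : IsMin ρ X0) {E : ℕ} (hE : 0 < E)
    (hexp : ∀ g : H, g ^ E = 1)
    (hpr : ∀ (o : X) (R : ℝ), {h : H | dist o (ρ h o) ≤ R}.Finite) : False := by
  classical
  obtain ⟨o, ho⟩ := h0.ne
  have hv := norm_vh_le ρ M o
  have hK : IsCompact (FM ρ M o '' (X0 ∩ closedBall o 1)) :=
    ((isCompact_closedBall o 1).inter_left h0.closed).image (continuous_FM ρ M o)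
  have hvK : ∀ h, vh ρ M o h ∈ FM ρ M o '' (X0 ∩ closedBall o 1) := fun h =>
    ⟨xh ρ o h, ⟨xh_mem ρ o h0 ho h, by rw [mem_closedBall, dist_comm]; exact dist_xh_le ρ o h⟩, rfl⟩
  obtain ⟨lam, V, hlam, hVfin, hVne, hVinv, hVT⟩ := exists_eig M (rep M) hv hK hvK
    (Theta_vh_inv ρ M o h0 ho hE hexp hpr) (exists_Theta_ne ρ M o hpr)
  -- the restricted representation
  let pV : H →* (V ≃ₗᵢ[ℝ] V) :=
    { toFun := fun g =>
        { toFun := fun a => ⟨rep M g a, hVinv g a a.2⟩
          map_add' := fun a b => Subtype.ext (by simp)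
          map_smul' := fun c a => Subtype.ext (by simp)
          invFun := fun a => ⟨rep M g⁻¹ a, hVinv g⁻¹ a a.2⟩
          left_inv := fun a => Subtype.ext (by
            show rep M g⁻¹ (rep M g a) = a
            rw [map_inv]; exact (rep M g).symm_apply_apply _)
          right_inv := fun a => Subtype.ext (by
            show rep M g (rep M g⁻¹ a) = a
            rw [map_inv]; exact (rep M g).apply_symm_apply _)
          norm_map' := fun a => (rep M g).norm_map a }
      map_one' := by ext a; simp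
      map_mul' := fun g h => by ext a; simp }
  have hpV : ∀ g (a : V), ((pV g a : V) : HM M) = rep M g a := fun g a => rfl
  have hsub : ∀ w : HM M, w - (V.orthogonalProjectionOnto w : V) ∈ Vᗮ := fun w =>
    V.sub_starProjection_mem_orthogonal w
  -- the projection commutes with the representation
  have hcomm : ∀ g w, V.orthogonalProjectionOnto (rep M g w) = pV g (V.orthogonalProjectionOnto w) := by
    intro g w
    have h1 : rep M g w = rep M g (V.orthogonalProjectionOnto w : V) +
        rep M g (w - (V.orthogonalProjectionOnto w : V)) := by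
      rw [← map_add]; congr 1; abel
    have h2 : rep M g (w - (V.orthogonalProjectionOnto w : V)) ∈ Vᗮ := by
      rw [Submodule.mem_orthogonal]
      intro u hu
      have h3 : u = rep M g (rep M g⁻¹ u) := by
        rw [map_inv]; exact ((rep M g).apply_symm_apply _).symm
      rw [h3, (rep M g).inner_map_map]
      have h4 : w - (V.orthogonalProjectionOnto w : V) ∈ Vᗮ := hsub w
      exact (Submodule.mem_orthogonal V _).mp h4 _ (hVinv g⁻¹ u hu)
    rw [h1, map_add, Submodule.orthogonalProjectionOnto_apply_of_mem_orthogonal h2,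
      add_zero, ← hpV]
    exact Submodule.orthogonalProjectionOnto_mem_subspace_eq_self _
  let q : X → V := fun x => V.orthogonalProjectionOnto (FM ρ M o x)
  have hqrho : ∀ g x, q (ρ g x) = pV g (q x) + q (ρ g o) := by
    intro g x
    show V.orthogonalProjectionOnto (FM ρ M o (ρ g x)) = _
    rw [FM_rho, map_add, hcomm]
  have hqaff : ∀ x ∈ X0, ∀ y ∈ X0, ∀ t : ℝ, 0 ≤ t → t ≤ 1 →
      q (pt x y t) = (1 - t) • q x + t • q y := by
    intro x hx y hy t ht0 ht1
    show V.orthogonalProjectionOnto (FM ρ M o (pt x y t)) = _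
    rw [FM_affine ρ M o h0 ho hE hexp hx hy ht0 ht1, map_add, map_smul, map_smul]
  have hqcont : Continuous q := V.orthogonalProjectionOnto.continuous.comp (continuous_FM ρ M o)
  -- fixed point
  obtain ⟨w0, hw0⟩ := fixed_point pV (fun g => q (ρ g o)) (fun g h => by
    rw [rho_mul, hqrho]) hE hexp
  -- the distance to the fixed point is constant
  have hconst := h0.const (fun x => ‖q x - w0‖) (by fun_prop) (by
    intro x hx y hy t ht0 ht1
    show ‖q (pt x y t) - w0‖ ≤ (1 - t) * ‖q x - w0‖ + t * ‖q y - w0‖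
    rw [hqaff x hx y hy t ht0 ht1]
    have h1 : (1 - t) • q x + t • q y - w0 = (1 - t) • (q x - w0) + t • (q y - w0) := by module
    rw [h1]
    refine (norm_add_le _ _).trans ?_
    rw [norm_smul, norm_smul, Real.norm_eq_abs, Real.norm_eq_abs, abs_of_nonneg ht0,
      abs_of_nonneg (by linarith : (0 : ℝ) ≤ 1 - t)]) (by
    intro g x _
    show ‖q (ρ g x) - w0‖ = ‖q x - w0‖
    rw [hqrho]
    have h1 : pV g (q x) + q (ρ g o) - w0 = pV g (q x - w0) := by
      rw [map_sub]
      nth_rewrite 1 [← hw0 g]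
      abel
    rw [h1, (pV g).norm_map])
  have hqo : q o = 0 := by
    show V.orthogonalProjectionOnto (FM ρ M o o) = 0
    rw [FM_o, map_zero]
  have hq0 : ∀ x ∈ X0, q x = 0 := by
    intro x hx
    have hm : pt x o (1 / 2) ∈ X0 := h0.conv x hx o ho _ (by norm_num) (by norm_num)
    have e1 : ‖q x - w0‖ = ‖q o - w0‖ := hconst x hx o ho
    have e2 : ‖q (pt x o (1 / 2)) - w0‖ = ‖q o - w0‖ := hconst _ hm o ho
    rw [hqaff x hx o ho _ (by norm_num) (by norm_num)] at e2
    have e3 : (1 - (1 / 2 : ℝ)) • q x + (1 / 2 : ℝ) • q o - w0 =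
        (1 / 2 : ℝ) • ((q x - w0) + (q o - w0)) := by module
    rw [e3, norm_smul] at e2
    have e4 := parallelogram_law_with_norm ℝ (q x - w0) (q o - w0)
    have e5 : q x - w0 - (q o - w0) = q x - q o := by abel
    rw [e5] at e4
    have e6 : ‖(q x - w0) + (q o - w0)‖ = 2 * ‖q o - w0‖ := by
      have : ‖(1 / 2 : ℝ)‖ = 1 / 2 := by norm_num
      rw [this] at e2
      linarith
    rw [e6, e1] at e4
    have e7 : ‖q x - q o‖ * ‖q x - q o‖ = 0 := by linarith
    have e8 : ‖q x - q o‖ = 0 := mul_self_eq_zero.mp e7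
    rw [norm_eq_zero, sub_eq_zero, hqo] at e8
    exact e8
  -- final contradiction
  obtain ⟨a, haV, ha0⟩ := V.ne_bot_iff.mp hVne
  have h1 : Theta M (vh ρ M o) a = 0 := by
    unfold Theta
    have h2 : ∀ h, inner ℝ (vh ρ M o h) a = 0 := by
      intro h
      have h3 : q (xh ρ o h) = 0 := hq0 _ (xh_mem ρ o h0 ho h)
      have h4 : vh ρ M o h ∈ Vᗮ := by
        have := hsub (FM ρ M o (xh ρ o h))
        have h5 : ((V.orthogonalProjectionOnto (FM ρ M o (xh ρ o h)) : V) : HM M) = 0 := by
          have : V.orthogonalProjectionOnto (FM ρ M o (xh ρ o h)) = 0 := h3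
          rw [this]; rfl
        rw [h5, sub_zero] at this
        exact this
      have := (Submodule.mem_orthogonal' V _).mp h4 a haV
      exact this
    have h3 : (fun h => (inner ℝ (vh ρ M o h) a : ℝ) ^ 2) = fun _ => 0 := by
      ext h; rw [h2 h]; norm_num
    rw [h3]; exact M.zero
  rw [hVT a haV] at h1
  have h2 : 0 < ‖a‖ := norm_pos_iff.mpr ha0
  have h3 : 0 < lam * ‖a‖ ^ 2 := by positivity
  linarith

end CTOR
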