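import Pool.Agent.CTOR.Defs

/-!
# CTOR A3: exponential growth of orbits, finite generation (1.2)
-/

namespace CTOR

open Metric Set

universe u v

variable {X : Type u} [MetricSpace X] [CN X] {G : Type v} [Group G]

omit [CN X] in
/-- The orbit of every point is coarsely dense. -/
theorem Geom.dense {ρ : G →* (X ≃ᵢ X)} (hG : Geom ρ) (o : X) :
    ∃ D : ℝ, 0 ≤ D ∧ ∀ x : X, ∃ g : G, dist x (ρ g o) ≤ D := by
  obtain ⟨o', D', h⟩ := hG.cobdd
  have key : ∀ x : X, ∃ g : G, dist x (ρ g o) ≤ D' + dist o' o := by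
    intro x
    obtain ⟨g, hg⟩ := h x
    refine ⟨g, ?_⟩
    have h1 := dist_triangle x (ρ g o') (ρ g o)
    rw [(ρ g).dist_eq] at h1
    linarith
  refine ⟨D' + dist o' o, ?_, key⟩
  obtain ⟨g, hg⟩ := key o
  exact dist_nonneg.trans hg

/-- Along a geodesic: if `dist o (ρ g o) ≤ n` then `g` is a product of `n + 1` elements of the finite
set `T = {g | dist o (ρ g o) ≤ 2 D + 1}` (`D` such that the orbit of `o` is `D`-dense; move the base
point with the triangle inequality). Proof: induction on `n`, for all `g`: for `n = 0` `g ∈ T`. Step: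
`d(o,go) ≤ n+1`; `y = pt o (ρ g o) t` with `d(o,y) ≤ n`, `d(y,ρ g o) ≤ 1`; choose `g'` with
`dist y (ρ g' o) ≤ D`. This makes `d(o,g'o) ≤ n + D`, so the induction has to be on the statement
'for every `y` with `dist o y ≤ n` and `dist y (ρ g o) ≤ D` there are `t_0..t_n ∈ T` with `g` their
product'. -/
theorem Geom.prod_of_le {ρ : G →* (X ≃ᵢ X)} (hG : Geom ρ) (o : X) :
    ∃ T : Set G, T.Finite ∧ 1 ∈ T ∧ ∀ (n : ℕ) (g : G), dist o (ρ g o) ≤ n →
      ∃ w : Fin (n + 1) → G, (∀ i, w i ∈ T) ∧ (List.ofFn w).prod = g := by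
  obtain ⟨D, hD0, hD⟩ := hG.dense o
  refine ⟨{g | dist o (ρ g o) ≤ 2 * D + 1}, hG.proper o _, ?_, ?_⟩
  · show dist o (ρ 1 o) ≤ 2 * D + 1
    simp only [map_one, IsometryEquiv.coe_one, id_eq, dist_self]
    linarith
  · have key : ∀ (n : ℕ) (y : X) (g : G), dist o y ≤ n → dist y (ρ g o) ≤ D →
        ∃ w : Fin (n + 1) → G, (∀ i, w i ∈ {g | dist o (ρ g o) ≤ 2 * D + 1}) ∧
          (List.ofFn w).prod = g := by
      intro n
      induction n with
      | zero =>
        intro y g hy hg
        refine ⟨fun _ => g, fun _ => ?_, by simp⟩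
        show dist o (ρ g o) ≤ 2 * D + 1
        have := dist_triangle o y (ρ g o)
        simp only [Nat.cast_zero] at hy
        linarith
      | succ n ih =>
        intro y g hy hg
        push_cast at hy
        have hn : (0 : ℝ) < (n : ℝ) + 1 := by positivity
        have t0 : (0 : ℝ) ≤ n / (n + 1) := by positivity
        have t1 : (n : ℝ) / (n + 1) ≤ 1 := by rw [div_le_one hn]; linarith
        have h1 : dist o (pt o y (n / (n + 1))) ≤ n := by
          rw [dist_left o y t0 t1, div_mul_eq_mul_div, div_le_iff₀ hn]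
          exact mul_le_mul_of_nonneg_left hy (Nat.cast_nonneg n)
        have h2 : dist (pt o y (n / (n + 1))) y ≤ 1 := by
          rw [dist_right o y t0 t1]
          have e : (1 : ℝ) - n / (n + 1) = 1 / (n + 1) := by field_simp; ring
          rw [e, div_mul_eq_mul_div, div_le_iff₀ hn]
          linarith
        obtain ⟨g', hg'⟩ := hD (pt o y (n / (n + 1)))
        obtain ⟨w, hw, hwp⟩ := ih _ g' h1 hg'
        refine ⟨Fin.snoc w (g'⁻¹ * g), ?_, ?_⟩
        · intro i
          refine Fin.lastCases ?_ (fun i => ?_) i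
          · rw [Fin.snoc_last]
            show dist o (ρ (g'⁻¹ * g) o) ≤ 2 * D + 1
            have e1 : ρ g' (ρ (g'⁻¹ * g) o) = ρ g o := by
              rw [← IsometryEquiv.mul_apply, ← map_mul]
              congr 2
              group
            have e2 : dist o (ρ (g'⁻¹ * g) o) = dist (ρ g' o) (ρ g o) := by
              rw [← e1, (ρ g').dist_eq]
            rw [e2]
            have h3 := dist_triangle (ρ g' o) (pt o y (n / (n + 1))) (ρ g o)
            have h4 := dist_triangle (pt o y (n / (n + 1))) y (ρ g o)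
            rw [dist_comm (ρ g' o) (pt o y (n / (n + 1)))] at h3
            linarith
          · rw [Fin.snoc_castSucc]
            exact hw i
        · rw [List.ofFn_succ', List.concat_eq_append, List.prod_append]
          simp only [Fin.snoc_castSucc, Fin.snoc_last, List.prod_singleton]
          rw [hwp]
          group
    intro n g hg
    exact key n (ρ g o) g hg (by rw [dist_self]; exact hD0)

/-- Exponential growth. From `Geom.prod_of_le`: `A = ncard T`. -/
theorem Geom.growth {ρ : G →* (X ≃ᵢ X)} (hG : Geom ρ) (o : X) :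
    ∃ A : ℕ, 1 ≤ A ∧ ∀ n : ℕ, {g : G | dist o (ρ g o) ≤ n}.ncard ≤ A ^ (n + 2) := by
  obtain ⟨T, hT, h1, hw⟩ := hG.prod_of_le o
  have hfin : Finite T := hT
  have hA : 1 ≤ T.ncard := by
    rw [Nat.one_le_iff_ne_zero, ← Nat.pos_iff_ne_zero, Set.ncard_pos hT]
    exact ⟨1, h1⟩
  refine ⟨T.ncard, hA, fun n => ?_⟩
  have hsub : {g : G | dist o (ρ g o) ≤ n} ⊆
      Set.range (fun w : Fin (n + 1) → T => (List.ofFn (fun i => (w i : G))).prod) := by
    intro g hg
    obtain ⟨w, hwT, hwp⟩ := hw n g hg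
    exact ⟨fun i => ⟨w i, hwT i⟩, hwp⟩
  calc {g : G | dist o (ρ g o) ≤ n}.ncard
      ≤ (Set.range (fun w : Fin (n + 1) → T => (List.ofFn (fun i => (w i : G))).prod)).ncard :=
        Set.ncard_le_ncard hsub (Set.finite_range _)
    _ ≤ Nat.card (Fin (n + 1) → T) := Finite.card_range_le _
    _ = T.ncard ^ (n + 1) := by rw [Nat.card_fun, Nat.card_fin]; rfl
    _ ≤ T.ncard ^ (n + 2) := Nat.pow_le_pow_right hA (by omega)

/-- A group with a geometric action is finitely generated. From `Geom.prod_of_le`. -/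
theorem Geom.fg {ρ : G →* (X ≃ᵢ X)} (hG : Geom ρ) : Group.FG G := by
  obtain ⟨o, -, -⟩ := hG.cobdd
  obtain ⟨T, hT, h1, hw⟩ := hG.prod_of_le o
  rw [Group.fg_iff]
  refine ⟨T, ?_, hT⟩
  rw [eq_top_iff]
  intro g _
  obtain ⟨n, hn⟩ := exists_nat_ge (dist o (ρ g o))
  obtain ⟨w, hwT, hwp⟩ := hw n g hn
  rw [← hwp]
  apply Subgroup.list_prod_mem
  intro x hx
  rw [List.mem_ofFn] at hx
  obtain ⟨i, rfl⟩ := hx
  exact Subgroup.subset_closure (hwT i)

end CTOR
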