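import Pool.Agent.CTOR.Amen
import Pool.Agent.CTOR.Core
import Pool.Agent.CTOR.Bound
import Pool.Agent.CTOR.Growth

/-!
# CTOR: the core theorem for geometric actions (owner: helper77)
-/

namespace CTOR

open Metric Set

universe u v

/-- **Core theorem.** A finitely generated torsion subgroup with finite centralizer is finite. -/
theorem Geom.core {G : Type v} [Group G] {X : Type u} [MetricSpace X] [CN X]
    [ProperSpace X] [Nonempty X] {ρ : G →* (X ≃ᵢ X)} (hG : Geom ρ) (H : Subgroup G)
    (hfg : H.FG) (ht : ∀ h ∈ H, IsOfFinOrder h)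
    (hc : Finite (Subgroup.centralizer (H : Set G))) : Finite H := by
  by_contra hinf
  have : Infinite H := not_finite_iff_infinite.1 hinf
  obtain ⟨S, hS⟩ := hfg
  have hSH : ∀ s ∈ S, s ∈ H := fun s hs => by
    rw [← hS]; exact Subgroup.subset_closure hs
  obtain ⟨E, hE, hexp⟩ := hG.bound_exp
  have hexp' : ∀ h : H, h ^ E = 1 := fun h => by
    ext; simpa using hexp h (ht h h.2)
  set ρH : H →* (X ≃ᵢ X) := ρ.comp H.subtype with hρH
  have happ : ∀ (h : H) (x : X), ρH h x = ρ (h : G) x := fun h x => rfl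
  have hpr : ∀ (o : X) (R : ℝ), {h : H | dist o (ρH h o) ≤ R}.Finite := fun o R => by
    have := (hG.proper o R).preimage (f := fun h : H => (h : G))
      (Subtype.val_injective.injOn)
    exact this
  obtain ⟨o⟩ := ‹Nonempty X›
  obtain ⟨A, hA, hgr⟩ := hG.growth o
  have hgr' : ∀ n : ℕ, {h : H | dist o (ρH h o) ≤ n}.ncard ≤ A ^ (n + 2) := fun n => by
    refine le_trans ?_ (hgr n)
    have h1 : ((fun h : H => (h : G)) '' {h : H | dist o (ρH h o) ≤ n}).ncard =
        {h : H | dist o (ρH h o) ≤ n}.ncard :=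
      Set.ncard_image_of_injective _ Subtype.val_injective
    rw [← h1]
    apply Set.ncard_le_ncard _ (hG.proper o n)
    rintro g ⟨h, hh, rfl⟩
    exact hh
  have hfgH : Group.FG H := (Group.fg_iff_subgroup_fg H).2 ⟨S, hS⟩
  obtain ⟨M⟩ := exists_invMean ρH hfgH E hE hexp' o (fun n => hpr o n) A hA hgr'
  have hcS : Finite (Subgroup.centralizer (S : Set G)) := by
    have h1 : Subgroup.centralizer (S : Set G) = Subgroup.centralizer (H : Set G) := by
      rw [← hS, Subgroup.centralizer_closure]
    rw [h1]; exact hc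
  have : Nonempty X := ⟨o⟩
  refine core_false ρH M E hE hexp' hpr (S := (fun h : H => (h : G)) ⁻¹' (S : Set G))
    (S.finite_toSet.preimage Subtype.val_injective.injOn) (fun c => ?_)
  refine (hG.bdd_Xc S.finite_toSet hcS c).subset (fun x hx s hs => ?_)
  exact hx ⟨s, hSH s hs⟩ hs

end CTOR
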