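import Pool.Agent.CTOR.Basic

/-!
# CTOR, the common definitions (frozen interfaces of all blocks)

Isometric actions are monoid homomorphisms `ρ : G →* (X ≃ᵢ X)`.
-/

namespace CTOR

open Metric Set

universe u v

/-- Geometric action (metric form): metrically proper and cobounded.  For proper spaces this is
the same as properly discontinuous and cocompact. -/
structure Geom {G : Type v} [Group G] {X : Type u} [MetricSpace X] (ρ : G →* (X ≃ᵢ X)) : Prop where
  /-- finitely many elements move `o` by at most `R` -/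
  proper : ∀ (o : X) (R : ℝ), {g : G | dist o (ρ g o) ≤ R}.Finite
  /-- some orbit is `D`-dense -/
  cobdd : ∃ (o : X) (D : ℝ), ∀ x : X, ∃ g : G, dist x (ρ g o) ≤ D

/-- Points displaced by at most `c` by all elements of `S`. -/
def Xc {G : Type v} [Group G] {X : Type u} [MetricSpace X] (ρ : G →* (X ≃ᵢ X)) (S : Set G)
    (c : ℝ) : Set X := {x | ∀ s ∈ S, dist x (ρ s x) ≤ c}

/-- Restriction of an isometric action to an invariant subset. -/
noncomputable def restr {G : Type v} [Group G] {X : Type u} [MetricSpace X] (ρ : G →* (X ≃ᵢ X))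
    (A : Set X) (hA : ∀ g : G, ∀ x ∈ A, ρ g x ∈ A) : G →* (A ≃ᵢ A) where
  toFun g :=
    { toFun := fun x => ⟨ρ g x, hA g x x.2⟩
      invFun := fun x => ⟨ρ g⁻¹ x, hA g⁻¹ x x.2⟩
      left_inv := fun x => Subtype.ext (by simp)
      right_inv := fun x => Subtype.ext (by simp)
      isometry_toFun := fun x y => by
        simpa [Subtype.edist_eq] using (ρ g).isometry (x : X) (y : X) }
  map_one' := by ext x; simp
  map_mul' g h := by ext x; simp [IsometryEquiv.mul_apply]

@[simp] theorem restr_apply {G : Type v} [Group G] {X : Type u} [MetricSpace X]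
    (ρ : G →* (X ≃ᵢ X)) (A : Set X) (hA : ∀ g : G, ∀ x ∈ A, ρ g x ∈ A) (g : G) (x : A) :
    ((restr ρ A hA g x : A) : X) = ρ g x := rfl

/-- Octahedron number: `n` points at distance 1 from a common point and pairwise at distance
at least `√2`. -/
def Oct (n : ℕ) (X : Type u) [MetricSpace X] : Prop :=
  ∃ (p : X) (x : Fin n → X), (∀ i, dist p (x i) = 1) ∧ ∀ i j, i ≠ j → √2 ≤ dist (x i) (x j)

/-- Bounded real functions. -/
def Bdd {H : Type v} (f : H → ℝ) : Prop := ∃ C : ℝ, ∀ h, |f h| ≤ C

/-- An invariant mean on the bounded real functions on the group `H` (values of `m` on unbounded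
functions are junk). -/
structure InvMean (H : Type v) [Group H] where
  /-- the mean -/
  m : (H → ℝ) → ℝ
  add : ∀ f g, Bdd f → Bdd g → m (fun h => f h + g h) = m f + m g
  smul : ∀ (c : ℝ) f, Bdd f → m (fun h => c * f h) = c * m f
  nonneg : ∀ f, Bdd f → (∀ h, 0 ≤ f h) → 0 ≤ m f
  one : m (fun _ => 1) = 1
  inv : ∀ (g : H) f, Bdd f → m (fun h => f (g⁻¹ * h)) = m f

/-- The Busemann type cocycle `b_h(x) = d(x,ho) - d(o,ho)`. -/
noncomputable def bus {H : Type v} [Group H] {X : Type u} [MetricSpace X] (ρ : H →* (X ≃ᵢ X))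
    (o : X) (h : H) (x : X) : ℝ := dist x (ρ h o) - dist o (ρ h o)

/-- `X0` is a minimal nonempty closed convex `H`-invariant set. -/
structure IsMin {H : Type v} [Group H] {X : Type u} [MetricSpace X] [CN X] (ρ : H →* (X ≃ᵢ X))
    (X0 : Set X) : Prop where
  ne : X0.Nonempty
  closed : IsClosed X0
  conv : GConv X0
  inv : ∀ g : H, ∀ x ∈ X0, ρ g x ∈ X0
  min : ∀ Y ⊆ X0, Y.Nonempty → IsClosed Y → GConv Y → (∀ g : H, ∀ x ∈ Y, ρ g x ∈ Y) → Y = X0

end CTOR
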