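import Pool.Agent.CTOR.MeanHilb

/-!
# CTOR, block D: the covariance form of a compact family and its top eigenspace (step 4.6)
-/

namespace CTOR

open Metric Set

variable {H : Type*} [Group H] (M : InvMean H) {W : Type*} [NormedAddCommGroup W]
  [InnerProductSpace ℝ W]

/-- The covariance bilinear form. -/
noncomputable def tauF (v : H → W) (a b : W) : ℝ :=
  M.m (fun h => inner ℝ (v h) a * inner ℝ (v h) b)

/-- The covariance form. -/
noncomputable def Theta (v : H → W) (a : W) : ℝ := M.m (fun h => (inner ℝ (v h) a) ^ 2)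

section basic
variable {v : H → W} (hv : ∀ h, ‖v h‖ ≤ 1)
include hv

omit [Group H] in
theorem abs_inner_v_le (a : W) (h : H) : |inner ℝ (v h) a| ≤ ‖a‖ := by
  refine (abs_real_inner_le_norm _ _).trans ?_
  have := mul_le_mul_of_nonneg_right (hv h) (norm_nonneg a)
  linarith

theorem bdd_inner (a : W) : Bdd (fun h => inner ℝ (v h) a) := ⟨‖a‖, abs_inner_v_le hv a⟩

theorem tauF_add_left (a b c : W) : tauF M v (a + b) c = tauF M v a c + tauF M v b c := by
  unfold tauF
  rw [← M.add _ _ ((bdd_inner hv a).mul (bdd_inner hv c)) ((bdd_inner hv b).mul (bdd_inner hv c))]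
  congr 1; ext h; rw [inner_add_right]; ring

theorem tauF_smul_left (t : ℝ) (a c : W) : tauF M v (t • a) c = t * tauF M v a c := by
  unfold tauF
  rw [← M.smul _ _ ((bdd_inner hv a).mul (bdd_inner hv c))]
  congr 1; ext h; rw [real_inner_smul_right]; ring

omit hv in
theorem tauF_comm (a b : W) : tauF M v a b = tauF M v b a := by
  unfold tauF
  congr 1; ext h; ring

theorem tauF_add_right (a b c : W) : tauF M v a (b + c) = tauF M v a b + tauF M v a c := by
  rw [tauF_comm, tauF_add_left M hv, tauF_comm M b, tauF_comm M c]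

theorem tauF_smul_right (t : ℝ) (a c : W) : tauF M v a (t • c) = t * tauF M v a c := by
  rw [tauF_comm, tauF_smul_left M hv, tauF_comm M c]

omit hv in
theorem tauF_self (a : W) : tauF M v a a = Theta M v a := by
  unfold tauF Theta
  congr 1; ext h; ring

theorem Theta_add_smul (a b : W) (t : ℝ) :
    Theta M v (a + t • b) = Theta M v a + 2 * t * tauF M v a b + t ^ 2 * Theta M v b := by
  rw [← tauF_self, ← tauF_self, ← tauF_self, tauF_add_left M hv, tauF_add_right M hv,
    tauF_add_right M hv, tauF_smul_left M hv, tauF_smul_right M hv, tauF_smul_left M hv,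
    tauF_smul_right M hv, tauF_comm M b a]
  ring

theorem Theta_smul (t : ℝ) (a : W) : Theta M v (t • a) = t ^ 2 * Theta M v a := by
  rw [← tauF_self, ← tauF_self, tauF_smul_left M hv, tauF_smul_right M hv]
  ring

theorem Theta_nonneg (a : W) : 0 ≤ Theta M v a :=
  M.nonneg _ (bdd_inner hv a).sq fun _ => sq_nonneg _

theorem Theta_le (a : W) : Theta M v a ≤ ‖a‖ ^ 2 := by
  have := M.mono (bdd_inner hv a).sq (bdd_const (‖a‖ ^ 2)) fun h =>
    sq_le_sq' (abs_le.mp (abs_inner_v_le hv a h)).1 (abs_le.mp (abs_inner_v_le hv a h)).2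
  rwa [M.const] at this

/-- The difference of the covariance forms in terms of the sup distance on a set with values of
`v`. -/
theorem abs_Theta_sub_le {a b : W} {δ : ℝ} (ha : ‖a‖ ≤ 1) (hb : ‖b‖ ≤ 1)
    (hd : ∀ h, |inner ℝ (v h) a - inner ℝ (v h) b| ≤ δ) :
    |Theta M v a - Theta M v b| ≤ 2 * δ := by
  unfold Theta
  rw [← M.sub (bdd_inner hv a).sq (bdd_inner hv b).sq]
  apply M.abs_le
  intro h
  have h1 : (inner ℝ (v h) a) ^ 2 - (inner ℝ (v h) b) ^ 2 =
      (inner ℝ (v h) a - inner ℝ (v h) b) * (inner ℝ (v h) a + inner ℝ (v h) b) := by ring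
  rw [h1, abs_mul]
  have h2 : |inner ℝ (v h) a + inner ℝ (v h) b| ≤ 2 := by
    refine (abs_add_le _ _).trans ?_
    have := abs_inner_v_le hv a h
    have := abs_inner_v_le hv b h
    linarith
  have h3 := hd h
  have h4 : 0 ≤ δ := (abs_nonneg _).trans h3
  calc |inner ℝ (v h) a - inner ℝ (v h) b| * |inner ℝ (v h) a + inner ℝ (v h) b|
      ≤ δ * 2 := mul_le_mul h3 h2 (abs_nonneg _) h4
    _ = 2 * δ := by ring

end basic

/-- Approximate equivariance of `v` gives invariance of the covariance form. -/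
theorem Theta_inv (p : H →* (W ≃ₗᵢ[ℝ] W)) {v : H → W} (hv : ∀ h, ‖v h‖ ≤ 1)
    (happ : ∀ g : H, ∀ ε : ℝ, 0 < ε →
      M.m (({h | ε < ‖p g (v h) - v (g * h)‖} : Set H).indicator fun _ => 1) = 0)
    (g : H) (a : W) : Theta M v (p g a) = Theta M v a := by
  classical
  -- rewrite the left side with the invariance of the mean
  have h1 : Theta M v (p g a) = M.m (fun h => (inner ℝ (v (g * h)) (p g a)) ^ 2) := by
    have := M.inv g⁻¹ (fun h => (inner ℝ (v h) (p g a)) ^ 2) (bdd_inner hv _).sq
    rw [inv_inv] at this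
    exact this.symm
  have hb2 : Bdd (fun h => (inner ℝ (v (g * h)) (p g a)) ^ 2) :=
    (bdd_inner hv (p g a)).sq.comp (fun h => g * h)
  have hkey : ∀ ε : ℝ, 0 < ε → |Theta M v (p g a) - Theta M v a| ≤ 2 * ε * ‖a‖ ^ 2 := by
    intro ε hε
    set A : Set H := {h | ε < ‖p g (v h) - v (g * h)‖} with hA
    set f : H → ℝ := fun h => (inner ℝ (v (g * h)) (p g a)) ^ 2 - (inner ℝ (v h) a) ^ 2 with hf
    have hbf : Bdd f := hb2.sub (bdd_inner hv a).sq
    have hfm : M.m f = Theta M v (p g a) - Theta M v a := by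
      rw [h1]; exact M.sub hb2 (bdd_inner hv a).sq
    -- split `f`
    set f1 : H → ℝ := fun h => if h ∈ A then f h else 0 with hf1
    set f2 : H → ℝ := fun h => if h ∈ A then 0 else f h with hf2
    obtain ⟨C, hC⟩ := hbf
    have hC0 : 0 ≤ C := (abs_nonneg _).trans (hC 1)
    have hb1 : Bdd f1 := ⟨C, fun h => by
      by_cases hh : h ∈ A
      · simpa [hf1, hh] using hC h
      · simpa [hf1, hh] using hC0⟩
    have h2 : ∀ h, |f2 h| ≤ 2 * ε * ‖a‖ ^ 2 := by
      intro h
      by_cases hh : h ∈ A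
      · simp only [hf2, hh, if_true, abs_zero]; positivity
      · simp only [hf2, hh, if_false, hf]
        have h3 : ‖p g (v h) - v (g * h)‖ ≤ ε := not_lt.mp hh
        have h4 : inner ℝ (v h) a = inner ℝ (p g (v h)) (p g a) :=
          ((p g).inner_map_map _ _).symm
        have h5 : (inner ℝ (v (g * h)) (p g a)) ^ 2 - (inner ℝ (v h) a) ^ 2 =
            inner ℝ (v (g * h) - p g (v h)) (p g a) *
              (inner ℝ (v (g * h)) (p g a) + inner ℝ (v h) a) := by
          rw [h4, inner_sub_left]; ring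
        rw [h5, abs_mul]
        have h6 : |inner ℝ (v (g * h) - p g (v h)) (p g a)| ≤ ε * ‖a‖ := by
          refine (abs_real_inner_le_norm _ _).trans ?_
          rw [norm_sub_rev, (p g).norm_map]
          exact mul_le_mul_of_nonneg_right h3 (norm_nonneg _)
        have h7 : |inner ℝ (v (g * h)) (p g a) + inner ℝ (v h) a| ≤ 2 * ‖a‖ := by
          refine (abs_add_le _ _).trans ?_
          have h8 := abs_inner_v_le hv (p g a) (g * h)
          rw [(p g).norm_map] at h8
          have h9 := abs_inner_v_le hv a h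
          linarith
        calc _ ≤ (ε * ‖a‖) * (2 * ‖a‖) := mul_le_mul h6 h7 (abs_nonneg _) (by positivity)
          _ = 2 * ε * ‖a‖ ^ 2 := by ring
    have hb2' : Bdd f2 := ⟨_, h2⟩
    have hsum : M.m f = M.m f1 + M.m f2 := by
      rw [← M.add f1 f2 hb1 hb2']
      congr 1; ext h
      by_cases hh : h ∈ A <;> simp [hf1, hf2, hh]
    have hz : M.m f1 = 0 := M.eq_zero_of_null hb1 (happ g ε hε) fun h hh => by
      simp only [hf1]; rw [if_neg hh]
    rw [← hfm, hsum, hz, zero_add]
    exact M.abs_le h2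
  by_contra hne
  have hpos : 0 < |Theta M v (p g a) - Theta M v a| := abs_pos.mpr (sub_ne_zero.mpr hne)
  have hq : 0 < 2 * ‖a‖ ^ 2 + 1 := by positivity
  have := hkey (|Theta M v (p g a) - Theta M v a| / (2 * ‖a‖ ^ 2 + 1)) (by positivity)
  have h8 : 2 * (|Theta M v (p g a) - Theta M v a| / (2 * ‖a‖ ^ 2 + 1)) * ‖a‖ ^ 2 =
      |Theta M v (p g a) - Theta M v a| * (2 * ‖a‖ ^ 2) / (2 * ‖a‖ ^ 2 + 1) := by ring
  rw [h8, le_div_iff₀ hq] at this
  nlinarith

/-- The covariance form attains its maximum on the unit ball. -/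
theorem exists_max [CompleteSpace W] {v : H → W} (hv : ∀ h, ‖v h‖ ≤ 1) {K : Set W}
    (hK : IsCompact K) (hvK : ∀ h, v h ∈ K) :
    ∃ a : W, ‖a‖ ≤ 1 ∧ ∀ b : W, ‖b‖ ≤ 1 → Theta M v b ≤ Theta M v a := by
  classical
  set B : Set (WeakDual ℝ W) := WeakDual.toStrongDual ⁻¹' closedBall (0 : StrongDual ℝ W) 1 with hB
  have hBc : IsCompact B := WeakDual.isCompact_closedBall (𝕜 := ℝ) 0 1
  -- Riesz
  let r : WeakDual ℝ W → W := fun l => (InnerProductSpace.toDual ℝ W).symm (WeakDual.toStrongDual l)
  have hr : ∀ l x, inner ℝ x (r l) = l x := by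
    intro l x
    rw [real_inner_comm]
    exact InnerProductSpace.toDual_symm_apply
  have hrn : ∀ l, ‖r l‖ = ‖WeakDual.toStrongDual l‖ := fun l => by
    simp only [r, LinearIsometryEquiv.norm_map]
  have hrB : ∀ l ∈ B, ‖r l‖ ≤ 1 := fun l hl => by
    rw [hrn]
    simpa [hB] using hl
  have hcont : ContinuousOn (fun l => Theta M v (r l)) B := by
    intro l hl
    rw [ContinuousWithinAt, Metric.tendsto_nhds]
    intro ε hε
    -- a finite net
    obtain ⟨t, htK, htf, hcov⟩ := hK.finite_cover_balls (e := ε / 16) (by positivity)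
    have hev : ∀ᶠ l' in nhdsWithin l B, ∀ x ∈ t, |l' x - l x| < ε / 16 := by
      apply (Set.Finite.eventually_all htf).mpr
      intro x _
      have hc : Continuous fun l' : WeakDual ℝ W => l' x := WeakDual.eval_continuous x
      have := (hc.tendsto l).mono_left (nhdsWithin_le_nhds (s := B))
      rw [Metric.tendsto_nhds] at this
      filter_upwards [this (ε / 16) (by positivity)] with l' hl'
      rwa [Real.dist_eq] at hl'
    filter_upwards [hev, self_mem_nhdsWithin] with l' hl' hl'B
    rw [Real.dist_eq]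
    refine lt_of_le_of_lt (abs_Theta_sub_le M hv (hrB l' hl'B) (hrB l hl)
      (δ := 3 * (ε / 16)) ?_) (by linarith)
    intro h
    obtain ⟨x, hxt, hx⟩ := Set.mem_iUnion₂.mp (hcov (hvK h))
    rw [mem_ball, dist_eq_norm] at hx
    have h1 : inner ℝ (v h) (r l') - inner ℝ (v h) (r l) =
        inner ℝ (v h - x) (r l') + (l' x - l x) - inner ℝ (v h - x) (r l) := by
      rw [inner_sub_left, inner_sub_left, hr l' x, hr l x]; ring
    rw [h1]
    have h2 : |inner ℝ (v h - x) (r l')| ≤ ε / 16 := by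
      refine (abs_real_inner_le_norm _ _).trans ?_
      have := hrB l' hl'B
      nlinarith [norm_nonneg (v h - x), norm_nonneg (r l')]
    have h3 : |inner ℝ (v h - x) (r l)| ≤ ε / 16 := by
      refine (abs_real_inner_le_norm _ _).trans ?_
      have := hrB l hl
      nlinarith [norm_nonneg (v h - x), norm_nonneg (r l)]
    have h4 := hl' x hxt
    rw [abs_le] at h2 h3 ⊢
    rw [abs_lt] at h4
    constructor <;> linarith
  have hne : B.Nonempty := ⟨0, by simp [hB]⟩
  obtain ⟨l, hl, hmax⟩ := hBc.exists_isMaxOn hne hcont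
  refine ⟨r l, hrB l hl, fun b hb => ?_⟩
  set lb : WeakDual ℝ W := StrongDual.toWeakDual (InnerProductSpace.toDual ℝ W b) with hlb
  have hrb : r lb = b := by
    simp only [r, hlb]
    exact (InnerProductSpace.toDual ℝ W).symm_apply_apply b
  have hlbB : lb ∈ B := by
    rw [hB, Set.mem_preimage, mem_closedBall_zero_iff, ← hrn, hrb]
    exact hb
  have := hmax hlbB
  simpa [hrb] using this

/-- The top eigenspace of the covariance form. -/
theorem exists_eig [CompleteSpace W] (p : H →* (W ≃ₗᵢ[ℝ] W)) {v : H → W} (hv : ∀ h, ‖v h‖ ≤ 1)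
    {K : Set W} (hK : IsCompact K) (hvK : ∀ h, v h ∈ K)
    (hinv : ∀ g a, Theta M v (p g a) = Theta M v a) (hne : ∃ a, Theta M v a ≠ 0) :
    ∃ (lam : ℝ) (V : Submodule ℝ W), 0 < lam ∧ FiniteDimensional ℝ V ∧ V ≠ ⊥ ∧
      (∀ g, ∀ a ∈ V, p g a ∈ V) ∧ ∀ a ∈ V, Theta M v a = lam * ‖a‖ ^ 2 := by
  classical
  obtain ⟨a0, ha0, hmax⟩ := exists_max M hv hK hvK
  set lam : ℝ := Theta M v a0 with hlam
  -- `Theta a ≤ lam ‖a‖²`
  have hle : ∀ a, Theta M v a ≤ lam * ‖a‖ ^ 2 := by
    intro a
    by_cases ha : a = 0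
    · subst ha
      have : Theta M v (0 : W) = 0 := by
        have := Theta_smul M hv 0 (0 : W)
        simpa using this
      rw [this]; simp
    · have hn : 0 < ‖a‖ := norm_pos_iff.mpr ha
      have h1 := hmax (‖a‖⁻¹ • a) (by rw [norm_smul, norm_inv, norm_norm, inv_mul_cancel₀ hn.ne'])
      rw [Theta_smul M hv, inv_pow, inv_mul_le_iff₀ (by positivity)] at h1
      linarith
  have hlam0 : 0 < lam := by
    obtain ⟨a, ha⟩ := hne
    have h1 := Theta_nonneg M hv a
    have h2 : 0 < Theta M v a := lt_of_le_of_ne h1 (Ne.symm ha)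
    have h3 := hle a
    by_contra hc
    push Not at hc
    have : lam * ‖a‖ ^ 2 ≤ 0 := mul_nonpos_of_nonpos_of_nonneg hc (sq_nonneg _)
    linarith
  have ha0n : ‖a0‖ ^ 2 = 1 := by
    have h1 := hle a0
    have h2 : ‖a0‖ ^ 2 ≤ 1 := by nlinarith [norm_nonneg a0]
    nlinarith
  let V : Submodule ℝ W :=
    { carrier := {a | ∀ b, tauF M v a b = lam * inner ℝ a b}
      add_mem' := by
        intro a b ha hb c
        rw [tauF_add_left M hv, ha c, hb c, inner_add_left]; ring
      zero_mem' := by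
        intro c
        have := tauF_smul_left M hv 0 (0 : W) c
        simpa using this
      smul_mem' := by
        intro t a ha c
        rw [tauF_smul_left M hv, ha c, real_inner_smul_left]; ring }
  have hV : ∀ a, a ∈ V ↔ ∀ b, tauF M v a b = lam * inner ℝ a b := fun a => Iff.rfl
  have hVT : ∀ a ∈ V, Theta M v a = lam * ‖a‖ ^ 2 := by
    intro a ha
    rw [← tauF_self, (hV a).mp ha a, real_inner_self_eq_norm_sq]
  have ha0V : a0 ∈ V := by
    rw [hV]
    intro b
    -- for all t : 2 t (tau - lam <,>) ≤ t² (lam ‖b‖² - Theta b)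
    have h1 : ∀ t : ℝ, 2 * t * (tauF M v a0 b - lam * inner ℝ a0 b) ≤
        t ^ 2 * (lam * ‖b‖ ^ 2 - Theta M v b) := by
      intro t
      have h2 := hle (a0 + t • b)
      rw [Theta_add_smul M hv] at h2
      have h3 : ‖a0 + t • b‖ ^ 2 = ‖a0‖ ^ 2 + 2 * (t * inner ℝ a0 b) + t ^ 2 * ‖b‖ ^ 2 := by
        rw [@norm_add_sq_real, real_inner_smul_right, norm_smul, mul_pow, Real.norm_eq_abs, sq_abs]
      rw [h3, ha0n] at h2
      nlinarith
    set d : ℝ := tauF M v a0 b - lam * inner ℝ a0 b with hd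
    set c : ℝ := lam * ‖b‖ ^ 2 - Theta M v b with hc
    have hc0 : 0 ≤ c := by have := hle b; rw [hc]; linarith
    by_contra hne'
    have hd0 : d ≠ 0 := fun h => hne' (by rw [hd] at h; linarith)
    have h4 := h1 (d / (c + 1))
    have h5 : 0 < c + 1 := by linarith
    have h6 : 2 * (d / (c + 1)) * d = 2 * (d ^ 2 / (c + 1)) := by ring
    have h7 : (d / (c + 1)) ^ 2 * c = (d ^ 2 / (c + 1)) * (c / (c + 1)) := by
      field_simp
    rw [h6, h7] at h4
    have h8 : 0 < d ^ 2 / (c + 1) := by positivity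
    have h9 : c / (c + 1) ≤ 1 := by rw [div_le_one h5]; linarith
    nlinarith
  have hVinv : ∀ g, ∀ a ∈ V, p g a ∈ V := by
    intro g a ha
    rw [hV]
    intro b
    -- polarization
    have hpol : ∀ x y, tauF M v (p g x) (p g y) = tauF M v x y := by
      intro x y
      have h1 := Theta_add_smul M hv (p g x) (p g y) 1
      have h2 := Theta_add_smul M hv x y 1
      rw [one_smul, ← map_add, hinv, hinv, hinv] at h1
      rw [one_smul] at h2
      linarith
    have h1 : b = p g ((p g).symm b) := ((p g).apply_symm_apply b).symm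
    rw [h1, hpol, (hV a).mp ha, (p g).inner_map_map]
  refine ⟨lam, V, hlam0, ?_, ?_, hVinv, hVT⟩
  · -- finite dimensional
    by_contra hfin
    have hrk : Cardinal.aleph0 ≤ Module.rank ℝ V := by
      by_contra h
      push Not at h
      exact hfin (Module.rank_lt_aleph0_iff.mp h)
    obtain ⟨N, hN⟩ := exists_nat_gt (1 / lam)
    obtain ⟨s, hs, hlin⟩ := exists_finset_linearIndependent_of_le_rank (R := ℝ) (M := V) (n := N)
      ((Cardinal.natCast_lt_aleph0).le.trans hrk)
    set U : Submodule ℝ V := Submodule.span ℝ (s : Set V) with hU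
    have : FiniteDimensional ℝ U := FiniteDimensional.span_finset ℝ s
    have hfr : Module.finrank ℝ U = N := by
      rw [hU, finrank_span_finset_eq_card hlin, hs]
    let e := stdOrthonormalBasis ℝ U
    let e' : Fin (Module.finrank ℝ U) → W := fun i => ((e i : V) : W)
    have hon : Orthonormal ℝ e' := by
      have h1 := e.orthonormal
      rw [orthonormal_iff_ite] at h1 ⊢
      intro i j
      exact h1 i j
    have h1 : ∀ i, Theta M v (e' i) = lam := by
      intro i
      rw [hVT _ (e i : V).2]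
      have := hon.1 i
      show lam * ‖e' i‖ ^ 2 = lam
      rw [this]; ring
    have h2 : ∑ i, Theta M v (e' i) ≤ 1 := by
      have h3 := M.sum Finset.univ (f := fun (i : Fin (Module.finrank ℝ U)) (h : H) =>
        (inner ℝ (v h) (e' i)) ^ 2) fun i _ => (bdd_inner hv (e' i)).sq
      have h4 : ∑ i, Theta M v (e' i) =
          M.m (fun h => ∑ i, (inner ℝ (v h) (e' i)) ^ 2) := h3.symm
      rw [h4]
      have h5 := M.mono (Bdd.sum Finset.univ
        (f := fun (i : Fin (Module.finrank ℝ U)) (h : H) => (inner ℝ (v h) (e' i)) ^ 2)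
        fun i _ => (bdd_inner hv (e' i)).sq) (bdd_const 1) fun h => by
          have h6 := hon.sum_inner_products_le (x := v h) (s := Finset.univ)
          have h7 : ∀ i, ‖(inner ℝ (e' i) (v h) : ℝ)‖ ^ 2 = (inner ℝ (v h) (e' i)) ^ 2 := by
            intro i
            rw [Real.norm_eq_abs, sq_abs, real_inner_comm]
          simp only [h7] at h6
          have h8 : ‖v h‖ ^ 2 ≤ 1 := by
            have := hv h
            nlinarith [norm_nonneg (v h)]
          exact h6.trans h8
      rwa [M.one] at h5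
    rw [Finset.sum_congr rfl fun i _ => h1 i, Finset.sum_const, Finset.card_univ,
      Fintype.card_fin, hfr, nsmul_eq_mul] at h2
    rw [div_lt_iff₀ hlam0] at hN
    linarith
  · intro hbot
    have : a0 = 0 := by
      have := ha0V
      rw [hbot] at this
      exact (Submodule.mem_bot ℝ).mp this
    rw [this] at ha0n
    simp at ha0n

end CTOR
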