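import Pool.Agent.CTOR.MinSet
import Pool.Agent.CTOR.EigSp

/-!
# CTOR, block D: the Busemann type embedding (steps 4.2 - 4.5)
-/

namespace CTOR

open Metric Set

/-! ### Finite sets have mean zero -/

section finite
variable {H : Type*} [Group H] (M : InvMean H)

theorem bdd_ind {H : Type*} (A : Set H) : Bdd (A.indicator fun _ => (1 : ℝ)) := by
  classical
  refine bdd_of_le (a := 0) (b := 1) (fun h => ?_) fun h => ?_ <;>
  by_cases hh : h ∈ A <;> simp [hh]

theorem InvMean.ind_nonneg (A : Set H) : 0 ≤ M.m (A.indicator fun _ => 1) :=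
  M.nonneg _ (bdd_ind A) fun h => Set.indicator_nonneg (fun _ _ => zero_le_one) h

theorem InvMean.ind_mono {A B : Set H} (hAB : A ⊆ B) :
    M.m (A.indicator fun _ => 1) ≤ M.m (B.indicator fun _ => 1) :=
  M.mono (bdd_ind A) (bdd_ind B) fun h =>
    Set.indicator_le_indicator_of_subset hAB (fun _ => zero_le_one) h

theorem InvMean.ind_union_le (A B : Set H) :
    M.m ((A ∪ B).indicator fun _ => 1) ≤
      M.m (A.indicator fun _ => 1) + M.m (B.indicator fun _ => 1) := by
  classical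
  rw [← M.add _ _ (bdd_ind A) (bdd_ind B)]
  refine M.mono (bdd_ind _) ((bdd_ind A).add (bdd_ind B)) fun h => ?_
  by_cases hA : h ∈ A <;> by_cases hB : h ∈ B <;> simp [hA, hB]

theorem InvMean.singleton_null [Infinite H] (a : H) :
    M.m (({a} : Set H).indicator fun _ => 1) = 0 := by
  classical
  -- all points have the same mass
  have h1 : ∀ b : H, M.m (({b} : Set H).indicator fun _ => 1) =
      M.m (({1} : Set H).indicator fun _ => 1) := by
    intro b
    have := M.inv b (({1} : Set H).indicator fun _ => 1) (bdd_ind _)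
    rw [← this]
    congr 1
    ext h
    by_cases hb : h = b
    · subst hb; simp
    · have : b⁻¹ * h ≠ 1 := fun h' => hb (by rw [inv_mul_eq_one] at h'; exact h'.symm)
      simp [hb, this]
  rw [h1 a]
  set c := M.m (({1} : Set H).indicator fun _ => 1) with hc
  have hc0 : 0 ≤ c := M.ind_nonneg _
  by_contra hne
  have hpos : 0 < c := lt_of_le_of_ne hc0 (Ne.symm hne)
  obtain ⟨N, hN⟩ := exists_nat_gt (1 / c)
  obtain ⟨s, hs⟩ := Infinite.exists_subset_card_eq H N
  have h2 : M.m (fun h => ∑ i ∈ s, ({i} : Set H).indicator (fun _ => (1 : ℝ)) h) = N * c := by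
    rw [M.sum s (f := fun i => ({i} : Set H).indicator (fun _ => (1 : ℝ))) fun i _ => bdd_ind _,
      Finset.sum_congr rfl fun i _ => h1 i, Finset.sum_const, hs, nsmul_eq_mul]
  have h3 : M.m (fun h => ∑ i ∈ s, ({i} : Set H).indicator (fun _ => (1 : ℝ)) h) ≤ 1 := by
    have := M.mono (Bdd.sum s (f := fun i => ({i} : Set H).indicator (fun _ => (1 : ℝ)))
      fun i _ => bdd_ind _) (bdd_const 1) fun h => by
        show ∑ i ∈ s, ({i} : Set H).indicator (fun _ => (1 : ℝ)) h ≤ 1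
        by_cases hh : h ∈ s
        · rw [Finset.sum_eq_single h]
          · simp
          · intro b _ hb
            simp [Ne.symm hb]
          · intro h'; exact absurd hh h'
        · rw [Finset.sum_eq_zero]
          · exact zero_le_one
          · intro b hb
            have : h ≠ b := fun h' => hh (h' ▸ hb)
            simp [this]
    rwa [M.one] at this
  rw [h2] at h3
  rw [div_lt_iff₀ hpos] at hN
  linarith

theorem InvMean.finite_null [Infinite H] {A : Set H} (hA : A.Finite) :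
    M.m (A.indicator fun _ => 1) = 0 := by
  induction A, hA using Set.Finite.induction_on with
  | empty => simpa using M.zero
  | @insert a s _ _ ih =>
    apply le_antisymm _ (M.ind_nonneg _)
    rw [Set.insert_eq]
    refine (M.ind_union_le _ _).trans ?_
    rw [ih, M.singleton_null]; simp

end finite

universe u v

variable {X : Type u} [MetricSpace X] {H : Type v} [Group H] (ρ : H →* (X ≃ᵢ X)) (M : InvMean H)
  (o : X)

theorem rho_mul (g h : H) (x : X) : ρ (g * h) x = ρ g (ρ h x) := by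
  rw [map_mul]; rfl

theorem rho_one (x : X) : ρ 1 x = x := by
  rw [map_one]; rfl

theorem dist_rho (g : H) (x y : X) : dist (ρ g x) (ρ g y) = dist x y := (ρ g).dist_eq x y

theorem dist_rho_left (g : H) (x y : X) : dist (ρ g x) y = dist x (ρ g⁻¹ y) := by
  rw [← dist_rho ρ g⁻¹ (ρ g x) y, ← rho_mul, inv_mul_cancel, rho_one]

theorem abs_bus_le (h : H) (x : X) : |bus ρ o h x| ≤ dist x o := by
  unfold bus
  rw [abs_le]
  constructor
  · linarith [dist_triangle o x (ρ h o), dist_comm o x]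
  · linarith [dist_triangle x o (ρ h o)]

theorem bdd_bus (x : X) : Bdd (fun h => bus ρ o h x) := ⟨dist x o, fun h => abs_bus_le ρ o h x⟩

theorem bus_o (h : H) : bus ρ o h o = 0 := by simp [bus]

theorem abs_bus_sub_le (h : H) (x y : X) : |bus ρ o h x - bus ρ o h y| ≤ dist x y := by
  unfold bus
  rw [abs_le]
  constructor
  · linarith [dist_triangle y x (ρ h o), dist_comm x y]
  · linarith [dist_triangle x y (ρ h o)]

theorem bus_rho (g h : H) (x : X) :
    bus ρ o h (ρ g x) = bus ρ o (g⁻¹ * h) x + bus ρ o h (ρ g o) := by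
  unfold bus
  rw [rho_mul, dist_rho_left, dist_rho_left]
  ring

theorem bus_convex [CN X] (h : H) (x y : X) {t : ℝ} (h0 : 0 ≤ t) (h1 : t ≤ 1) :
    bus ρ o h (pt x y t) ≤ (1 - t) * bus ρ o h x + t * bus ρ o h y := by
  unfold bus
  have := dist_pt_le (ρ h o) x y h0 h1
  rw [dist_comm (ρ h o) (pt x y t), dist_comm (ρ h o) x, dist_comm (ρ h o) y] at this
  linarith

/-- The mean of the Busemann cocycles. -/
noncomputable def phiM (x : X) : ℝ := M.m (fun h => bus ρ o h x)

theorem phiM_o : phiM ρ M o o = 0 := by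
  unfold phiM
  simp only [bus_o]
  exact M.zero

theorem abs_phiM_sub_le (x y : X) : |phiM ρ M o x - phiM ρ M o y| ≤ dist x y := by
  unfold phiM
  rw [← M.sub (bdd_bus ρ o x) (bdd_bus ρ o y)]
  exact M.abs_le fun h => abs_bus_sub_le ρ o h x y

theorem phiM_convex [CN X] (x y : X) {t : ℝ} (h0 : 0 ≤ t) (h1 : t ≤ 1) :
    phiM ρ M o (pt x y t) ≤ (1 - t) * phiM ρ M o x + t * phiM ρ M o y := by
  unfold phiM
  rw [← M.smul _ _ (bdd_bus ρ o x), ← M.smul _ _ (bdd_bus ρ o y),
    ← M.add _ _ ((bdd_bus ρ o x).smul _) ((bdd_bus ρ o y).smul _)]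
  exact M.mono (bdd_bus ρ o _) (((bdd_bus ρ o x).smul _).add ((bdd_bus ρ o y).smul _))
    fun h => bus_convex ρ o h x y h0 h1

theorem phiM_rho (g : H) (x : X) : phiM ρ M o (ρ g x) = phiM ρ M o x + phiM ρ M o (ρ g o) := by
  unfold phiM
  have h1 := M.inv g (fun h => bus ρ o h x) (bdd_bus ρ o x)
  rw [← h1, ← M.add _ _ ((bdd_bus ρ o x).comp _) (bdd_bus ρ o _)]
  congr 1
  ext h
  exact bus_rho ρ o g h x

theorem phiM_orbit {E : ℕ} (hE : 0 < E) (hexp : ∀ g : H, g ^ E = 1) (g : H) :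
    phiM ρ M o (ρ g o) = 0 := by
  have h1 : ∀ n : ℕ, phiM ρ M o (ρ (g ^ n) o) = n * phiM ρ M o (ρ g o) := by
    intro n
    induction n with
    | zero => rw [pow_zero, rho_one, phiM_o]; simp
    | succ n ih =>
      rw [pow_succ', rho_mul, phiM_rho, ih]
      push_cast; ring
  have h2 := h1 E
  rw [hexp, rho_one, phiM_o] at h2
  have hE' : (E : ℝ) ≠ 0 := by exact_mod_cast hE.ne'
  exact (mul_eq_zero.mp h2.symm).resolve_left hE'

/-- (4.2) The mean of the Busemann cocycles vanishes on the minimal set. -/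
theorem phiM_zero [CN X] {X0 : Set X} (h0 : IsMin ρ X0) (ho : o ∈ X0) {E : ℕ} (hE : 0 < E)
    (hexp : ∀ g : H, g ^ E = 1) (x : X) (hx : x ∈ X0) : phiM ρ M o x = 0 := by
  rw [← phiM_o ρ M o]
  refine h0.const (phiM ρ M o) ?_ ?_ ?_ x hx o ho
  · have : LipschitzWith 1 (phiM ρ M o) := LipschitzWith.of_dist_le_mul fun x y => by
      rw [Real.dist_eq, NNReal.coe_one, one_mul]; exact abs_phiM_sub_le ρ M o x y
    exact this.continuous.continuousOn
  · intro x _ y _ t ht0 ht1
    exact phiM_convex ρ M o x y ht0 ht1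
  · intro g x _
    rw [phiM_rho, phiM_orbit ρ M o hE hexp, add_zero]

/-! ### The map to the Hilbert space (4.3) -/

/-- The map to the Hilbert space of the mean. -/
noncomputable def FM (x : X) : HM M := cls M (fun h => bus ρ o h x)

theorem FM_o : FM ρ M o o = 0 := by
  unfold FM
  simp only [bus_o]
  exact cls_zero M

theorem FM_sub (x y : X) : FM ρ M o x - FM ρ M o y = cls M (fun h => bus ρ o h x - bus ρ o h y) :=
  (cls_sub M (bdd_bus ρ o x) (bdd_bus ρ o y)).symm

theorem norm_FM_sub_le (x y : X) : ‖FM ρ M o x - FM ρ M o y‖ ≤ dist x y := by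
  rw [FM_sub]
  exact norm_cls_le M fun h => abs_bus_sub_le ρ o h x y

theorem norm_FM_le (x : X) : ‖FM ρ M o x‖ ≤ dist x o := by
  have := norm_FM_sub_le ρ M o x o
  rwa [FM_o, sub_zero] at this

theorem continuous_FM : Continuous (FM ρ M o) := by
  have : LipschitzWith 1 (FM ρ M o) := LipschitzWith.of_dist_le_mul fun x y => by
    rw [dist_eq_norm, NNReal.coe_one, one_mul]; exact norm_FM_sub_le ρ M o x y
  exact this.continuous

theorem FM_rho (g : H) (x : X) : FM ρ M o (ρ g x) = rep M g (FM ρ M o x) + FM ρ M o (ρ g o) := by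
  unfold FM
  rw [rep_cls M g (bdd_bus ρ o x), ← cls_add M ((bdd_bus ρ o x).comp _) (bdd_bus ρ o _)]
  congr 1
  ext h
  exact bus_rho ρ o g h x

/-- `F` is affine on the minimal set. -/
theorem FM_affine [CN X] {X0 : Set X} (h0 : IsMin ρ X0) (ho : o ∈ X0) {E : ℕ} (hE : 0 < E)
    (hexp : ∀ g : H, g ^ E = 1) {x y : X} (hx : x ∈ X0) (hy : y ∈ X0) {t : ℝ} (ht0 : 0 ≤ t)
    (ht1 : t ≤ 1) :
    FM ρ M o (pt x y t) = (1 - t) • FM ρ M o x + t • FM ρ M o y := by
  have hz : pt x y t ∈ X0 := h0.conv x hx y hy t ht0 ht1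
  have hb1 := (bdd_bus ρ o x).smul (1 - t)
  have hb2 := (bdd_bus ρ o y).smul t
  have hb3 := bdd_bus ρ o (pt x y t)
  have h1 : cls M (fun h => ((1 - t) * bus ρ o h x + t * bus ρ o h y) - bus ρ o h (pt x y t)) =
      0 := by
    apply cls_eq_zero M ((hb1.add hb2).sub hb3)
    · intro h
      have := bus_convex ρ o h x y ht0 ht1
      linarith
    · rw [M.sub (hb1.add hb2) hb3, M.add _ _ hb1 hb2, M.smul _ _ (bdd_bus ρ o x),
        M.smul _ _ (bdd_bus ρ o y)]
      have a1 := phiM_zero ρ M o h0 ho hE hexp x hx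
      have a2 := phiM_zero ρ M o h0 ho hE hexp y hy
      have a3 := phiM_zero ρ M o h0 ho hE hexp _ hz
      unfold phiM at a1 a2 a3
      rw [a1, a2, a3]; ring
  rw [cls_sub M (hb1.add hb2) hb3, cls_add M hb1 hb2, cls_smul M (bdd_bus ρ o x),
    cls_smul M (bdd_bus ρ o y), sub_eq_zero] at h1
  exact h1.symm

/-! ### The unit directions (4.4) -/

open Classical in
/-- The point at distance `1` from `o` on the way to `h o` (`o` itself if `h o` is too close). -/
noncomputable def xh [CN X] (h : H) : X :=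
  if 1 ≤ dist o (ρ h o) then pt o (ρ h o) (1 / dist o (ρ h o)) else o

theorem xh_mem [CN X] {X0 : Set X} (h0 : IsMin ρ X0) (ho : o ∈ X0) (h : H) : xh ρ o h ∈ X0 := by
  unfold xh
  split_ifs with hd
  · have : 0 < dist o (ρ h o) := lt_of_lt_of_le zero_lt_one hd
    exact h0.conv o ho _ (h0.inv h o ho) _ (by positivity) (by rw [div_le_one this]; exact hd)
  · exact ho

theorem dist_xh [CN X] {h : H} (hd : 1 ≤ dist o (ρ h o)) : dist o (xh ρ o h) = 1 := by
  unfold xh
  have : 0 < dist o (ρ h o) := lt_of_lt_of_le zero_lt_one hd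
  rw [if_pos hd, dist_left _ _ (by positivity) (by rw [div_le_one this]; exact hd)]
  field_simp

theorem dist_xh_le [CN X] (h : H) : dist o (xh ρ o h) ≤ 1 := by
  by_cases hd : 1 ≤ dist o (ρ h o)
  · exact (dist_xh ρ o hd).le
  · unfold xh
    rw [if_neg hd, dist_self]; exact zero_le_one

theorem bus_xh [CN X] {h : H} (hd : 1 ≤ dist o (ρ h o)) : bus ρ o h (xh ρ o h) = -1 := by
  unfold xh bus
  have : 0 < dist o (ρ h o) := lt_of_lt_of_le zero_lt_one hd
  rw [if_pos hd, dist_right _ _ (by positivity) (by rw [div_le_one this]; exact hd)]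
  field_simp
  ring

/-- The unit direction in the Hilbert space. -/
noncomputable def vh [CN X] (h : H) : HM M := FM ρ M o (xh ρ o h)

theorem norm_vh_le [CN X] (h : H) : ‖vh ρ M o h‖ ≤ 1 := by
  refine (norm_FM_le ρ M o _).trans ?_
  rw [dist_comm]; exact dist_xh_le ρ o h

theorem vh_eq [CN X] {X0 : Set X} (h0 : IsMin ρ X0) (ho : o ∈ X0) {E : ℕ} (hE : 0 < E)
    (hexp : ∀ g : H, g ^ E = 1) {h : H} (hd : 1 ≤ dist o (ρ h o)) :
    vh ρ M o h = (dist o (ρ h o))⁻¹ • FM ρ M o (ρ h o) := by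
  have : 0 < dist o (ρ h o) := lt_of_lt_of_le zero_lt_one hd
  unfold vh xh
  rw [if_pos hd, FM_affine ρ M o h0 ho hE hexp ho (h0.inv h o ho) (by positivity)
    (by rw [div_le_one this]; exact hd), FM_o, smul_zero, zero_add, one_div]

/-- Approximate equivariance. -/
theorem norm_rep_vh_sub_le [CN X] {X0 : Set X} (h0 : IsMin ρ X0) (ho : o ∈ X0) {E : ℕ}
    (hE : 0 < E) (hexp : ∀ g : H, g ^ E = 1) {g h : H} (hd : 1 ≤ dist o (ρ h o))
    (hgd : 1 ≤ dist o (ρ (g * h) o)) :
    ‖rep M g (vh ρ M o h) - vh ρ M o (g * h)‖ ≤ 2 * dist o (ρ g o) / dist o (ρ h o) := by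
  have p1 : 0 < dist o (ρ h o) := lt_of_lt_of_le zero_lt_one hd
  have p2 : 0 < dist o (ρ (g * h) o) := lt_of_lt_of_le zero_lt_one hgd
  set d := dist o (ρ h o) with hdd
  set d' := dist o (ρ (g * h) o) with hdd'
  rw [vh_eq ρ M o h0 ho hE hexp hd, vh_eq ρ M o h0 ho hE hexp hgd, ← hdd, ← hdd', map_smul]
  have h1 : rep M g (FM ρ M o (ρ h o)) = FM ρ M o (ρ (g * h) o) - FM ρ M o (ρ g o) := by
    rw [rho_mul, FM_rho ρ M o g (ρ h o)]; abel
  have h2 : d⁻¹ • rep M g (FM ρ M o (ρ h o)) - d'⁻¹ • FM ρ M o (ρ (g * h) o) =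
      (d⁻¹ - d'⁻¹) • FM ρ M o (ρ (g * h) o) - d⁻¹ • FM ρ M o (ρ g o) := by
    rw [h1]; module
  rw [h2]
  have h3 : ‖FM ρ M o (ρ (g * h) o)‖ ≤ d' := by
    have := norm_FM_le ρ M o (ρ (g * h) o)
    rwa [dist_comm] at this
  have h4 : ‖FM ρ M o (ρ g o)‖ ≤ dist o (ρ g o) := by
    have := norm_FM_le ρ M o (ρ g o)
    rwa [dist_comm] at this
  have h5 : |d' - d| ≤ dist o (ρ g o) := by
    have e1 : dist (ρ g o) (ρ (g * h) o) = d := by rw [rho_mul, dist_rho]
    rw [abs_le]
    constructor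
    · linarith [dist_triangle (ρ g o) o (ρ (g * h) o), dist_comm o (ρ g o)]
    · linarith [dist_triangle o (ρ g o) (ρ (g * h) o)]
  have h6 : d⁻¹ - d'⁻¹ = (d' - d) / (d * d') := by field_simp
  calc ‖(d⁻¹ - d'⁻¹) • FM ρ M o (ρ (g * h) o) - d⁻¹ • FM ρ M o (ρ g o)‖
      ≤ ‖(d⁻¹ - d'⁻¹) • FM ρ M o (ρ (g * h) o)‖ + ‖d⁻¹ • FM ρ M o (ρ g o)‖ := norm_sub_le _ _
    _ ≤ dist o (ρ g o) / (d * d') * d' + d⁻¹ * dist o (ρ g o) := by
        rw [norm_smul, norm_smul, h6]
        apply add_le_add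
        · rw [Real.norm_eq_abs, abs_div, abs_of_pos (mul_pos p1 p2)]
          gcongr
        · rw [Real.norm_eq_abs, abs_of_pos (inv_pos.mpr p1)]
          gcongr
    _ = 2 * dist o (ρ g o) / d := by field_simp; ring

end CTOR
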