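import Pool.Agent.CTOR.Split1
import Pool.Agent.CTOR.Cent

/-!
# CTOR E3a: elements of infinite order have an axis (5.1)
-/

namespace CTOR

open Metric Set

universe u v

variable {G : Type v} [Group G] {X : Type u} [MetricSpace X] [CN X]

/-- 5.1: an element of infinite order has positive attained translation length.
Proof: `τ = inf d(x, zx)`. Minimising sequence in `Xc ρ {z} c`; translate it by elements of the
centralizer (`Geom.cent`, the displacement of `z` does not change) into a closed ball, compactness.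
`τ = 0` would give a fixed point of `z`, so all powers of `z` fix it, so `z` has finite order
by `Geom.proper`. -/
theorem Geom.exists_TL [ProperSpace X] [Nonempty X] {ρ : G →* (X ≃ᵢ X)} (hG : Geom ρ) (z : G)
    (hz : ¬ IsOfFinOrder z) : ∃ τ : ℝ, TL (ρ z) τ ∧ (Mn (ρ z) τ).Nonempty := by
  obtain ⟨o⟩ := ‹Nonempty X›
  obtain ⟨D, hD⟩ := hG.cent (S := {z}) (Set.finite_singleton z) o (dist o (ρ z o))
  have ho : o ∈ Xc ρ {z} (dist o (ρ z o)) := by
    intro s hs
    rw [Set.mem_singleton_iff.1 hs]
  have hD0 : 0 ≤ D := by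
    obtain ⟨g, -, hg⟩ := hD o ho
    exact dist_nonneg.trans hg
  -- minimum on a closed ball
  obtain ⟨x0, hx0, hmin⟩ := (isCompact_closedBall o D).exists_isMinOn
    ⟨o, mem_closedBall_self hD0⟩ (f := fun x => dist x (ρ z x)) (by fun_prop)
  have hle : ∀ y : X, dist x0 (ρ z x0) ≤ dist y (ρ z y) := by
    intro y
    by_cases hy : dist y (ρ z y) ≤ dist o (ρ z o)
    · have hyX : y ∈ Xc ρ {z} (dist o (ρ z o)) := by
        intro s hs
        rw [Set.mem_singleton_iff.1 hs]; exact hy
      obtain ⟨g, hgc, hg⟩ := hD y hyX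
      have hcom : z * g = g * z := Subgroup.mem_centralizer_iff.1 hgc z rfl
      have h1 : ρ g⁻¹ y ∈ closedBall o D := by
        rw [mem_closedBall]
        have : dist (ρ g⁻¹ y) o = dist y (ρ g o) := by
          have h2 := (ρ g).dist_eq (ρ g⁻¹ y) o
          have h3 : ρ g (ρ g⁻¹ y) = y := by
            rw [← IsometryEquiv.mul_apply, ← map_mul, mul_inv_cancel, map_one]; rfl
          rw [h3] at h2
          exact h2.symm
        rw [this]; exact hg
      have h2 := hmin h1
      simp only [mem_ofPred_eq] at h2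
      have hcom' : z * g⁻¹ = g⁻¹ * z := by
        have := congrArg (fun a => g⁻¹ * a * g⁻¹) hcom
        simp only [mul_assoc, mul_inv_cancel, mul_one, inv_mul_cancel_left] at this
        exact this.symm
      have h3 : ρ z (ρ g⁻¹ y) = ρ g⁻¹ (ρ z y) := by
        rw [← IsometryEquiv.mul_apply, ← map_mul, hcom', map_mul]; rfl
      rw [h3, (ρ g⁻¹).dist_eq] at h2
      exact h2
    · push Not at hy
      have h2 := hmin (mem_closedBall_self hD0)
      simp only [mem_ofPred_eq] at h2
      linarith
  refine ⟨dist x0 (ρ z x0), ⟨?_, hle⟩, ⟨x0, rfl⟩⟩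
  -- positivity
  by_contra hneg
  have h0 : dist x0 (ρ z x0) = 0 := le_antisymm (not_lt.1 hneg) dist_nonneg
  have hfix : ρ z x0 = x0 := (dist_eq_zero.1 h0).symm
  have hpow : ∀ n : ℕ, ρ (z ^ n) x0 = x0 := by
    intro n
    induction n with
    | zero => simp
    | succ n ih =>
      rw [pow_succ, map_mul, IsometryEquiv.mul_apply, hfix, ih]
  have hfin := hG.proper x0 0
  have hinj : Function.Injective (fun n : ℕ => z ^ n) :=
    injective_pow_iff_not_isOfFinOrder.2 hz
  have hsub : Set.range (fun n : ℕ => z ^ n) ⊆ {g : G | dist x0 (ρ g x0) ≤ 0} := by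
    rintro _ ⟨n, rfl⟩
    show dist x0 (ρ (z ^ n) x0) ≤ 0
    rw [hpow n, dist_self]
  exact (Set.infinite_range_of_injective hinj) (hfin.subset hsub)

end CTOR
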