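import Pool.Agent.CTOR.SplitGeom

/-!
# CTOR E3c: the quotient by the infinite cyclic group
-/

namespace CTOR

open Metric Set

universe u v

variable {G : Type v} [Group G] {X : Type u} [MetricSpace X] [CN X]

/-- The quotient of the centralizer by `⟨z⟩` acts geometrically. Proof: `G2` is the quotient by
`Subgroup.zpowers ⟨z, _⟩` (normal since `z` is central in its centralizer), `ρ2 = QuotientGroup.lift`. -/
theorem Geom.split_quot [ProperSpace X] [Nonempty X] {ρ : G →* (X ≃ᵢ X)} (hG : Geom ρ) (z : G)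
    (hz : ¬ IsOfFinOrder z) :
    ∃ (Y : Set X) (_ : IsClosed Y) (_ : GConv Y) (_ : Y.Nonempty) (G2 : Type v) (_ : Group G2)
      (q : ↥(Subgroup.centralizer {z} : Subgroup G) →* G2) (ρ2 : G2 →* (Y ≃ᵢ Y)),
      (∀ g, q g = 1 → ∃ k : ℤ, (g : G) = z ^ k) ∧ Geom ρ2 ∧
      (∀ n, Oct n Y → Oct (n + 1) X) := by
  classical
  obtain ⟨Y, hY1, hY2, hY3, Φ, h1, h2, h3, h4⟩ := hG.split z hz
  have hzc : z ∈ (Subgroup.centralizer {z} : Subgroup G) := by
    rw [Subgroup.mem_centralizer_singleton_iff]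
  let z' : ↥(Subgroup.centralizer {z} : Subgroup G) := ⟨z, hzc⟩
  have hcomm : ∀ g : ↥(Subgroup.centralizer {z} : Subgroup G), g * z' = z' * g := by
    intro g
    apply Subtype.ext
    exact Subgroup.mem_centralizer_singleton_iff.mp g.2
  have hN : (Subgroup.zpowers z').Normal := by
    refine ⟨fun n hn g => ?_⟩
    obtain ⟨k, rfl⟩ := hn
    have : g * z' ^ k * g⁻¹ = z' ^ k := by
      have hc : Commute g (z' ^ k) := (show Commute g z' from hcomm g).zpow_right k
      rw [hc.eq, mul_inv_cancel_right]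
    show g * z' ^ k * g⁻¹ ∈ _
    rw [this]
    exact ⟨k, rfl⟩
  have hΦ : Subgroup.zpowers z' ≤ Φ.ker := by
    rw [Subgroup.zpowers_le, MonoidHom.mem_ker]
    exact h3 z' rfl
  let ρ2 : (↥(Subgroup.centralizer {z} : Subgroup G) ⧸ Subgroup.zpowers z') →* (Y ≃ᵢ Y) :=
    QuotientGroup.lift (Subgroup.zpowers z') Φ fun x hx => hΦ hx
  have hρ2 : ∀ g, ρ2 (QuotientGroup.mk' (Subgroup.zpowers z') g) = Φ g := fun g => rfl
  refine ⟨Y, hY1, hY2, hY3, _, inferInstance, QuotientGroup.mk' (Subgroup.zpowers z'), ρ2,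
    ?_, ⟨?_, ?_⟩, h4⟩
  · intro g hg
    have hg' : g ∈ Subgroup.zpowers z' := by
      rw [← QuotientGroup.ker_mk' (Subgroup.zpowers z')]
      exact hg
    obtain ⟨k, hk⟩ := hg'
    refine ⟨k, ?_⟩
    rw [← hk]
    simp [z']
  · intro o R
    obtain ⟨F, hF, hF2⟩ := h1 o R
    have hfin : ({g : ↥(Subgroup.centralizer {z} : Subgroup G) | (g : G) ∈ F}).Finite :=
      hF.preimage Subtype.val_injective.injOn
    refine (hfin.image (QuotientGroup.mk' (Subgroup.zpowers z'))).subset ?_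
    intro g2 hg2
    obtain ⟨g, rfl⟩ := QuotientGroup.mk'_surjective (Subgroup.zpowers z') g2
    have hg3 : dist o (Φ g o) ≤ R := by
      rw [← hρ2]; exact hg2
    obtain ⟨k, hk⟩ := hF2 g hg3
    refine ⟨z' ^ k * g, ?_, ?_⟩
    · show ((z' ^ k * g : ↥(Subgroup.centralizer {z} : Subgroup G)) : G) ∈ F
      simpa [z'] using hk
    · have hz1 : QuotientGroup.mk' (Subgroup.zpowers z') (z' ^ k) = 1 := by
        rw [← MonoidHom.mem_ker, QuotientGroup.ker_mk']
        exact ⟨k, rfl⟩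
      rw [map_mul, hz1, one_mul]
  · obtain ⟨o, D, hD⟩ := h2
    refine ⟨o, D, fun y => ?_⟩
    obtain ⟨g, hg⟩ := hD y
    exact ⟨QuotientGroup.mk' (Subgroup.zpowers z') g, by rw [hρ2]; exact hg⟩

end CTOR
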