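import Pool.Agent.CTOR.CoreG
import Pool.Agent.CTOR.SplitTop

/-!
# CTOR F: the induction (section 6); owner: helper23
-/

namespace CTOR

open Metric Set

universe u v

/-- `Oct n X` fails for some `n`. Proof: translate `p` into `closedBall o D` (`Geom.cobdd`); the points
are then in the compact set `closedBall o (D + 1)` and pairwise at distance at least `√2 > 1`;
a finite cover by balls of radius `1/2` has at least `n` members. -/
theorem Geom.not_oct {G : Type v} [Group G] {X : Type u} [MetricSpace X] [ProperSpace X]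
    {ρ : G →* (X ≃ᵢ X)} (hG : Geom ρ) : ∃ n : ℕ, ¬ Oct n X := by
  obtain ⟨o, D, hD⟩ := hG.cobdd
  obtain ⟨t, -, ht, hcov⟩ :=
    (isCompact_closedBall o (D + 1)).finite_cover_balls (e := 1 / 2) (by norm_num)
  refine ⟨ht.toFinset.card + 1, ?_⟩
  rintro ⟨p, x, hp, hx⟩
  obtain ⟨g, hg⟩ := hD p
  have hmem : ∀ i, ρ g⁻¹ (x i) ∈ closedBall o (D + 1) := by
    intro i
    rw [mem_closedBall]
    have h1 : dist (ρ g⁻¹ (x i)) (ρ g⁻¹ p) = 1 := by
      rw [(ρ g⁻¹).dist_eq, dist_comm, hp]
    have h2 : dist (ρ g⁻¹ p) o ≤ D := by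
      have h3 : ρ g⁻¹ (ρ g o) = o := by
        rw [← IsometryEquiv.mul_apply, ← map_mul]; simp
      calc dist (ρ g⁻¹ p) o = dist (ρ g⁻¹ p) (ρ g⁻¹ (ρ g o)) := by rw [h3]
        _ = dist p (ρ g o) := (ρ g⁻¹).dist_eq _ _
        _ ≤ D := hg
    linarith [dist_triangle (ρ g⁻¹ (x i)) (ρ g⁻¹ p) o]
  have hc : ∀ i, ∃ c ∈ ht.toFinset, dist (ρ g⁻¹ (x i)) c < 1 / 2 := by
    intro i
    have := hcov (hmem i)
    rw [mem_iUnion₂] at this
    obtain ⟨c, hc, h⟩ := this
    exact ⟨c, ht.mem_toFinset.2 hc, h⟩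
  choose c hc hcd using hc
  obtain ⟨i, -, j, -, hij, he⟩ := Finset.exists_ne_map_eq_of_card_lt_of_maps_to
    (s := Finset.univ) (t := ht.toFinset) (f := c) (by simp) (fun i _ => hc i)
  have h1 := hx i j hij
  have h2 : dist (x i) (x j) < 1 := by
    have h3 : dist (ρ g⁻¹ (x i)) (ρ g⁻¹ (x j)) = dist (x i) (x j) := (ρ g⁻¹).dist_eq _ _
    rw [← h3]
    have h4 := hcd i
    have h5 := hcd j
    rw [← he, dist_comm] at h5
    linarith [dist_triangle (ρ g⁻¹ (x i)) (c i) (ρ g⁻¹ (x j))]
  have h3 : (1 : ℝ) ≤ √2 := by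
    rw [show (1 : ℝ) = √1 by simp]
    exact Real.sqrt_le_sqrt (by norm_num)
  linarith

/-- The centralizer of an infinite finitely generated torsion subgroup contains an element of
infinite order. -/
theorem Geom.exists_inf {G : Type v} [Group G] {X : Type u} [MetricSpace X] [CN X]
    [ProperSpace X] [Nonempty X] {ρ : G →* (X ≃ᵢ X)} (hG : Geom ρ) (K : Subgroup G)
    (hfg : K.FG) (ht : ∀ h ∈ K, IsOfFinOrder h) (hinf : Infinite K) :
    ∃ z : G, ¬ IsOfFinOrder z ∧ ∀ h ∈ K, h * z = z * h := by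
  by_contra hno
  push Not at hno
  obtain ⟨S, hS⟩ := id hfg
  have hcS : Subgroup.centralizer (S : Set G) = Subgroup.centralizer (K : Set G) := by
    rw [← hS, Subgroup.centralizer_closure]
  set C : Subgroup G := Subgroup.centralizer (S : Set G) with hC
  have hCt : ∀ z : C, IsOfFinOrder z := by
    intro z
    by_contra hz
    have hz' : ¬ IsOfFinOrder (z : G) := by
      rwa [← Submonoid.isOfFinOrder_coe] at hz
    obtain ⟨h, hh, hne⟩ := hno z hz'
    apply hne
    have hz2 : (z : G) ∈ Subgroup.centralizer (K : Set G) := hcS ▸ z.2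
    exact Subgroup.mem_centralizer_iff.1 hz2 h hh
  -- `C` acts geometrically on some `Xc`
  obtain ⟨o⟩ := id ‹Nonempty X›
  obtain ⟨c, hc⟩ : ∃ c : ℝ, (Xc ρ (S : Set G) c).Nonempty := by
    refine ⟨∑ s ∈ S, dist o (ρ s o), o, fun s hs => ?_⟩
    exact Finset.single_le_sum (f := fun s => dist o (ρ s o)) (fun _ _ => dist_nonneg) hs
  have hg := hG.restr_cent S.finite_toSet c hc
  have : CN (Xc ρ (S : Set G) c) := (gconv_Xc ρ (S : Set G) c).cn
  have : ProperSpace (Xc ρ (S : Set G) c) := ProperSpace.of_isClosed (isClosed_Xc ρ (S : Set G) c)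
  have : Nonempty (Xc ρ (S : Set G) c) := hc.to_subtype
  have hfgC : Group.FG C := hg.fg
  have hcen : Finite (Subgroup.center C) := by
    refine hg.finite_comm (Subgroup.center C) (fun h _ => hCt h) (fun a ha b _ => ?_)
    exact (Subgroup.mem_center_iff.1 ha b).symm
  have hct : Finite (Subgroup.centralizer ((⊤ : Subgroup C) : Set C)) := by
    rw [Subgroup.coe_top, Subgroup.centralizer_univ]
    exact hcen
  have htop : Finite (⊤ : Subgroup C) :=
    hg.core ⊤ (Group.fg_def.1 hfgC) (fun h _ => hCt h) hct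
  have hCfin : Finite C := Subgroup.topEquiv.toEquiv.finite_iff.1 htop
  have : Finite K := by
    refine hG.core K hfg ht ?_
    rw [← hcS]
    exact hCfin
  exact not_finite_iff_infinite.2 hinf this

/-- **Section 6.** Induction on `n`. -/
theorem main_induction (n : ℕ) : ∀ (X : Type u) [MetricSpace X] [CN X] [ProperSpace X]
    [Nonempty X] (G : Type v) [Group G] (ρ : G →* (X ≃ᵢ X)), Geom ρ → ¬ Oct n X →
    ∀ H : Subgroup G, (∀ h ∈ H, IsOfFinOrder h) → Finite H := by
  induction n with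
  | zero =>
    intro X _ _ _ hne G _ ρ _ hn
    obtain ⟨p⟩ := hne
    exact absurd ⟨p, Fin.elim0, fun i => i.elim0, fun i => i.elim0⟩ hn
  | succ n ih =>
    intro X _ _ _ _ G _ ρ hG hn H ht
    by_contra hfin
    obtain ⟨K, hKH, hKfg, hKinf⟩ := hG.exists_fg H (not_finite_iff_infinite.1 hfin)
    have hKt : ∀ h ∈ K, IsOfFinOrder h := fun h hh => ht h (hKH hh)
    obtain ⟨z, hz, hcomm⟩ := hG.exists_inf K hKfg hKt hKinf
    obtain ⟨Y, hYc, hYconv, hYne, G2, _, q, ρ2, hq, hG2, hoct⟩ := hG.split_quot z hz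
    have : CN Y := hYconv.cn
    have : ProperSpace Y := ProperSpace.of_isClosed hYc
    have : Nonempty Y := hYne.to_subtype
    have hnY : ¬ Oct n Y := fun h => hn (hoct n h)
    -- the map from `K` to `G2`
    have hKz : K ≤ Subgroup.centralizer {z} := by
      intro h hh
      rw [Subgroup.mem_centralizer_singleton_iff]
      exact hcomm h hh
    let f : K →* G2 := q.comp (Subgroup.inclusion hKz)
    have hf : Function.Injective f := by
      rw [injective_iff_map_eq_one]
      intro a ha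
      obtain ⟨k, hk⟩ := hq _ ha
      have hk' : (a : G) = z ^ k := hk
      have hfin' : IsOfFinOrder (z ^ k) := hk' ▸ hKt a a.2
      have hk0 : k = 0 := by
        by_contra hk0
        obtain ⟨m, hm, hm1⟩ := isOfFinOrder_iff_zpow_eq_one.1 hfin'
        refine hz (isOfFinOrder_iff_zpow_eq_one.2 ⟨k * m, mul_ne_zero hk0 hm, ?_⟩)
        rw [zpow_mul, hm1]
      ext
      rw [hk', hk0, zpow_zero]
      rfl
    have hrange : Finite f.range := by
      refine ih Y G2 ρ2 hG2 hnY f.range ?_
      rintro _ ⟨a, rfl⟩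
      exact MonoidHom.isOfFinOrder f (by
        rw [← Submonoid.isOfFinOrder_coe]
        exact hKt a a.2)
    have : Finite K := Finite.of_injective (f.rangeRestrict) (fun a b hab => hf (by
      simpa using congrArg Subtype.val hab))
    exact not_finite_iff_infinite.2 hKinf this

/-- The theorem in metric form. -/
theorem main {G : Type v} [Group G] {X : Type u} [MetricSpace X] [CN X] [ProperSpace X]
    [Nonempty X] (ρ : G →* (X ≃ᵢ X)) (hG : Geom ρ) (H : Subgroup G)
    (ht : ∀ h ∈ H, IsOfFinOrder h) : Finite H := by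
  obtain ⟨n, hn⟩ := hG.not_oct
  exact main_induction n X G ρ hG hn H ht

end CTOR
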