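import Pool.Agent.CTOR.Conv
import Pool.Agent.CTOR.Main

/-!
# CTOR F: the theorem in the terms of the literature (owner: helper23)
-/

namespace CTOR

universe u v

/-- Every torsion subgroup of a `CAT(0)` group is finite. -/
theorem torsion_finite (G : Type v) [Group G] (hG : IsCAT0Group.{u} G) (H : Subgroup G)
    (ht : ∀ h ∈ H, IsOfFinOrder h) : Finite H := by
  obtain ⟨X, _, _, hX, _, h⟩ := hG
  have := hX.cn
  have := hX.nonempty
  exact main h.hom h.geom H ht

end CTOR
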