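import Pool.Agent.CTOR.Walk

/-!
# CTOR C: Kesten's argument (section 3)
-/

namespace CTOR

set_option linter.unusedSectionVars false

open Filter Topology

variable {H : Type*} [Group H]

/-- Symmetric coefficients. -/
def SymA (f : MonoidAlgebra ℝ H) : Prop := ∀ h, f.coeff h⁻¹ = f.coeff h

theorem coeff_mul_eq (f g : MonoidAlgebra ℝ H) (x : H) :
    (f * g).coeff x = Ex f (fun u => g.coeff (u⁻¹ * x)) := by
  classical
  rw [← Ex_indicator, Ex_mul]
  refine Ex_congr fun u => ?_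
  rw [← Ex_indicator]
  refine Ex_congr fun v => ?_
  have : u * v = x ↔ v = u⁻¹ * x := by rw [eq_inv_mul_iff_mul_eq]
  simp only [this]

theorem coeff_mul_eq' (f g : MonoidAlgebra ℝ H) (x : H) :
    (f * g).coeff x = Ex g (fun v => f.coeff (x * v⁻¹)) := by
  classical
  rw [← Ex_indicator, Ex_mul, Ex_comm]
  refine Ex_congr fun v => ?_
  rw [← Ex_indicator]
  refine Ex_congr fun u => ?_
  have : u * v = x ↔ u = x * v⁻¹ := by rw [eq_mul_inv_iff_mul_eq]
  simp only [this]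

theorem SymA.pow {a : MonoidAlgebra ℝ H} (ha : SymA a) (n : ℕ) : SymA (a ^ n) := by
  classical
  induction n with
  | zero =>
    intro h
    rw [pow_zero, ← Ex_indicator, ← Ex_indicator, Ex_one, Ex_one]
    by_cases hh : (1 : H) = h
    · subst hh; simp
    · have : ¬ (1 : H) = h⁻¹ := fun h' => hh (by rw [eq_comm, inv_eq_one] at h'; exact h'.symm)
      simp [hh, this]
  | succ n ih =>
    intro h
    have h1 : (a ^ (n + 1)).coeff h⁻¹ = Ex (a ^ n) (fun u => a.coeff (u⁻¹ * h⁻¹)) := by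
      rw [pow_succ, coeff_mul_eq]
    have h2 : (a ^ (n + 1)).coeff h = Ex (a ^ n) (fun v => a.coeff (h * v⁻¹)) := by
      rw [pow_succ', coeff_mul_eq']
    -- use the symmetry of `a ^ n`: substitute `u = v⁻¹`
    have h3 : Ex (a ^ n) (fun u => a.coeff (u⁻¹ * h⁻¹)) = Ex (a ^ n) (fun u => a.coeff (h * u)) :=
      Ex_congr fun u => by rw [← mul_inv_rev, ha]
    have h4 : Ex (a ^ n) (fun u => a.coeff (h * u)) = Ex (a ^ n) (fun v => a.coeff (h * v⁻¹)) := by
      have hs : (a ^ n).coeff.support ⊆ (a ^ n).coeff.support ∪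
          (a ^ n).coeff.support.image (fun x => x⁻¹) := Finset.subset_union_left
      rw [Ex_eq_sum_of_subset _ hs, Ex_eq_sum_of_subset _ hs]
      refine Finset.sum_bij' (fun x _ => x⁻¹) (fun x _ => x⁻¹) ?_ ?_ ?_ ?_ ?_
      · intro x hx
        simp only [Finset.mem_union, Finset.mem_image] at hx ⊢
        rcases hx with hx | ⟨y, hy, rfl⟩
        · exact Or.inr ⟨x, hx, rfl⟩
        · rw [inv_inv]; exact Or.inl hy
      · intro x hx
        simp only [Finset.mem_union, Finset.mem_image] at hx ⊢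
        rcases hx with hx | ⟨y, hy, rfl⟩
        · exact Or.inr ⟨x, hx, rfl⟩
        · rw [inv_inv]; exact Or.inl hy
      · intro x _; exact inv_inv x
      · intro x _; exact inv_inv x
      · intro x _
        rw [ih, inv_inv]
    rw [h1, h2, h3, h4]

/-- `c n = ‖a^n‖² = a^(2n)(1)`. -/
noncomputable def cN (a : MonoidAlgebra ℝ H) (n : ℕ) : ℝ := Ex (a ^ n) (fun u => (a ^ n).coeff u)

theorem cN_eq_sum (a : MonoidAlgebra ℝ H) (n : ℕ) {s : Finset H}
    (hs : (a ^ n).coeff.support ⊆ s) : cN a n = ∑ u ∈ s, (a ^ n).coeff u ^ 2 := by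
  unfold cN
  rw [Ex_eq_sum_of_subset _ hs]
  exact Finset.sum_congr rfl fun u _ => by ring

theorem cN_nonneg (a : MonoidAlgebra ℝ H) (n : ℕ) : 0 ≤ cN a n := by
  rw [cN_eq_sum a n (Finset.Subset.refl _)]
  exact Finset.sum_nonneg fun u _ => sq_nonneg _

/-- The translated inner product `∑ F(u) F(w u)`, `F = a^n`. -/
noncomputable def iN (a : MonoidAlgebra ℝ H) (n : ℕ) (w : H) : ℝ :=
  Ex (a ^ n) (fun u => (a ^ n).coeff (w * u))

theorem cN_succ {a : MonoidAlgebra ℝ H} (ha : SymA a) (n : ℕ) :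
    cN a (n + 1) = Ex (a ^ 2) (fun w => iN a n w) := by
  have h1 : cN a (n + 1) = (a ^ (n + 1) * a ^ (n + 1)).coeff 1 := by
    rw [coeff_mul_eq]
    unfold cN
    exact Ex_congr fun u => by rw [mul_one, ha.pow (n + 1)]
  have h2 : (a ^ (n + 1) * a ^ (n + 1)) = a ^ 2 * (a ^ n * a ^ n) := by
    rw [← pow_add, ← pow_add, ← pow_add]; congr 1; ring
  rw [h1, h2, coeff_mul_eq]
  refine Ex_congr fun w => ?_
  rw [coeff_mul_eq]
  unfold iN
  refine Ex_congr fun u => ?_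
  rw [mul_one, ← mul_inv_rev, ha.pow n]

/-- The finite set on which `F` and its translate live. -/
noncomputable def suppU (a : MonoidAlgebra ℝ H) (n : ℕ) (w : H) : Finset H := by
  classical
  exact (a ^ n).coeff.support ∪ (a ^ n).coeff.support.image (fun x => w⁻¹ * x)

theorem subset_suppU (a : MonoidAlgebra ℝ H) (n : ℕ) (w : H) :
    (a ^ n).coeff.support ⊆ suppU a n w := by
  classical
  exact Finset.subset_union_left

/-- Shifting a sum that vanishes outside the support. -/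
theorem sum_shift (a : MonoidAlgebra ℝ H) (n : ℕ) (w : H) (G : H → ℝ)
    (hG : ∀ u, u ∉ (a ^ n).coeff.support → G u = 0) :
    ∑ u ∈ suppU a n w, G (w * u) = ∑ u ∈ (a ^ n).coeff.support, G u := by
  classical
  have h1 : ∑ u ∈ suppU a n w, G (w * u) =
      ∑ u ∈ (a ^ n).coeff.support.image (fun x => w⁻¹ * x), G (w * u) := by
    symm
    apply Finset.sum_subset Finset.subset_union_right
    intro u _ hu
    apply hG
    intro hmem
    exact hu (Finset.mem_image.mpr ⟨w * u, hmem, by rw [inv_mul_cancel_left]⟩)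
  rw [h1, Finset.sum_image]
  · exact Finset.sum_congr rfl fun u _ => by rw [mul_inv_cancel_left]
  · intro x _ y _ hxy
    exact mul_left_cancel hxy

/-- `∑ (F(w u) - F(u))² = 2 c - 2 i`. -/
theorem sum_sub_sq (a : MonoidAlgebra ℝ H) (n : ℕ) (w : H) :
    ∑ u ∈ suppU a n w, ((a ^ n).coeff (w * u) - (a ^ n).coeff u) ^ 2 =
      2 * cN a n - 2 * iN a n w := by
  have h1 := sum_shift a n w (fun u => (a ^ n).coeff u ^ 2) (fun u hu => by
    rw [Finsupp.notMem_support_iff.mp hu]; ring)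
  have h2 := cN_eq_sum a n (Finset.Subset.refl _)
  have h3 := cN_eq_sum a n (subset_suppU a n w)
  have h4 : iN a n w = ∑ u ∈ suppU a n w, (a ^ n).coeff u * (a ^ n).coeff (w * u) :=
    Ex_eq_sum_of_subset _ (subset_suppU a n w)
  have h5 : ∑ u ∈ suppU a n w, ((a ^ n).coeff (w * u) - (a ^ n).coeff u) ^ 2 =
      ∑ u ∈ suppU a n w, (a ^ n).coeff (w * u) ^ 2 + ∑ u ∈ suppU a n w, (a ^ n).coeff u ^ 2 -
        2 * ∑ u ∈ suppU a n w, (a ^ n).coeff u * (a ^ n).coeff (w * u) := by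
    rw [Finset.mul_sum, ← Finset.sum_add_distrib, ← Finset.sum_sub_distrib]
    exact Finset.sum_congr rfl fun u _ => by ring
  rw [h5, h1, ← h2, ← h3, ← h4]
  ring

/-- `∑ (F(w u) + F(u))² ≤ 4 c`. -/
theorem sum_add_sq_le (a : MonoidAlgebra ℝ H) (n : ℕ) (w : H) :
    ∑ u ∈ suppU a n w, ((a ^ n).coeff (w * u) + (a ^ n).coeff u) ^ 2 ≤ 4 * cN a n := by
  have h1 := sum_shift a n w (fun u => (a ^ n).coeff u ^ 2) (fun u hu => by
    rw [Finsupp.notMem_support_iff.mp hu]; ring)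
  have h2 := cN_eq_sum a n (Finset.Subset.refl _)
  have h3 := cN_eq_sum a n (subset_suppU a n w)
  have h5 : ∑ u ∈ suppU a n w, ((a ^ n).coeff (w * u) + (a ^ n).coeff u) ^ 2 ≤
      ∑ u ∈ suppU a n w, (2 * (a ^ n).coeff (w * u) ^ 2 + 2 * (a ^ n).coeff u ^ 2) :=
    Finset.sum_le_sum fun u _ => by
      nlinarith [sq_nonneg ((a ^ n).coeff (w * u) - (a ^ n).coeff u)]
  rw [Finset.sum_add_distrib, ← Finset.mul_sum, ← Finset.mul_sum, h1, ← h2, ← h3] at h5
  linarith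

theorem iN_le (a : MonoidAlgebra ℝ H) (n : ℕ) (w : H) : iN a n w ≤ cN a n := by
  have h1 := sum_sub_sq a n w
  have h2 : 0 ≤ ∑ u ∈ suppU a n w, ((a ^ n).coeff (w * u) - (a ^ n).coeff u) ^ 2 :=
    Finset.sum_nonneg fun u _ => sq_nonneg _
  linarith

/-- One term of the average. -/
theorem coeff_mul_le {a : MonoidAlgebra ℝ H} (hp : ProbA a) (ha : SymA a) (n : ℕ) (s : H) :
    (a ^ 2).coeff s * (cN a n - iN a n s) ≤ cN a n - cN a (n + 1) := by
  classical
  have h1 : cN a n - cN a (n + 1) = Ex (a ^ 2) (fun w => cN a n - iN a n w) := by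
    rw [Ex_sub_right, (hp.pow 2).const, cN_succ ha]
  rw [h1]
  have h2 : (a ^ 2).coeff s * (cN a n - iN a n s) =
      Ex (a ^ 2) (fun w => (cN a n - iN a n s) * (if w = s then 1 else 0)) := by
    rw [Ex_smul_right, Ex_indicator]; ring
  rw [h2]
  refine Ex_mono (hp.pow 2).nonneg fun w => ?_
  by_cases hw : w = s
  · subst hw; simp
  · simp only [hw, if_false, mul_zero]
    linarith [iN_le a n w]

/-- The squared function as a probability. -/
noncomputable def sqP (a : MonoidAlgebra ℝ H) (n : ℕ) : MonoidAlgebra ℝ H :=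
  MonoidAlgebra.ofCoeff ((a ^ n).coeff.mapRange (fun c => c ^ 2 / cN a n) (by simp))

theorem sqP_coeff (a : MonoidAlgebra ℝ H) (n : ℕ) (h : H) :
    (sqP a n).coeff h = (a ^ n).coeff h ^ 2 / cN a n := by
  unfold sqP
  rw [MonoidAlgebra.coeff_ofCoeff, Finsupp.mapRange_apply]

theorem sqP_supp (a : MonoidAlgebra ℝ H) (n : ℕ) :
    (sqP a n).coeff.support ⊆ (a ^ n).coeff.support := by
  unfold sqP
  rw [MonoidAlgebra.coeff_ofCoeff]
  exact Finsupp.support_mapRange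

theorem sqP_prob (a : MonoidAlgebra ℝ H) (n : ℕ) (hc : 0 < cN a n) : ProbA (sqP a n) := by
  refine ⟨fun h => ?_, ?_⟩
  · rw [sqP_coeff]; positivity
  · rw [Ex_eq_sum_of_subset _ (sqP_supp a n)]
    simp only [sqP_coeff, mul_one]
    rw [← Finset.sum_div, ← cN_eq_sum a n (Finset.Subset.refl _), div_self hc.ne']

/-- Almost invariance of the squared function. -/
theorem sqP_inv {a : MonoidAlgebra ℝ H} {n : ℕ} (hc : 0 < cN a n) {s : H} {η : ℝ} (hη : 0 ≤ η)
    (hs : cN a n - iN a n s ≤ η ^ 2 / 8 * cN a n) {φ : H → ℝ} {C : ℝ} (hφ : ∀ h, |φ h| ≤ C) :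
    |Ex (sqP a n) (fun h => φ (s⁻¹ * h)) - Ex (sqP a n) φ| ≤ C * η := by
  classical
  have hC : 0 ≤ C := (abs_nonneg _).trans (hφ 1)
  set F : H → ℝ := fun u => (a ^ n).coeff u with hF
  set U := suppU a n s with hU
  have h1 : Ex (sqP a n) (fun h => φ (s⁻¹ * h)) = ∑ u ∈ U, F (s * u) ^ 2 / cN a n * φ u := by
    rw [Ex_eq_sum_of_subset _ (sqP_supp a n)]
    simp only [sqP_coeff]
    have := sum_shift a n s (fun u => F u ^ 2 / cN a n * φ (s⁻¹ * u)) (fun u hu => by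
      simp only [hF]; rw [Finsupp.notMem_support_iff.mp hu]; ring)
    rw [← this]
    exact Finset.sum_congr rfl fun u _ => by rw [inv_mul_cancel_left]
  have h2 : Ex (sqP a n) φ = ∑ u ∈ U, F u ^ 2 / cN a n * φ u := by
    rw [Ex_eq_sum_of_subset _ ((sqP_supp a n).trans (subset_suppU a n s))]
    simp only [sqP_coeff, hF, hU]
  rw [h1, h2, ← Finset.sum_sub_distrib]
  have h3 : |∑ u ∈ U, (F (s * u) ^ 2 / cN a n * φ u - F u ^ 2 / cN a n * φ u)| ≤
      ∑ u ∈ U, C / cN a n * (|F (s * u) - F u| * |F (s * u) + F u|) := by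
    refine (Finset.abs_sum_le_sum_abs _ _).trans (Finset.sum_le_sum fun u _ => ?_)
    have e1 : F (s * u) ^ 2 / cN a n * φ u - F u ^ 2 / cN a n * φ u =
        (1 / cN a n) * ((F (s * u) - F u) * (F (s * u) + F u)) * φ u := by ring
    rw [e1, abs_mul, abs_mul, abs_mul, abs_of_pos (by positivity : 0 < 1 / cN a n)]
    calc 1 / cN a n * (|F (s * u) - F u| * |F (s * u) + F u|) * |φ u|
        ≤ 1 / cN a n * (|F (s * u) - F u| * |F (s * u) + F u|) * C :=
          mul_le_mul_of_nonneg_left (hφ u) (by positivity)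
      _ = _ := by ring
  refine h3.trans ?_
  rw [← Finset.mul_sum]
  have h4 : (∑ u ∈ U, |F (s * u) - F u| * |F (s * u) + F u|) ^ 2 ≤ (η * cN a n) ^ 2 := by
    refine (Finset.sum_mul_sq_le_sq_mul_sq U _ _).trans ?_
    simp only [sq_abs]
    have e1 := sum_sub_sq a n s
    have e2 := sum_add_sq_le a n s
    have e3 : ∑ u ∈ U, (F (s * u) - F u) ^ 2 ≤ η ^ 2 / 4 * cN a n := by
      simp only [hF, hU]; rw [e1]; linarith
    have e4 : ∑ u ∈ U, (F (s * u) + F u) ^ 2 ≤ 4 * cN a n := e2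
    calc (∑ u ∈ U, (F (s * u) - F u) ^ 2) * ∑ u ∈ U, (F (s * u) + F u) ^ 2
        ≤ (η ^ 2 / 4 * cN a n) * (4 * cN a n) :=
          mul_le_mul e3 e4 (Finset.sum_nonneg fun _ _ => sq_nonneg _) (by positivity)
      _ = (η * cN a n) ^ 2 := by ring
  have h5 : ∑ u ∈ U, |F (s * u) - F u| * |F (s * u) + F u| ≤ η * cN a n :=
    sq_le_sq_abs (by positivity) h4
  calc C / cN a n * ∑ u ∈ U, |F (s * u) - F u| * |F (s * u) + F u|
      ≤ C / cN a n * (η * cN a n) := mul_le_mul_of_nonneg_left h5 (by positivity)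
    _ = C * η := by field_simp

/-- **Kesten.** If the second moments are `o(n²)` and balls grow at most exponentially then the
ratios `c (n+1) / c n` come arbitrarily close to `1`. -/
theorem exists_ratio {X : Type*} [MetricSpace X] (ρ : H →* (X ≃ᵢ X)) (o : X)
    (hfin : ∀ n : ℕ, {h : H | dist o (ρ h o) ≤ n}.Finite) {A : ℕ} (hA : 1 ≤ A)
    (hgr : ∀ n : ℕ, {h : H | dist o (ρ h o) ≤ n}.ncard ≤ A ^ (n + 2))
    {a : MonoidAlgebra ℝ H} (hp : ProbA a)
    (hd : Tendsto (fun n : ℕ => Ex (a ^ n) (fun h => dist o (ρ h o) ^ 2) / (n : ℝ) ^ 2) atTop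
      (𝓝 0)) {ε : ℝ} (hε : 0 < ε) (hε1 : ε < 1) :
    ∃ n, (1 - ε) * cN a n ≤ cN a (n + 1) := by
  classical
  by_contra hcon
  push Not at hcon
  have hr0 : 0 < 1 - ε := by linarith
  have hc0 : cN a 0 = 1 := by
    unfold cN
    rw [pow_zero, Ex_one, MonoidAlgebra.coeff_one_one]
  have hcn : ∀ n, cN a n ≤ (1 - ε) ^ n := by
    intro n
    induction n with
    | zero => rw [hc0, pow_zero]
    | succ n ih =>
      calc cN a (n + 1) ≤ (1 - ε) * cN a n := (hcon n).le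
        _ ≤ (1 - ε) * (1 - ε) ^ n := mul_le_mul_of_nonneg_left ih hr0.le
        _ = (1 - ε) ^ (n + 1) := by ring
  -- choice of `K`
  have hA' : (0 : ℝ) < A := by exact_mod_cast hA
  obtain ⟨K, hK⟩ := exists_pow_lt_of_lt_one (show (0 : ℝ) < 1 / (2 * A) by positivity)
    (show 1 - ε < 1 by linarith)
  have hK1 : 0 < K := by
    rcases Nat.eq_zero_or_pos K with h | h
    · subst h
      rw [pow_zero] at hK
      have : 1 / (2 * (A : ℝ)) ≤ 1 := by
        rw [div_le_one (by positivity)]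
        have : (1 : ℝ) ≤ A := by exact_mod_cast hA
        linarith
      linarith
    · exact h
  have hK' : (0 : ℝ) < K := by exact_mod_cast hK1
  have hAK : A * (1 - ε) ^ K ≤ 1 / 2 := by
    have := mul_le_mul_of_nonneg_left hK.le hA'.le
    calc A * (1 - ε) ^ K ≤ A * (1 / (2 * A)) := this
      _ = 1 / 2 := by field_simp
  -- large `n`
  have h1 : ∀ᶠ n : ℕ in atTop, Ex (a ^ n) (fun h => dist o (ρ h o) ^ 2) / (n : ℝ) ^ 2 <
      1 / (2 * (K : ℝ) ^ 2) := (tendsto_order.mp hd).2 _ (by positivity)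
  obtain ⟨N, hN⟩ := Filter.eventually_atTop.mp h1
  obtain ⟨J, hJ⟩ := exists_pow_lt_of_lt_one (show (0 : ℝ) < 1 / (4 * (A : ℝ) ^ 2) by positivity)
    (show (1 / 2 : ℝ) < 1 by norm_num)
  set j : ℕ := max (max N J) 1 with hj
  have hjN : N ≤ j := (le_max_left _ _).trans (le_max_left _ _)
  have hjJ : J ≤ j := (le_max_right _ _).trans (le_max_left _ _)
  have hj1 : 1 ≤ j := le_max_right _ _
  have hj' : (0 : ℝ) < j := by exact_mod_cast hj1
  set n := K * j with hn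
  have hnN : N ≤ n := hjN.trans (Nat.le_mul_of_pos_left j hK1)
  have h2 := hN n hnN
  set b := Ex (a ^ n) (fun h => dist o (ρ h o) ^ 2) with hb
  have h3 : b ≤ (j : ℝ) ^ 2 / 2 := by
    rw [div_lt_div_iff₀ (by rw [hn]; push_cast; positivity) (by positivity)] at h2
    rw [hn] at h2
    push_cast at h2
    have : b * (2 * (K : ℝ) ^ 2) < (j : ℝ) ^ 2 / 2 * (2 * (K : ℝ) ^ 2) := by
      calc b * (2 * (K : ℝ) ^ 2) < 1 * ((K : ℝ) * j) ^ 2 := h2
        _ = (j : ℝ) ^ 2 / 2 * (2 * (K : ℝ) ^ 2) := by ring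
    exact (lt_of_mul_lt_mul_right this (by positivity)).le
  set B : Set H := {h : H | dist o (ρ h o) ≤ j} with hB
  have hBf : B.Finite := hfin j
  -- Markov
  have h4 : 1 / 2 ≤ Ex (a ^ n) (B.indicator fun _ => 1) := by
    have e1 : Ex (a ^ n) (fun h => 1 - dist o (ρ h o) ^ 2 * (1 / (j : ℝ) ^ 2)) ≤
        Ex (a ^ n) (B.indicator fun _ => 1) := by
      refine Ex_mono (hp.pow n).nonneg fun h => ?_
      by_cases hh : h ∈ B
      · rw [Set.indicator_of_mem hh]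
        have : 0 ≤ dist o (ρ h o) ^ 2 * (1 / (j : ℝ) ^ 2) := by positivity
        linarith
      · rw [Set.indicator_of_notMem hh]
        have h5 : (j : ℝ) < dist o (ρ h o) := not_le.mp hh
        have h6 : (j : ℝ) ^ 2 ≤ dist o (ρ h o) ^ 2 := pow_le_pow_left₀ hj'.le h5.le 2
        have h7 : 1 ≤ dist o (ρ h o) ^ 2 * (1 / (j : ℝ) ^ 2) := by
          rw [mul_one_div, le_div_iff₀ (by positivity)]
          linarith
        linarith
    have e2 : Ex (a ^ n) (fun h => 1 - dist o (ρ h o) ^ 2 * (1 / (j : ℝ) ^ 2)) =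
        1 - (1 / (j : ℝ) ^ 2) * b := by
      rw [Ex_sub_right, (hp.pow n).total, hb, ← Ex_smul_right]
      congr 2
      ext h; ring
    rw [e2] at e1
    have e3 : (1 / (j : ℝ) ^ 2) * b ≤ 1 / 2 := by
      calc (1 / (j : ℝ) ^ 2) * b ≤ (1 / (j : ℝ) ^ 2) * ((j : ℝ) ^ 2 / 2) :=
            mul_le_mul_of_nonneg_left h3 (by positivity)
        _ = 1 / 2 := by field_simp
    linarith
  -- Cauchy-Schwarz
  have h5 : Ex (a ^ n) (B.indicator fun _ => 1) ≤ ∑ h ∈ hBf.toFinset, (a ^ n).coeff h := by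
    rw [Ex_eq_sum]
    have e1 : ∑ h ∈ (a ^ n).coeff.support, (a ^ n).coeff h * B.indicator (fun _ => (1 : ℝ)) h =
        ∑ h ∈ (a ^ n).coeff.support.filter (fun h => h ∈ B), (a ^ n).coeff h := by
      rw [Finset.sum_filter]
      refine Finset.sum_congr rfl fun h _ => ?_
      by_cases hh : h ∈ B <;> simp [hh]
    rw [e1]
    refine Finset.sum_le_sum_of_subset_of_nonneg ?_ fun h _ _ => (hp.pow n).nonneg h
    intro h hh
    rw [Finset.mem_filter] at hh
    exact hBf.mem_toFinset.mpr hh.2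
  have h6 : (∑ h ∈ hBf.toFinset, (a ^ n).coeff h) ^ 2 ≤
      hBf.toFinset.card * ∑ h ∈ hBf.toFinset, (a ^ n).coeff h ^ 2 :=
    sq_sum_le_card_mul_sum_sq
  have h7 : ∑ h ∈ hBf.toFinset, (a ^ n).coeff h ^ 2 ≤ cN a n := by
    rw [cN_eq_sum a n (s := (a ^ n).coeff.support ∪ hBf.toFinset) Finset.subset_union_left]
    exact Finset.sum_le_sum_of_subset_of_nonneg Finset.subset_union_right fun h _ _ => sq_nonneg _
  have h8 : (hBf.toFinset.card : ℝ) ≤ (A : ℝ) ^ (j + 2) := by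
    have := hgr j
    rw [Set.ncard_eq_toFinset_card _ hBf] at this
    exact_mod_cast this
  have h9 : (1 / 4 : ℝ) ≤ (A : ℝ) ^ (j + 2) * (1 - ε) ^ n := by
    have e0 : (1 / 2 : ℝ) ≤ ∑ h ∈ hBf.toFinset, (a ^ n).coeff h := h4.trans h5
    have e1 : (1 / 2 : ℝ) ^ 2 ≤ (∑ h ∈ hBf.toFinset, (a ^ n).coeff h) ^ 2 :=
      pow_le_pow_left₀ (by norm_num) e0 2
    have e2 : (hBf.toFinset.card : ℝ) * ∑ h ∈ hBf.toFinset, (a ^ n).coeff h ^ 2 ≤
        (A : ℝ) ^ (j + 2) * (1 - ε) ^ n :=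
      mul_le_mul h8 (h7.trans (hcn n)) (Finset.sum_nonneg fun _ _ => sq_nonneg _) (by positivity)
    calc (1 / 4 : ℝ) = (1 / 2) ^ 2 := by norm_num
      _ ≤ _ := e1
      _ ≤ _ := h6
      _ ≤ _ := e2
  have h10 : (A : ℝ) ^ (j + 2) * (1 - ε) ^ n ≤ (A : ℝ) ^ 2 * (1 / 2) ^ j := by
    calc (A : ℝ) ^ (j + 2) * (1 - ε) ^ n = (A : ℝ) ^ 2 * (A * (1 - ε) ^ K) ^ j := by
          rw [hn, pow_mul, mul_pow]; ring
      _ ≤ (A : ℝ) ^ 2 * (1 / 2) ^ j :=
          mul_le_mul_of_nonneg_left (pow_le_pow_left₀ (by positivity) hAK j) (by positivity)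
  have h11 : (1 / 2 : ℝ) ^ j ≤ (1 / 2) ^ J :=
    pow_le_pow_of_le_one (by norm_num) (by norm_num) hjJ
  have h12 : (A : ℝ) ^ 2 * (1 / 2) ^ j < 1 / 4 := by
    calc (A : ℝ) ^ 2 * (1 / 2) ^ j ≤ (A : ℝ) ^ 2 * (1 / 2) ^ J :=
          mul_le_mul_of_nonneg_left h11 (by positivity)
      _ < (A : ℝ) ^ 2 * (1 / (4 * (A : ℝ) ^ 2)) := mul_lt_mul_of_pos_left hJ (by positivity)
      _ = 1 / 4 := by field_simp
  linarith

end CTOR
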