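import Pool.Agent.CTOR.Defs

/-!
# CTOR, block D: invariant means and their Hilbert space (steps 3 and 4.3)
-/

namespace CTOR

section Bdd
variable {H : Type*}

theorem Bdd.add {f g : H → ℝ} (hf : Bdd f) (hg : Bdd g) : Bdd (fun h => f h + g h) := by
  obtain ⟨C, hC⟩ := hf; obtain ⟨D, hD⟩ := hg
  exact ⟨C + D, fun h => (abs_add_le _ _).trans (add_le_add (hC h) (hD h))⟩

theorem Bdd.mul {f g : H → ℝ} (hf : Bdd f) (hg : Bdd g) : Bdd (fun h => f h * g h) := by
  obtain ⟨C, hC⟩ := hf; obtain ⟨D, hD⟩ := hg
  refine ⟨C * D, fun h => ?_⟩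
  rw [abs_mul]
  exact mul_le_mul (hC h) (hD h) (abs_nonneg _) ((abs_nonneg _).trans (hC h))

theorem bdd_const (c : ℝ) : Bdd (fun _ : H => c) := ⟨|c|, fun _ => le_rfl⟩

theorem Bdd.smul {f : H → ℝ} (hf : Bdd f) (c : ℝ) : Bdd (fun h => c * f h) :=
  (bdd_const c).mul hf

theorem Bdd.neg {f : H → ℝ} (hf : Bdd f) : Bdd (fun h => - f h) := by
  obtain ⟨C, hC⟩ := hf
  exact ⟨C, fun h => by rw [abs_neg]; exact hC h⟩

theorem Bdd.sub {f g : H → ℝ} (hf : Bdd f) (hg : Bdd g) : Bdd (fun h => f h - g h) := by
  simpa [sub_eq_add_neg] using hf.add hg.neg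

theorem Bdd.sq {f : H → ℝ} (hf : Bdd f) : Bdd (fun h => f h ^ 2) := by
  simpa [pow_two] using hf.mul hf

theorem Bdd.comp {K : Type*} {f : H → ℝ} (hf : Bdd f) (s : K → H) : Bdd (fun k => f (s k)) := by
  obtain ⟨C, hC⟩ := hf
  exact ⟨C, fun k => hC _⟩

theorem Bdd.sum {ι : Type*} (s : Finset ι) {f : ι → H → ℝ} (hf : ∀ i ∈ s, Bdd (f i)) :
    Bdd (fun h => ∑ i ∈ s, f i h) := by
  classical
  induction s using Finset.induction_on with
  | empty => simpa using bdd_const (H := H) 0
  | insert a s ha ih =>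
    have := (hf a (Finset.mem_insert_self _ _)).add
      (ih fun i hi => hf i (Finset.mem_insert_of_mem hi))
    simpa [Finset.sum_insert ha] using this

theorem bdd_of_le {f : H → ℝ} {a b : ℝ} (ha : ∀ h, a ≤ f h) (hb : ∀ h, f h ≤ b) : Bdd f :=
  ⟨max |a| |b|, fun h => abs_le_max_abs_abs (ha h) (hb h)⟩

end Bdd

namespace InvMean
variable {H : Type*} [Group H] (M : InvMean H)

theorem const (c : ℝ) : M.m (fun _ => c) = c := by
  have := M.smul c (fun _ => 1) (bdd_const 1)
  simpa [M.one] using this

theorem zero : M.m (fun _ => 0) = 0 := M.const 0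

theorem neg {f : H → ℝ} (hf : Bdd f) : M.m (fun h => - f h) = - M.m f := by
  have := M.smul (-1) f hf
  simpa using this

theorem sub {f g : H → ℝ} (hf : Bdd f) (hg : Bdd g) :
    M.m (fun h => f h - g h) = M.m f - M.m g := by
  have := M.add f (fun h => - g h) hf hg.neg
  rw [M.neg hg] at this
  simpa [sub_eq_add_neg] using this

theorem mono {f g : H → ℝ} (hf : Bdd f) (hg : Bdd g) (h : ∀ x, f x ≤ g x) : M.m f ≤ M.m g := by
  have h1 := M.nonneg (fun x => g x - f x) (hg.sub hf) fun x => sub_nonneg.mpr (h x)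
  rw [M.sub hg hf] at h1
  linarith

theorem abs_le {f : H → ℝ} {C : ℝ} (hf : ∀ h, |f h| ≤ C) : |M.m f| ≤ C := by
  have hb : Bdd f := ⟨C, hf⟩
  rw [_root_.abs_le]
  constructor
  · have := M.mono (bdd_const (-C)) hb fun h => (_root_.abs_le.mp (hf h)).1
    rwa [M.const] at this
  · have := M.mono hb (bdd_const C) fun h => (_root_.abs_le.mp (hf h)).2
    rwa [M.const] at this

theorem sum {ι : Type*} (s : Finset ι) {f : ι → H → ℝ} (hf : ∀ i ∈ s, Bdd (f i)) :
    M.m (fun h => ∑ i ∈ s, f i h) = ∑ i ∈ s, M.m (f i) := by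
  classical
  induction s using Finset.induction_on with
  | empty => simpa using M.zero
  | insert a s ha ih =>
    have h1 := ih fun i hi => hf i (Finset.mem_insert_of_mem hi)
    have h2 := M.add (f a) (fun h => ∑ i ∈ s, f i h) (hf a (Finset.mem_insert_self _ _))
      (Bdd.sum s fun i hi => hf i (Finset.mem_insert_of_mem hi))
    simp only [Finset.sum_insert ha]
    rw [h2, h1]

/-- If `|f| ≤ C` and `f = 0` outside a set of mean `0`, then `m f = 0`. -/
theorem eq_zero_of_null {f : H → ℝ} (hf : Bdd f) {A : Set H}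
    (hA : M.m (A.indicator fun _ => 1) = 0) (h0 : ∀ h, h ∉ A → f h = 0) : M.m f = 0 := by
  classical
  obtain ⟨C, hC⟩ := hf
  have hC0 : 0 ≤ C := (abs_nonneg _).trans (hC 1)
  have hi : Bdd (A.indicator fun _ => (1 : ℝ)) := by
    refine bdd_of_le (a := 0) (b := 1) (fun h => ?_) fun h => ?_ <;>
    by_cases hh : h ∈ A <;> simp [hh]
  have h1 : ∀ h, |f h| ≤ C * A.indicator (fun _ => (1 : ℝ)) h := by
    intro h
    by_cases hh : h ∈ A
    · simpa [hh] using hC h
    · simp [h0 h hh, hh]
  have h2 : M.m (fun h => C * A.indicator (fun _ => (1 : ℝ)) h) = 0 := by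
    rw [M.smul _ _ hi, hA, mul_zero]
  have hb : Bdd f := ⟨C, hC⟩
  have h3 := M.mono hb (hi.smul C) fun h => (le_abs_self _).trans (h1 h)
  have h4 := M.mono (hi.smul C).neg hb fun h => by
    have := h1 h
    have := neg_abs_le (f h)
    show -(C * A.indicator (fun _ => (1 : ℝ)) h) ≤ f h
    linarith
  rw [M.neg (hi.smul C)] at h4
  linarith [h2 ▸ h3, h2 ▸ h4]

end InvMean

/-! ### The Hilbert space of a mean -/

section Hilb
variable {H : Type*} [Group H]

/-- The space of bounded functions. -/
def bddSub (H : Type*) : Submodule ℝ (H → ℝ) where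
  carrier := {f | Bdd f}
  add_mem' := fun hf hg => hf.add hg
  zero_mem' := bdd_const 0
  smul_mem' := fun c _ hf => hf.smul c

/-- The bounded functions with the semi-inner product given by the mean. -/
def PreH (_M : InvMean H) : Type _ := bddSub H

variable (M : InvMean H)

instance : AddCommGroup (PreH M) := inferInstanceAs (AddCommGroup (bddSub H))

noncomputable instance : Module ℝ (PreH M) := inferInstanceAs (Module ℝ (bddSub H))

/-- The function underlying an element of `PreH M`. -/
def PreH.fn {M : InvMean H} (a : PreH M) : H → ℝ := a.1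

theorem PreH.bdd {M : InvMean H} (a : PreH M) : Bdd a.fn := a.2

theorem PreH.fn_add {M : InvMean H} (a b : PreH M) : (a + b).fn = fun h => a.fn h + b.fn h := rfl

theorem PreH.fn_smul {M : InvMean H} (c : ℝ) (a : PreH M) : (c • a).fn = fun h => c * a.fn h := rfl

/-- The core of the semi-inner product. -/
@[instance_reducible] noncomputable def preCore : PreInnerProductSpace.Core ℝ (PreH M) where
  inner a b := M.m (fun h => a.fn h * b.fn h)
  conj_inner_symm a b := by simp [mul_comm]
  re_inner_nonneg a := by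
    simpa using M.nonneg _ (a.bdd.mul a.bdd) fun h => mul_self_nonneg _
  add_left a b c := by
    show M.m (fun h => (a + b).fn h * c.fn h) = _
    rw [PreH.fn_add]
    have := M.add (fun h => a.fn h * c.fn h) (fun h => b.fn h * c.fn h) (a.bdd.mul c.bdd)
      (b.bdd.mul c.bdd)
    rw [← this]
    congr 1
    ext h; ring
  smul_left a b r := by
    show M.m (fun h => (r • a).fn h * b.fn h) = _
    rw [PreH.fn_smul]
    have := M.smul r (fun h => a.fn h * b.fn h) (a.bdd.mul b.bdd)
    simp only [conj_trivial]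
    rw [← this]
    congr 1
    ext h; ring

noncomputable instance : SeminormedAddCommGroup (PreH M) :=
  @InnerProductSpace.Core.toSeminormedAddCommGroup ℝ (PreH M) _ _ _ (preCore M)

noncomputable instance : InnerProductSpace ℝ (PreH M) := InnerProductSpace.ofCore (preCore M)

theorem PreH.inner_eq {M : InvMean H} (a b : PreH M) :
    inner ℝ a b = M.m (fun h => a.fn h * b.fn h) := rfl

/-- The element of `PreH M` of a bounded function. -/
def mkP (f : H → ℝ) (hf : Bdd f) : PreH M := (⟨f, hf⟩ : bddSub H)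

/-- The Hilbert space of the mean. -/
abbrev HM : Type _ := UniformSpace.Completion (PreH M)

/-- The class of a bounded function in the Hilbert space (`0` for unbounded functions). -/
noncomputable def cls (f : H → ℝ) : HM M := by
  classical
  exact if hf : Bdd f then (mkP M f hf : HM M) else 0

theorem cls_of_bdd {f : H → ℝ} (hf : Bdd f) : cls M f = (mkP M f hf : HM M) := by
  simp [cls, hf]

theorem inner_cls {f g : H → ℝ} (hf : Bdd f) (hg : Bdd g) :
    inner ℝ (cls M f) (cls M g) = M.m (fun h => f h * g h) := by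
  rw [cls_of_bdd M hf, cls_of_bdd M hg, UniformSpace.Completion.inner_coe]
  rfl

theorem cls_add {f g : H → ℝ} (hf : Bdd f) (hg : Bdd g) :
    cls M (fun h => f h + g h) = cls M f + cls M g := by
  rw [cls_of_bdd M hf, cls_of_bdd M hg, cls_of_bdd M (hf.add hg), ← UniformSpace.Completion.coe_add]
  rfl

theorem cls_smul {f : H → ℝ} (hf : Bdd f) (c : ℝ) :
    cls M (fun h => c * f h) = c • cls M f := by
  rw [cls_of_bdd M hf, cls_of_bdd M (hf.smul c), ← UniformSpace.Completion.coe_smul]
  rfl

theorem cls_neg {f : H → ℝ} (hf : Bdd f) : cls M (fun h => - f h) = - cls M f := by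
  have := cls_smul M hf (-1)
  simpa using this

theorem cls_sub {f g : H → ℝ} (hf : Bdd f) (hg : Bdd g) :
    cls M (fun h => f h - g h) = cls M f - cls M g := by
  have := cls_add M hf hg.neg
  rw [cls_neg M hg] at this
  simpa [sub_eq_add_neg] using this

theorem cls_zero : cls M (fun _ => 0) = 0 := by
  have := cls_smul M (bdd_const (H := H) 0) 0
  simpa using this

theorem norm_cls_sq {f : H → ℝ} (hf : Bdd f) : ‖cls M f‖ ^ 2 = M.m (fun h => f h ^ 2) := by
  rw [← real_inner_self_eq_norm_sq, inner_cls M hf hf]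
  congr 1
  ext h; ring

theorem norm_cls_le {f : H → ℝ} {C : ℝ} (hf : ∀ h, |f h| ≤ C) : ‖cls M f‖ ≤ C := by
  have hC : 0 ≤ C := (abs_nonneg _).trans (hf 1)
  have hb : Bdd f := ⟨C, hf⟩
  have h1 := norm_cls_sq M hb
  have h2 : M.m (fun h => f h ^ 2) ≤ C ^ 2 := by
    have := M.mono hb.sq (bdd_const (C ^ 2)) fun h => sq_le_sq' (abs_le.mp (hf h)).1
      (abs_le.mp (hf h)).2
    rwa [M.const] at this
  exact le_of_sq_le_sq (by rw [h1]; exact h2) hC

/-- If `e ≥ 0` is bounded and has mean `0`, its class is `0`. -/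
theorem cls_eq_zero {e : H → ℝ} (he : Bdd e) (h0 : ∀ h, 0 ≤ e h) (hm : M.m e = 0) :
    cls M e = 0 := by
  obtain ⟨C, hC⟩ := he
  have he : Bdd e := ⟨C, hC⟩
  have h1 := norm_cls_sq M he
  have h2 : M.m (fun h => e h ^ 2) ≤ 0 := by
    have := M.mono he.sq (he.smul C) fun h => by
      have h3 := h0 h
      have h4 := (abs_le.mp (hC h)).2
      nlinarith
    rwa [M.smul C e he, hm, mul_zero] at this
  have h3 : ‖cls M e‖ ^ 2 ≤ 0 := by rw [h1]; exact h2
  have h4 : ‖cls M e‖ = 0 := by
    have := sq_nonneg ‖cls M e‖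
    exact pow_eq_zero_iff (two_ne_zero) |>.mp (le_antisymm h3 this)
  exact norm_eq_zero.mp h4

/-- The left translation on bounded functions. -/
noncomputable def shiftPre (g : H) : PreH M →ₗ[ℝ] PreH M where
  toFun a := (⟨fun h => a.fn (g⁻¹ * h), a.bdd.comp _⟩ : bddSub H)
  map_add' _ _ := rfl
  map_smul' _ _ := rfl

theorem norm_shiftPre (g : H) (a : PreH M) : ‖shiftPre M g a‖ = ‖a‖ := by
  have h1 : ‖shiftPre M g a‖ ^ 2 = ‖a‖ ^ 2 := by
    rw [← real_inner_self_eq_norm_sq, ← real_inner_self_eq_norm_sq, PreH.inner_eq, PreH.inner_eq]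
    exact M.inv g (fun h => a.fn h * a.fn h) (a.bdd.mul a.bdd)
  exact (pow_left_inj₀ (norm_nonneg _) (norm_nonneg _) two_ne_zero).mp h1

/-- The left translation as a continuous linear map. -/
noncomputable def shiftCL (g : H) : PreH M →L[ℝ] PreH M :=
  (shiftPre M g).mkContinuous 1 fun a => by rw [norm_shiftPre, one_mul]

theorem shiftCL_apply (g : H) (a : PreH M) : shiftCL M g a = shiftPre M g a := rfl

/-- The left translation on the Hilbert space. -/
noncomputable def shiftC (g : H) : HM M →L[ℝ] HM M := (shiftCL M g).completion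

theorem shiftC_coe (g : H) (a : PreH M) : shiftC M g (a : HM M) = (shiftPre M g a : HM M) := by
  rw [shiftC, ContinuousLinearMap.completion_apply_coe]
  rfl

theorem norm_shiftC (g : H) (x : HM M) : ‖shiftC M g x‖ = ‖x‖ := by
  induction x using UniformSpace.Completion.induction_on with
  | hp => exact isClosed_eq (by fun_prop) continuous_norm
  | ih a => rw [shiftC_coe, UniformSpace.Completion.norm_coe, norm_shiftPre,
      UniformSpace.Completion.norm_coe]

theorem shiftC_mul (g h : H) (x : HM M) : shiftC M (g * h) x = shiftC M g (shiftC M h x) := by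
  induction x using UniformSpace.Completion.induction_on with
  | hp => exact isClosed_eq (by fun_prop) (by fun_prop)
  | ih a =>
    rw [shiftC_coe, shiftC_coe, shiftC_coe]
    congr 1
    apply Subtype.ext
    funext k
    show a.fn ((g * h)⁻¹ * k) = a.fn (h⁻¹ * (g⁻¹ * k))
    rw [mul_inv_rev, mul_assoc]

theorem shiftC_one (x : HM M) : shiftC M 1 x = x := by
  induction x using UniformSpace.Completion.induction_on with
  | hp => exact isClosed_eq (by fun_prop) (by fun_prop)
  | ih a =>
    rw [shiftC_coe]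
    congr 1
    apply Subtype.ext
    funext k
    show a.fn ((1 : H)⁻¹ * k) = a.fn k
    rw [inv_one, one_mul]

/-- The isometric representation of `H` on the Hilbert space of the mean. -/
noncomputable def rep : H →* (HM M ≃ₗᵢ[ℝ] HM M) where
  toFun g :=
    { toFun := shiftC M g
      map_add' := map_add _
      map_smul' := fun c x => map_smul _ c x
      invFun := shiftC M g⁻¹
      left_inv := fun x => by
        show shiftC M g⁻¹ (shiftC M g x) = x
        rw [← shiftC_mul, inv_mul_cancel, shiftC_one]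
      right_inv := fun x => by
        show shiftC M g (shiftC M g⁻¹ x) = x
        rw [← shiftC_mul, mul_inv_cancel, shiftC_one]
      norm_map' := norm_shiftC M g }
  map_one' := by ext x; exact shiftC_one M x
  map_mul' g h := by ext x; exact shiftC_mul M g h x

theorem rep_cls (g : H) {f : H → ℝ} (hf : Bdd f) :
    rep M g (cls M f) = cls M (fun h => f (g⁻¹ * h)) := by
  rw [cls_of_bdd M hf, cls_of_bdd M (hf.comp _)]
  exact shiftC_coe M g _

end Hilb

end CTOR
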