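import Pool.Agent.CTOR.Proj
import Pool.Agent.CTOR.Cent

/-!
# CTOR A5: minimal invariant convex sets (4.1)
-/

namespace CTOR

open Metric Set

universe u v

variable {X : Type u} [MetricSpace X] [CN X] {H : Type v} [Group H]

/-- Existence of a minimal set. Proof: fix `o1 : X` and `c0` with `o1 ∈ Xc ρ S c0` (`S` finite). Every
nonempty closed convex invariant `C` meets the compact set `Kc = Xc ρ S c0` (`exists_proj`,
`proj_disp`). Zorn (`zorn_superset_nonempty` or `zorn_superset`): the intersection of a chain of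
such sets is nonempty by `IsCompact.nonempty_sInter_of_directedOn_nonempty_isCompact_isClosed` (or
similar) applied to `C ∩ Kc`. -/
theorem exists_min [ProperSpace X] [Nonempty X] (ρ : H →* (X ≃ᵢ X)) {S : Set H} (hS : S.Finite)
    (hb : ∀ c : ℝ, Bornology.IsBounded (Xc ρ S c)) : ∃ X0 : Set X, IsMin ρ X0 := by
  classical
  obtain ⟨o1⟩ := ‹Nonempty X›
  obtain ⟨c0, hc0⟩ := (hS.image (fun s => dist o1 (ρ s o1))).bddAbove
  have hc0' : ∀ s ∈ S, dist o1 (ρ s o1) ≤ c0 := fun s hs => hc0 (Set.mem_image_of_mem _ hs)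
  have hKc : IsCompact (Xc ρ S c0) :=
    Metric.isCompact_of_isClosed_isBounded (isClosed_Xc ρ S c0) (hb c0)
  set 𝒮 : Set (Set X) := {C | C.Nonempty ∧ IsClosed C ∧ GConv C ∧ ∀ g : H, ∀ x ∈ C, ρ g x ∈ C}
    with h𝒮
  -- every member meets the compact set
  have hmeet : ∀ C ∈ 𝒮, (C ∩ Xc ρ S c0).Nonempty := by
    rintro C ⟨hne, hcl, hcv, hinv⟩
    obtain ⟨p, hp, hpz⟩ := exists_proj hcl hcv hne o1
    refine ⟨p, hp, fun s hs => ?_⟩
    refine (proj_disp (ρ s) (hinv s) ?_ hp hpz).trans (hc0' s hs)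
    intro z hz
    have h := hinv s⁻¹ z hz
    rwa [map_inv] at h
  have hchain : ∀ c ⊆ 𝒮, IsChain (· ⊆ ·) c → c.Nonempty → ∃ lb ∈ 𝒮, ∀ s ∈ c, lb ⊆ s := by
    intro c hc hch hcne
    refine ⟨⋂₀ c, ⟨?_, ?_, ?_, ?_⟩, fun s hs => Set.sInter_subset_of_mem hs⟩
    · have : Nonempty c := hcne.to_subtype
      have h1 : (⋂ C : c, ((C : Set X) ∩ Xc ρ S c0)).Nonempty := by
        apply IsCompact.nonempty_iInter_of_directed_nonempty_isCompact_isClosed
        · rintro ⟨A, hA⟩ ⟨B, hB⟩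
          rcases hch.total hA hB with h | h
          · exact ⟨⟨A, hA⟩, fun x hx => hx, fun x hx => ⟨h hx.1, hx.2⟩⟩
          · exact ⟨⟨B, hB⟩, fun x hx => ⟨h hx.1, hx.2⟩, fun x hx => hx⟩
        · rintro ⟨A, hA⟩
          exact hmeet A (hc hA)
        · rintro ⟨A, hA⟩
          exact hKc.inter_left (hc hA).2.1
        · rintro ⟨A, hA⟩
          exact (hc hA).2.1.inter (isClosed_Xc ρ S c0)
      obtain ⟨x, hx⟩ := h1
      refine ⟨x, fun A hA => ?_⟩
      exact (Set.mem_iInter.1 hx ⟨A, hA⟩).1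
    · exact isClosed_sInter fun A hA => (hc hA).2.1
    · intro x hx y hy t h0 h1 A hA
      exact (hc hA).2.2.1 x (hx A hA) y (hy A hA) t h0 h1
    · intro g x hx A hA
      exact (hc hA).2.2.2 g x (hx A hA)
  have huniv : (Set.univ : Set X) ∈ 𝒮 :=
    ⟨⟨o1, trivial⟩, isClosed_univ, fun _ _ _ _ _ _ _ => trivial, fun _ _ _ => trivial⟩
  obtain ⟨X0, -, hmem, hmin⟩ := zorn_superset_nonempty 𝒮 hchain Set.univ huniv
  refine ⟨X0, hmem.1, hmem.2.1, hmem.2.2.1, hmem.2.2.2, ?_⟩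
  intro Y hY hne hcl hcv hinv
  exact subset_antisymm hY (hmin ⟨hne, hcl, hcv, hinv⟩ hY)

/-- On a minimal set every continuous convex invariant function is constant. Proof: for `y ∈ X0`
the set `{x ∈ X0 | f x ≤ f y}` is nonempty, closed, convex, invariant, so equal to `X0`. -/
theorem IsMin.const {ρ : H →* (X ≃ᵢ X)} {X0 : Set X} (h0 : IsMin ρ X0) (f : X → ℝ)
    (hf : ContinuousOn f X0)
    (hc : ∀ x ∈ X0, ∀ y ∈ X0, ∀ t : ℝ, 0 ≤ t → t ≤ 1 → f (pt x y t) ≤ (1 - t) * f x + t * f y)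
    (hi : ∀ g : H, ∀ x ∈ X0, f (ρ g x) = f x) : ∀ x ∈ X0, ∀ y ∈ X0, f x = f y := by
  have key : ∀ x ∈ X0, ∀ y ∈ X0, f x ≤ f y := by
    intro x hx y hy
    have hY : X0 ∩ f ⁻¹' (Set.Iic (f y)) = X0 := by
      apply h0.min
      · exact Set.inter_subset_left
      · exact ⟨y, hy, le_refl (f y)⟩
      · exact hf.preimage_isClosed_of_isClosed h0.closed isClosed_Iic
      · intro a ha b hb t t0 t1
        refine ⟨h0.conv a ha.1 b hb.1 t t0 t1, ?_⟩
        have h1 := hc a ha.1 b hb.1 t t0 t1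
        have h2 : f a ≤ f y := ha.2
        have h3 : f b ≤ f y := hb.2
        show f (pt a b t) ≤ f y
        nlinarith
      · intro g a ha
        refine ⟨h0.inv g a ha.1, ?_⟩
        show f (ρ g a) ≤ f y
        rw [hi g a ha.1]
        exact ha.2
    have hx' : x ∈ X0 ∩ f ⁻¹' (Set.Iic (f y)) := by rw [hY]; exact hx
    exact hx'.2
  exact fun x hx y hy => le_antisymm (key x hx y hy) (key y hy x hx)

end CTOR
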