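import Pool.Agent.CTOR.Defs

/-!
# CTOR A1: projection onto closed convex sets (proper spaces)
-/

namespace CTOR

open Metric Set

variable {X : Type*} [MetricSpace X] [CN X]

/-- Existence of the nearest point with the variational inequality.
Proof: `A` closed nonempty in a proper space: `p` minimises `dist x` on `A`
(`IsClosed.exists_infDist_eq_dist` or compactness of `A ∩ closedBall x R`). For `z ∈ A` and
`0 < t ≤ 1` the point `pt p z t` is in `A`, so by `pt_cn`
`d(x,p)^2 ≤ d(x,pt p z t)^2 ≤ (1-t) d(x,p)^2 + t d(x,z)^2 - t(1-t) d(p,z)^2`; divide by `t` and let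
`t → 0`: `d(x,p)^2 + d(p,z)^2 ≤ d(x,z)^2`. -/
theorem exists_proj [ProperSpace X] {A : Set X} (hA : IsClosed A) (hc : GConv A)
    (hne : A.Nonempty) (x : X) :
    ∃ p ∈ A, ∀ z ∈ A, dist x p ^ 2 + dist p z ^ 2 ≤ dist x z ^ 2 := by
  obtain ⟨p, hp, hpx⟩ := hA.exists_infDist_eq_dist hne x
  refine ⟨p, hp, fun z hz => ?_⟩
  have hmin : ∀ w ∈ A, dist x p ≤ dist x w := fun w hw => by
    rw [← hpx]; exact infDist_le_dist_of_mem hw
  -- the inequality for all t
  have key : ∀ t : ℝ, 0 < t → t ≤ 1 →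
      dist x p ^ 2 + (1 - t) * dist p z ^ 2 ≤ dist x z ^ 2 := by
    intro t t0 t1
    have h1 := hmin _ (hc p hp z hz t t0.le t1)
    have h2 := pt_cn p z x t0.le t1
    have h3 : dist x p ^ 2 ≤ dist x (pt p z t) ^ 2 := pow_le_pow_left₀ dist_nonneg h1 2
    have h4 : t * (dist x p ^ 2 + (1 - t) * dist p z ^ 2) ≤ t * dist x z ^ 2 := by nlinarith
    exact le_of_mul_le_mul_left h4 t0
  by_contra hcon
  push Not at hcon
  -- choose t small
  set e : ℝ := dist x p ^ 2 + dist p z ^ 2 - dist x z ^ 2 with he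
  have he0 : 0 < e := by rw [he]; linarith
  set b : ℝ := dist p z ^ 2 with hb
  have hb0 : 0 ≤ b := sq_nonneg _
  have ht0 : 0 < e / (2 * (b + e)) := by positivity
  have ht1 : e / (2 * (b + e)) ≤ 1 := by
    rw [div_le_one (by positivity)]; linarith
  have h5 := key _ ht0 ht1
  have h6 : e / (2 * (b + e)) * b < e := by
    rw [div_mul_eq_mul_div, div_lt_iff₀ (by positivity)]
    nlinarith
  nlinarith

/-- The projection is 1-Lipschitz. Proof: (Q) with `lam = 1` for `(x, p, q, y)`: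
`d(x,q)^2 + d(p,y)^2 ≤ d(x,p)^2 + d(q,y)^2 + d(p,q)^2 + d(x,y)^2`, and
`d(x,p)^2 + d(p,q)^2 ≤ d(x,q)^2`, `d(y,q)^2 + d(q,p)^2 ≤ d(y,p)^2`. -/
theorem proj_lip {A : Set X} {x y p q : X} (hp : p ∈ A) (hq : q ∈ A)
    (h1 : ∀ z ∈ A, dist x p ^ 2 + dist p z ^ 2 ≤ dist x z ^ 2)
    (h2 : ∀ z ∈ A, dist y q ^ 2 + dist q z ^ 2 ≤ dist y z ^ 2) : dist p q ≤ dist x y := by
  have h := quad x p q y (lam := 1) one_pos
  have a1 := h1 q hq
  have a2 := h2 p hp
  rw [dist_comm q p, dist_comm y p, dist_comm y q] at a2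
  apply sq_le_sq_abs dist_nonneg
  norm_num at h
  linarith

/-- The projection of `x` on an invariant set is displaced by at most `d(x,gx)`.
Proof: `g p` satisfies the variational inequality for `g x` (apply `h1` to `g⁻¹ z ∈ A`);
`proj_lip`. -/
theorem proj_disp {A : Set X} {x p : X} (g : X ≃ᵢ X) (hg : ∀ z ∈ A, g z ∈ A)
    (hg' : ∀ z ∈ A, g.symm z ∈ A) (hp : p ∈ A)
    (h1 : ∀ z ∈ A, dist x p ^ 2 + dist p z ^ 2 ≤ dist x z ^ 2) : dist p (g p) ≤ dist x (g x) := by
  apply proj_lip hp (hg p hp) h1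
  intro z hz
  have h := h1 _ (hg' z hz)
  have e1 : dist (g x) (g p) = dist x p := g.dist_eq x p
  have e2 : dist (g p) z = dist p (g.symm z) := by
    conv_lhs => rw [← g.apply_symm_apply z]
    exact g.dist_eq _ _
  have e3 : dist (g x) z = dist x (g.symm z) := by
    conv_lhs => rw [← g.apply_symm_apply z]
    exact g.dist_eq _ _
  rw [e1, e2, e3]
  exact h

end CTOR
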