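import Pool.Agent.CTOR.Defs

/-!
# CTOR E1: isometries with attained positive translation length (5.1, 5.2)

`z : X ≃ᵢ X`, `τ > 0`, `τ ≤ d(x, z x)` for all `x`, `Mn z τ = {x | d(x, z x) = τ}`.
-/

namespace CTOR

open Metric Set Filter Topology

universe u

variable {X : Type u} [MetricSpace X] [CN X]

/-- `τ` is a positive lower bound of the displacement of `z`. -/
structure TL (z : X ≃ᵢ X) (τ : ℝ) : Prop where
  pos : 0 < τ
  le : ∀ x : X, τ ≤ dist x (z x)

/-- The set of points with displacement exactly `τ`. -/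
def Mn (z : X ≃ᵢ X) (τ : ℝ) : Set X := {x | dist x (z x) = τ}

/-- `B(x,y) = (d(x,zy)^2 - d(x,y)^2 - τ^2) / (2 τ)`. -/
noncomputable def Bf (z : X ≃ᵢ X) (τ : ℝ) (x y : X) : ℝ :=
  (dist x (z y) ^ 2 - dist x y ^ 2 - τ ^ 2) / (2 * τ)

variable {z : X ≃ᵢ X} {τ : ℝ}

omit [CN X] in
theorem Mn_closed (z : X ≃ᵢ X) (τ : ℝ) : IsClosed (Mn z τ) := by
  unfold Mn
  exact isClosed_eq (by fun_prop) continuous_const

/-- Convex: the displacement is convex and at least `τ`. -/
theorem Mn_conv (h : TL z τ) : GConv (Mn z τ) := by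
  intro x hx y hy t h0 h1
  have hx' : dist x (z x) = τ := hx
  have hy' : dist y (z y) = τ := hy
  show dist (pt x y t) (z (pt x y t)) = τ
  apply le_antisymm _ (h.le _)
  rw [map_pt (fun a b => z.dist_eq a b) x y h0 h1]
  have := dist_pt_pt x y (z x) (z y) h0 h1
  rw [hx', hy'] at this
  linarith

omit [CN X] in
/-- Invariant under isometries commuting with `z`. -/
theorem Mn_inv {g : X ≃ᵢ X} (hg : g * z = z * g) {x : X} (hx : x ∈ Mn z τ) : g x ∈ Mn z τ := by
  have hx' : dist x (z x) = τ := hx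
  show dist (g x) (z (g x)) = τ
  have h1 : z (g x) = g (z x) := by
    rw [← IsometryEquiv.mul_apply, ← hg]; rfl
  rw [h1, g.dist_eq, hx']

omit [CN X] in
theorem Mn_zpow {x : X} (hx : x ∈ Mn z τ) (k : ℤ) : (z ^ k) x ∈ Mn z τ :=
  Mn_inv ((Commute.refl z).zpow_left k) hx

/-- `d(x, z^2 x) ≥ 2τ`: the midpoints `m` of `[x,zx]` and `z m` of `[zx,z^2x]` are at distance at
least `τ` and at most `d(x,z^2x)/2` (`dist_pt_pt_same` at the common point `z x`). -/
theorem dist_sq_ge (h : TL z τ) (x : X) : 2 * τ ≤ dist x ((z ^ 2) x) := by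
  have h2 : (z ^ 2) x = z (z x) := by rw [pow_two]; rfl
  have e0 : (0 : ℝ) ≤ 1 / 2 := by norm_num
  have e1 : (1 / 2 : ℝ) ≤ 1 := by norm_num
  have h3 : z (pt x (z x) (1 / 2)) = pt (z x) (z (z x)) (1 / 2) :=
    map_pt (fun a b => z.dist_eq a b) x (z x) e0 e1
  have h4 : pt x (z x) (1 / 2) = pt (z x) x (1 / 2) := by
    rw [pt_symm x (z x) e0 e1]; norm_num
  have h5 := h.le (pt x (z x) (1 / 2))
  rw [h3, h4] at h5
  have h6 := dist_pt_pt_same (z x) x (z (z x)) e0 e1
  rw [h2]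
  linarith

omit [CN X] in
theorem dist_pow_le {x : X} (hx : x ∈ Mn z τ) (k : ℕ) : dist x ((z ^ k) x) ≤ k * τ := by
  have hx' : dist x (z x) = τ := hx
  induction k with
  | zero => simp
  | succ k ih =>
    have h1 : (z ^ (k + 1)) x = (z ^ k) (z x) := by rw [pow_succ]; rfl
    have h2 := dist_triangle x ((z ^ k) x) ((z ^ (k + 1)) x)
    rw [h1, (z ^ k).dist_eq, hx'] at h2
    rw [h1]
    push_cast
    linarith

/-- `d(x, z^k x) = k τ` for `k : ℕ`: strong induction with `quad x (z x) (z^k x) (z^(k+1) x)`,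
`lam = (k+1)/(k-1)`, and the triangle inequality. -/
theorem dist_pow (h : TL z τ) {x : X} (hx : x ∈ Mn z τ) (k : ℕ) :
    dist x ((z ^ k) x) = k * τ := by
  have hp := h.pos
  have hx' : dist x (z x) = τ := hx
  have key : ∀ k : ℕ, dist x ((z ^ (k + 1)) x) = (k + 1 : ℕ) * τ ∧
      dist x ((z ^ (k + 2)) x) = (k + 2 : ℕ) * τ := by
    intro k
    induction k with
    | zero =>
      refine ⟨by simpa using hx', ?_⟩
      apply le_antisymm (dist_pow_le hx 2)
      have := dist_sq_ge h x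
      simpa using this
    | succ k ih =>
      refine ⟨ih.2, ?_⟩
      apply le_antisymm (dist_pow_le hx (k + 1 + 2))
      -- `quad` with `a = x, b = z x, c = z^(k+2) x, d = z^(k+3) x`, `lam = (k+3)/(k+1)`
      have hk1 : (0 : ℝ) < (k : ℝ) + 1 := by positivity
      have hk3 : (0 : ℝ) < (k : ℝ) + 3 := by positivity
      have g := quad x (z x) ((z ^ (k + 2)) x) ((z ^ (k + 3)) x)
        (lam := ((k : ℝ) + 3) / ((k : ℝ) + 1)) (by positivity)
      have e1 : dist (z x) ((z ^ (k + 3)) x) = dist x ((z ^ (k + 2)) x) := by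
        have : (z ^ (k + 3)) x = z ((z ^ (k + 2)) x) := by
          rw [show k + 3 = (k + 2) + 1 from rfl, pow_succ' z (k + 2)]; rfl
        rw [this, z.dist_eq]
      have e2 : dist ((z ^ (k + 2)) x) ((z ^ (k + 3)) x) = τ := by
        have : (z ^ (k + 3)) x = (z ^ (k + 2)) (z x) := by
          rw [show k + 3 = (k + 2) + 1 from rfl, pow_succ z (k + 2)]; rfl
        rw [this, (z ^ (k + 2)).dist_eq, hx']
      have e3 : dist (z x) ((z ^ (k + 2)) x) = dist x ((z ^ (k + 1)) x) := by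
        have : (z ^ (k + 2)) x = z ((z ^ (k + 1)) x) := by
          rw [show k + 2 = (k + 1) + 1 from rfl, pow_succ' z (k + 1)]; rfl
        rw [this, z.dist_eq]
      rw [e1, e2, e3, hx', ih.1, ih.2] at g
      push_cast at g
      rw [inv_div] at g
      have g2 : 2 * (((k : ℝ) + 2) * τ) ^ 2 - 2 * τ ^ 2 - ((k : ℝ) + 3) * (k + 1) * τ ^ 2 ≤
          ((k : ℝ) + 1) / (k + 3) * dist x ((z ^ (k + 3)) x) ^ 2 := by
        have : ((k : ℝ) + 3) / (k + 1) * (((k : ℝ) + 1) * τ) ^ 2 =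
            ((k : ℝ) + 3) * (k + 1) * τ ^ 2 := by
          field_simp
        rw [this] at g
        linarith
      have g3 : ((k : ℝ) + 3) * ((k : ℝ) + 1) * τ ^ 2 ≤
          ((k : ℝ) + 1) / (k + 3) * dist x ((z ^ (k + 3)) x) ^ 2 := by
        refine le_trans (le_of_eq ?_) g2
        ring
      have g4 : (((k : ℝ) + 3) * τ) ^ 2 ≤ dist x ((z ^ (k + 3)) x) ^ 2 := by
        have h7 := mul_le_mul_of_nonneg_left g3 (a := ((k : ℝ) + 3) / (k + 1)) (by positivity)
        have h8 : ((k : ℝ) + 3) / (k + 1) *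
            (((k : ℝ) + 1) / (k + 3) * dist x ((z ^ (k + 3)) x) ^ 2) =
            dist x ((z ^ (k + 3)) x) ^ 2 := by
          field_simp
        have h9 : ((k : ℝ) + 3) / (k + 1) * (((k : ℝ) + 3) * ((k : ℝ) + 1) * τ ^ 2) =
            (((k : ℝ) + 3) * τ) ^ 2 := by
          field_simp
        linarith
      have g5 := sq_le_sq_abs dist_nonneg g4
      have e4 : (((k + 1 + 2 : ℕ) : ℝ)) = (k : ℝ) + 3 := by push_cast; ring
      rw [e4]
      exact g5
  rcases k with _ | k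
  · simp
  · exact (key k).1

/-- `d(x, z^k x) = |k| τ` for `k : ℤ`. -/
theorem dist_zpow (h : TL z τ) {x : X} (hx : x ∈ Mn z τ) (k : ℤ) :
    dist x ((z ^ k) x) = |(k : ℝ)| * τ := by
  rcases Int.eq_nat_or_neg k with ⟨n, rfl | rfl⟩
  · rw [zpow_natCast, dist_pow h hx n]
    simp
  · have h1 : dist x ((z ^ (-(n : ℤ))) x) = dist x ((z ^ n) x) := by
      have h2 := (z ^ n).dist_eq x ((z ^ (-(n : ℤ))) x)
      have h3 : (z ^ n) ((z ^ (-(n : ℤ))) x) = x := by
        rw [← IsometryEquiv.mul_apply, ← zpow_natCast, ← zpow_add]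
        simp
      rw [h3, dist_comm] at h2
      exact h2.symm
    rw [h1, dist_pow h hx n]
    simp

end CTOR
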