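import Pool.Agent.CTOR.Split1

/-!
# CTOR E1b: the cocycle `Bf` (5.2)
-/

namespace CTOR

open Metric Set Filter Topology

universe u

variable {X : Type u} [MetricSpace X]

variable {z : X ≃ᵢ X} {τ : ℝ}

theorem zpow_add_apply (z : X ≃ᵢ X) (a b : ℤ) (x : X) : (z ^ (a + b)) x = (z ^ a) ((z ^ b) x) := by
  rw [zpow_add]; rfl

theorem dist_zpow_zpow (z : X ≃ᵢ X) (k : ℤ) (x y : X) :
    dist ((z ^ k) x) ((z ^ k) y) = dist x y :=
  (z ^ k).dist_eq x y

theorem dist_zpow_left (z : X ≃ᵢ X) (k : ℤ) (x y : X) :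
    dist ((z ^ k) x) y = dist x ((z ^ (-k)) y) := by
  rw [← dist_zpow_zpow z k x, ← zpow_add_apply]
  simp

variable [CN X]

/-- 5.2: for `x y` in `Mn` and `k : ℤ`, `d(x, z^k y)^2 = k^2 τ^2 + 2 τ B(x,y) k + d(x,y)^2`.
Proof: `q k = d(x,z^k y)^2 - k^2 τ^2` satisfies `q (k+1) + q (k-1) = 2 q k`: `≥` is `pt_cn` at the midpoint
`z^k y` of `z^(k-1) y` and `z^(k+1) y` (`pt_unique`, distance `2τ` by `dist_zpow`), `≤` is
`quad x (z x) (z^(k+1) y) (z^k y)` with `lam = 1`. So `q k = q 0 + k (q 1 - q 0)` by induction in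
both directions. -/
theorem dist_sq_formula (h : TL z τ) {x y : X} (hx : x ∈ Mn z τ) (hy : y ∈ Mn z τ) (k : ℤ) :
    dist x ((z ^ k) y) ^ 2 = k ^ 2 * τ ^ 2 + 2 * τ * Bf z τ x y * k + dist x y ^ 2 := by
  have hp := h.pos
  -- the second difference
  have hrec : ∀ j : ℤ, dist x ((z ^ (j + 1)) y) ^ 2 + dist x ((z ^ (j - 1)) y) ^ 2 =
      2 * dist x ((z ^ j) y) ^ 2 + 2 * τ ^ 2 := by
    intro j
    have e1 : dist ((z ^ (j - 1)) y) ((z ^ j) y) = τ := by
      have h1 : (z ^ j) y = (z ^ (j - 1)) ((z ^ (1 : ℤ)) y) := by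
        rw [← zpow_add_apply]; congr 2; ring
      rw [h1, dist_zpow_zpow, dist_zpow h hy]; simp
    have e2 : dist ((z ^ j) y) ((z ^ (j + 1)) y) = τ := by
      rw [zpow_add_apply, dist_zpow_zpow, dist_zpow h hy]; simp
    have e3 : dist ((z ^ (j - 1)) y) ((z ^ (j + 1)) y) = 2 * τ := by
      have h1 : (z ^ (j + 1)) y = (z ^ (j - 1)) ((z ^ (2 : ℤ)) y) := by
        rw [← zpow_add_apply]; congr 2; ring
      rw [h1, dist_zpow_zpow, dist_zpow h hy]; norm_num
    have e4 : (z ^ j) y = pt ((z ^ (j - 1)) y) ((z ^ (j + 1)) y) (1 / 2) := by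
      apply pt_unique (by norm_num) (by norm_num)
      · rw [e1, e3]; linarith
      · rw [e2, e3]; linarith
    have g1 := pt_cn ((z ^ (j - 1)) y) ((z ^ (j + 1)) y) x (t := 1 / 2) (by norm_num) (by norm_num)
    rw [← e4, e3] at g1
    have g2 := quad x (z x) ((z ^ (j + 1)) y) ((z ^ j) y) one_pos
    have e5 : dist (z x) ((z ^ j) y) = dist x ((z ^ (j - 1)) y) := by
      have h1 : (z ^ j) y = (z ^ (1 : ℤ)) ((z ^ (j - 1)) y) := by
        rw [← zpow_add_apply]; congr 2; ring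
      have h2 : z x = (z ^ (1 : ℤ)) x := by simp
      rw [h1, h2, dist_zpow_zpow]
    have e6 : dist (z x) ((z ^ (j + 1)) y) = dist x ((z ^ j) y) := by
      have h1 : (z ^ (j + 1)) y = (z ^ (1 : ℤ)) ((z ^ j) y) := by
        rw [← zpow_add_apply]; congr 2; ring
      have h2 : z x = (z ^ (1 : ℤ)) x := by simp
      rw [h1, h2, dist_zpow_zpow]
    have e7 : dist x (z x) = τ := hx
    rw [e5, e6, e7, dist_comm ((z ^ (j + 1)) y), e2] at g2
    nlinarith
  -- solve the recursion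
  set q : ℤ → ℝ := fun j => dist x ((z ^ j) y) ^ 2 - (j : ℝ) ^ 2 * τ ^ 2 with hq
  have hq1 : ∀ j, q (j + 1) - q j = q j - q (j - 1) := by
    intro j
    have := hrec j
    simp only [hq]
    push_cast
    linarith
  have hq2 : ∀ j, q (j + 1) - q j = q 1 - q 0 := by
    intro j
    induction j using Int.induction_on with
    | zero => simp
    | succ i ih =>
      have := hq1 (i + 1)
      rw [add_sub_cancel_right] at this
      rw [this, ih]
    | pred i ih =>
      have := hq1 (-i)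
      rw [ih] at this
      have e : (-(i : ℤ) - 1 + 1) = -i := by ring
      rw [e, ← this]
  have hq3 : ∀ j : ℤ, q j = q 0 + j * (q 1 - q 0) := by
    intro j
    induction j using Int.induction_on with
    | zero => simp
    | succ i ih =>
      have := hq2 i
      have h3 : q ((i : ℤ) + 1) = q i + (q 1 - q 0) := by linarith
      rw [h3, ih]; push_cast; ring
    | pred i ih =>
      have := hq2 (-(i : ℤ) - 1)
      have e : (-(i : ℤ) - 1 + 1) = -i := by ring
      rw [e] at this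
      have h3 : q (-(i : ℤ) - 1) = q (-i) - (q 1 - q 0) := by linarith
      rw [h3, ih]; push_cast; ring
  have h1 := hq3 k
  have h2 : q 1 - q 0 = 2 * τ * Bf z τ x y := by
    simp only [hq, Bf]
    simp
    field_simp
    ring
  rw [h2] at h1
  simp only [hq] at h1
  simp at h1
  linarith

theorem Bf_self (h : TL z τ) {x : X} (hx : x ∈ Mn z τ) : Bf z τ x x = 0 := by
  have h1 : dist x (z x) = τ := hx
  unfold Bf
  rw [h1]
  simp

/-- Antisymmetry (compare `dist_sq_formula` for `(x,y,k)` and `(y,x,-k)`). -/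
theorem Bf_symm (h : TL z τ) {x y : X} (hx : x ∈ Mn z τ) (hy : y ∈ Mn z τ) :
    Bf z τ y x = - Bf z τ x y := by
  have h1 := dist_sq_formula h hx hy 1
  have h2 := dist_sq_formula h hy hx (-1)
  have hp := h.pos
  have h3 : dist y ((z ^ (-1 : ℤ)) x) = dist x ((z ^ (1 : ℤ)) y) := by
    rw [dist_comm x, dist_zpow_left]
  rw [h3, h1, dist_comm y x] at h2
  push_cast at h2
  have h4 : 2 * τ * (Bf z τ x y + Bf z τ y x) = 0 := by linarith
  have h5 : Bf z τ x y + Bf z τ y x = 0 := by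
    rcases mul_eq_zero.1 h4 with h | h
    · linarith
    · exact h
  linarith

theorem Bf_le (h : TL z τ) {x y : X} (hx : x ∈ Mn z τ) (hy : y ∈ Mn z τ) :
    Bf z τ x y ≤ dist x y := by
  have h1 := dist_sq_formula h hx hy 1
  have h2 := dist_zpow h hy 1
  have h3 := dist_triangle x y ((z ^ (1 : ℤ)) y)
  have hp := h.pos
  simp at h1 h2 h3
  rw [h2] at h3
  have h4 : dist x (z y) ^ 2 ≤ (dist x y + τ) ^ 2 := pow_le_pow_left₀ dist_nonneg h3 2
  rw [h1] at h4
  have h5 : 2 * τ * (Bf z τ x y) ≤ 2 * τ * dist x y := by nlinarith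
  exact le_of_mul_le_mul_left h5 (by positivity)

/-- `|B| ≤ d` (`tendsto_Bf`, triangle inequality and `dist_zpow`). -/
theorem abs_Bf_le (h : TL z τ) {x y : X} (hx : x ∈ Mn z τ) (hy : y ∈ Mn z τ) :
    |Bf z τ x y| ≤ dist x y := by
  rw [abs_le]
  constructor
  · have := Bf_le h hy hx
    rw [Bf_symm h hx hy, dist_comm] at this
    linarith
  · exact Bf_le h hx hy

/-- `d(x, z^k y) - k τ → B(x,y)` as `k → ∞`. -/
theorem tendsto_Bf_int (h : TL z τ) {x y : X} (hx : x ∈ Mn z τ) (hy : y ∈ Mn z τ) :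
    Tendsto (fun k : ℕ => dist x ((z ^ (k : ℤ)) y) - k * τ) atTop (𝓝 (Bf z τ x y)) := by
  have hp := h.pos
  set B := Bf z τ x y with hB
  have hBd := abs_Bf_le h hx hy
  rw [← hB] at hBd
  have key : ∀ k : ℕ, 0 < k → |(dist x ((z ^ (k : ℤ)) y) - k * τ) - B| ≤
      (dist x y ^ 2 / τ) * (1 / (k : ℝ)) := by
    intro k hk
    have hk' : (0 : ℝ) < k := by exact_mod_cast hk
    have h1 := dist_sq_formula h hx hy k
    push_cast at h1
    rw [← hB] at h1
    set D := dist x ((z ^ (k : ℤ)) y)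
    have hD : 0 ≤ D := dist_nonneg
    have h2 : D ^ 2 - (k * τ + B) ^ 2 = dist x y ^ 2 - B ^ 2 := by rw [h1]; ring
    have h3 : 0 ≤ dist x y ^ 2 - B ^ 2 := by
      have := sq_le_sq' (abs_le.1 hBd).1 (abs_le.1 hBd).2
      linarith
    have h4 : (k : ℝ) * τ + B ≤ D := by
      apply sq_le_sq_abs hD
      linarith
    have h5 : 0 ≤ D - k * τ - B := by linarith
    rw [abs_of_nonneg (by linarith)]
    by_cases h6 : (k : ℝ) * τ + B ≤ 0
    · have h7 : (D - k * τ - B) * (k * τ) ≤ dist x y ^ 2 := by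
        have a1 : 0 < (k : ℝ) * τ := by positivity
        have a2 : B ≤ - ((k : ℝ) * τ) := by linarith
        have a3 : D ≤ dist x y - 0 + 0 := by
          apply sq_le_sq_abs (by simp)
          nlinarith
        have a4 : - B ≤ dist x y := by linarith [(abs_le.1 hBd).1]
        nlinarith [sq_nonneg (dist x y - k * τ)]
      rw [div_mul_div_comm, mul_one, le_div_iff₀ (by positivity)]
      nlinarith
    · push Not at h6
      have h7 : (D - k * τ - B) * (D + (k * τ + B)) = dist x y ^ 2 - B ^ 2 := by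
        rw [← h2]; ring
      have h8 : (D - k * τ - B) * (k * τ) ≤ dist x y ^ 2 := by
        have a1 : 0 < (k : ℝ) * τ := by positivity
        by_cases hB0 : 0 ≤ B
        · have : (D - k * τ - B) * (k * τ) ≤ (D - k * τ - B) * (D + (k * τ + B)) :=
            mul_le_mul_of_nonneg_left (by linarith) h5
          nlinarith
        · push Not at hB0
          by_cases h9 : - B ≤ D
          · have : (D - k * τ - B) * (k * τ) ≤ (D - k * τ - B) * (D + (k * τ + B)) :=
              mul_le_mul_of_nonneg_left (by linarith) h5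
            nlinarith
          · push Not at h9
            nlinarith [(abs_le.1 hBd).1]
      rw [div_mul_div_comm, mul_one, le_div_iff₀ (by positivity)]
      nlinarith
  rw [tendsto_iff_dist_tendsto_zero]
  refine squeeze_zero' (Filter.Eventually.of_forall fun _ => dist_nonneg)
    (g := fun k : ℕ => (dist x y ^ 2 / τ) * (1 / (k : ℝ))) ?_ ?_
  · filter_upwards [Filter.eventually_gt_atTop 0] with k hk
    rw [Real.dist_eq]
    exact key k hk
  · have := tendsto_one_div_atTop_nhds_zero_nat (𝕜 := ℝ)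
    simpa using this.const_mul (dist x y ^ 2 / τ)

/-- `d(x, z^k y) - k τ → B(x,y)` as `k → ∞`. -/
theorem tendsto_Bf (h : TL z τ) {x y : X} (hx : x ∈ Mn z τ) (hy : y ∈ Mn z τ) :
    Tendsto (fun k : ℕ => dist x ((z ^ k) y) - k * τ) atTop (𝓝 (Bf z τ x y)) := by
  have := tendsto_Bf_int h hx hy
  simpa only [zpow_natCast] using this

theorem Bf_sub (h : TL z τ) {x y w : X} (hx : x ∈ Mn z τ) (hy : y ∈ Mn z τ) (hw : w ∈ Mn z τ) :
    Bf z τ x w ≤ Bf z τ x y + Bf z τ y w := by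
  have h1 := (tendsto_Bf_int h hx hw).comp
    (Filter.tendsto_id.const_mul_atTop' (r := 2) two_pos)
  have h2 := (tendsto_Bf_int h hx hy).add (tendsto_Bf_int h hy hw)
  refine le_of_tendsto_of_tendsto' h1 h2 fun k => ?_
  show dist x ((z ^ ((2 * k : ℕ) : ℤ)) w) - ((2 * k : ℕ) : ℝ) * τ ≤
    (dist x ((z ^ (k : ℤ)) y) - k * τ) + (dist y ((z ^ (k : ℤ)) w) - k * τ)
  have h3 : dist ((z ^ (k : ℤ)) y) ((z ^ ((2 * k : ℕ) : ℤ)) w) = dist y ((z ^ (k : ℤ)) w) := by
    have : ((2 * k : ℕ) : ℤ) = (k : ℤ) + k := by push_cast; ring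
    rw [this, zpow_add_apply, dist_zpow_zpow]
  have h4 := dist_triangle x ((z ^ (k : ℤ)) y) ((z ^ ((2 * k : ℕ) : ℤ)) w)
  rw [h3] at h4
  push_cast at h4 ⊢
  linarith

/-- Cocycle: `B(x,w) ≤ B(x,y) + B(y,w)` from `d(x,z^(k+j)w) ≤ d(x,z^k y) + d(y,z^j w)` and
`tendsto_Bf`; equality by antisymmetry. -/
theorem Bf_add (h : TL z τ) {x y w : X} (hx : x ∈ Mn z τ) (hy : y ∈ Mn z τ) (hw : w ∈ Mn z τ) :
    Bf z τ x w = Bf z τ x y + Bf z τ y w := by
  apply le_antisymm (Bf_sub h hx hy hw)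
  have := Bf_sub h hw hy hx
  rw [Bf_symm h hx hw, Bf_symm h hy hw, Bf_symm h hx hy] at this
  linarith

/-- `B` is affine in the second variable. -/
theorem Bf_pt_right (h : TL z τ) {x y w : X} (hx : x ∈ Mn z τ) (hy : y ∈ Mn z τ)
    (hw : w ∈ Mn z τ) {t : ℝ} (h0 : 0 ≤ t) (h1 : t ≤ 1) :
    Bf z τ x (pt y w t) = (1 - t) * Bf z τ x y + t * Bf z τ x w := by
  have hm := Mn_conv h y hy w hw t h0 h1
  have hmap : ∀ k : ℕ, (z ^ (k : ℤ)) (pt y w t) = pt ((z ^ (k : ℤ)) y) ((z ^ (k : ℤ)) w) t :=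
    fun k => map_pt (fun a b => (z ^ (k : ℤ)).dist_eq a b) y w h0 h1
  apply le_antisymm
  · refine le_of_tendsto_of_tendsto' (tendsto_Bf_int h hx hm)
      (((tendsto_Bf_int h hx hy).const_mul (1 - t)).add ((tendsto_Bf_int h hx hw).const_mul t))
      fun k => ?_
    rw [hmap]
    have := dist_pt_le x ((z ^ (k : ℤ)) y) ((z ^ (k : ℤ)) w) h0 h1
    nlinarith
  · have h2 : Bf z τ (pt y w t) x ≤ (1 - t) * Bf z τ y x + t * Bf z τ w x := by
      refine le_of_tendsto_of_tendsto' (tendsto_Bf_int h hm hx)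
        (((tendsto_Bf_int h hy hx).const_mul (1 - t)).add ((tendsto_Bf_int h hw hx).const_mul t))
        fun k => ?_
      have := dist_pt_le ((z ^ (k : ℤ)) x) y w h0 h1
      rw [dist_comm, dist_comm _ y, dist_comm _ w] at this
      nlinarith
    rw [Bf_symm h hx hm, Bf_symm h hx hy, Bf_symm h hx hw] at h2
    linarith

/-- Affine in the first variable: limit of convex functions, and so is `-B(.,y) = B(y,.)`,
which is the limit of `d(y,z^k .) - kτ = d(., z^(-k) y) - kτ`. -/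
theorem Bf_pt (h : TL z τ) {x x' y : X} (hx : x ∈ Mn z τ) (hx' : x' ∈ Mn z τ) (hy : y ∈ Mn z τ)
    {t : ℝ} (h0 : 0 ≤ t) (h1 : t ≤ 1) :
    Bf z τ (pt x x' t) y = (1 - t) * Bf z τ x y + t * Bf z τ x' y := by
  have hm := Mn_conv h x hx x' hx' t h0 h1
  have := Bf_pt_right h hy hx hx' h0 h1
  rw [Bf_symm h hy hm, this, Bf_symm h hx hy, Bf_symm h hx' hy]
  ring

omit [CN X] in
/-- Invariance under isometries commuting with `z`. -/
theorem Bf_inv {g : X ≃ᵢ X} (hg : g * z = z * g) (x y : X) :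
    Bf z τ (g x) (g y) = Bf z τ x y := by
  unfold Bf
  have h1 : z (g y) = g (z y) := by
    rw [← IsometryEquiv.mul_apply, ← hg]; rfl
  rw [h1, g.dist_eq, g.dist_eq]

theorem Bf_zpow_self (h : TL z τ) {x : X} (hx : x ∈ Mn z τ) (k : ℤ) :
    Bf z τ x ((z ^ k) x) = k * τ := by
  have h1 := dist_zpow h hx (k + 1)
  have h2 := dist_zpow h hx k
  have hp := h.pos
  have h3 : z ((z ^ k) x) = (z ^ (k + 1)) x := by
    rw [add_comm, zpow_add_apply]; simp
  unfold Bf
  rw [h3, h1, h2, mul_pow, mul_pow, sq_abs, sq_abs]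
  push_cast
  field_simp
  ring

theorem Bf_zpow_right (h : TL z τ) {x y : X} (hx : x ∈ Mn z τ) (hy : y ∈ Mn z τ) (k : ℤ) :
    Bf z τ x ((z ^ k) y) = Bf z τ x y + k * τ := by
  rw [Bf_add h hx hy (Mn_zpow hy k), Bf_zpow_self h hy]

/-- `B(z^k x, y) = B(x,y) - kτ`. -/
theorem Bf_zpow (h : TL z τ) {x y : X} (hx : x ∈ Mn z τ) (hy : y ∈ Mn z τ) (k : ℤ) :
    Bf z τ ((z ^ k) x) y = Bf z τ x y - k * τ := by
  rw [Bf_symm h hy (Mn_zpow hx k), Bf_zpow_right h hy hx, Bf_symm h hy hx]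
  ring

end CTOR
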