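import Pool.Agent.CTOR.Split1b

/-!
# CTOR E2a: points on the same axis (5.3)
-/

namespace CTOR

open Metric Set

universe u

variable {X : Type u} [MetricSpace X] [CN X]

/-- `x` and `x'` are on the same axis: `d(x,x')^2 = B(x,x')^2`. -/
def SameAx (z : X ≃ᵢ X) (τ : ℝ) (x x' : X) : Prop := dist x x' ^ 2 = Bf z τ x x' ^ 2

variable {z : X ≃ᵢ X} {τ : ℝ}

theorem Bf_sq_le (h : TL z τ) {x y : X} (hx : x ∈ Mn z τ) (hy : y ∈ Mn z τ) :
    Bf z τ x y ^ 2 ≤ dist x y ^ 2 := by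
  have h := abs_Bf_le h hx hy
  exact sq_le_sq' (abs_le.1 h).1 (abs_le.1 h).2

/-- 5.3 (a): for `x ∈ Mn` and real `s` there is `x'` on the same axis with `B(x,x') = s`.
Proof: `k = ⌊s/τ⌋`, `t = s/τ - k`, `x' = pt (z^k x) (z^(k+1) x) t`. By `Bf_pt`, `Bf_zpow`, `Bf_symm`:
`B(x',x) = -(k+t)τ = -s`. `d(x,x') ≤ |s|`: for `k ≥ 0` `d(x,x') ≤ kτ + tτ`, for `k ≤ -1`
`d(x,x') ≤ (-k-1)τ + (1-t)τ`; and `d ≥ |B|`. -/
theorem exists_sameAx (h : TL z τ) {x : X} (hx : x ∈ Mn z τ) (s : ℝ) :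
    ∃ x' ∈ Mn z τ, SameAx z τ x x' ∧ Bf z τ x x' = s := by
  have hp := h.pos
  set k : ℤ := ⌊s / τ⌋ with hk
  set t : ℝ := s / τ - k with ht
  have t0 : 0 ≤ t := by rw [ht, hk]; linarith [Int.floor_le (s / τ)]
  have t1 : t ≤ 1 := by rw [ht, hk]; linarith [Int.lt_floor_add_one (s / τ)]
  have hs : s = (k + t) * τ := by rw [ht]; field_simp; ring
  have ha := Mn_zpow hx k
  have hb := Mn_zpow hx (k + 1)
  have hm := Mn_conv h _ ha _ hb t t0 t1
  have hB : Bf z τ x (pt ((z ^ k) x) ((z ^ (k + 1)) x) t) = s := by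
    rw [Bf_pt_right h hx ha hb t0 t1, Bf_zpow_self h hx, Bf_zpow_self h hx, hs]
    push_cast; ring
  refine ⟨_, hm, ?_, hB⟩
  have h1 := dist_pt_le x ((z ^ k) x) ((z ^ (k + 1)) x) t0 t1
  rw [dist_zpow h hx, dist_zpow h hx] at h1
  have h2 : dist x (pt ((z ^ k) x) ((z ^ (k + 1)) x) t) ≤ |s| := by
    refine h1.trans ?_
    rw [hs, abs_mul, abs_of_pos hp]
    have h3 : (1 - t) * |(k : ℝ)| + t * |((k + 1 : ℤ) : ℝ)| ≤ |(k : ℝ) + t| := by
      rcases le_or_gt 0 k with h | h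
      · have h' : (0 : ℝ) ≤ k := by exact_mod_cast h
        rw [abs_of_nonneg h', abs_of_nonneg (by push_cast; linarith),
          abs_of_nonneg (by linarith)]
        push_cast; linarith
      · have h' : (k : ℝ) + 1 ≤ 0 := by exact_mod_cast h
        rw [abs_of_nonpos (by linarith), abs_of_nonpos (by push_cast; linarith),
          abs_of_nonpos (by linarith)]
        push_cast; linarith
    nlinarith
  have h3 := Bf_sq_le h hx hm
  have h4 : dist x (pt ((z ^ k) x) ((z ^ (k + 1)) x) t) ^ 2 ≤ s ^ 2 := by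
    rw [← sq_abs s]; exact pow_le_pow_left₀ dist_nonneg h2 2
  unfold SameAx
  rw [hB] at h3 ⊢
  linarith

theorem SameAx.symm (h : TL z τ) {x x' : X} (hx : x ∈ Mn z τ) (hx' : x' ∈ Mn z τ)
    (hs : SameAx z τ x x') : SameAx z τ x' x := by
  unfold SameAx at hs ⊢
  rw [Bf_symm h hx hx', dist_comm, hs]
  ring

/-- 5.3 (b), the case `B(x,x') = d(x,x')`. -/
theorem rho_eq_aux (h : TL z τ) {x x' y : X} (hx : x ∈ Mn z τ) (hx' : x' ∈ Mn z τ)
    (hy : y ∈ Mn z τ) (hB : Bf z τ x x' = dist x x') :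
    dist x y ^ 2 - Bf z τ x y ^ 2 = dist x' y ^ 2 - Bf z τ x' y ^ 2 := by
  have hp := h.pos
  set d := dist x x' with hd
  have hd0 : 0 ≤ d := dist_nonneg
  rcases hd0.eq_or_lt with h0 | h0
  · have : x = x' := dist_eq_zero.1 (by rw [← hd, ← h0])
    rw [this]
  have hzx := Mn_zpow hx (-1)
  have hzx' := Mn_zpow hx' 1
  have e1 : dist x (z x') = τ + d := by
    have := dist_sq_formula h hx hx' 1
    simp only [zpow_one, Int.cast_one] at this
    rw [hB, ← hd] at this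
    have h2 : dist x (z x') ^ 2 = (τ + d) ^ 2 := by rw [this]; ring
    exact (pow_left_inj₀ dist_nonneg (by positivity) two_ne_zero).1 h2
  have e2 : dist ((z ^ (-1 : ℤ)) x) x' = τ + d := by
    rw [dist_zpow_left, neg_neg, zpow_one, e1]
  have e3 : dist ((z ^ (-1 : ℤ)) x) x = τ := by
    have := dist_zpow h hx (-1)
    rw [dist_comm, this]; simp
  have e4 : dist x' (z x') = τ := hx'
  have hs : 0 < τ + d := by positivity
  have f1 : x = pt ((z ^ (-1 : ℤ)) x) x' (τ / (τ + d)) := by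
    apply pt_unique (by positivity) (by rw [div_le_one hs]; linarith)
    · rw [e3, e2, div_mul_cancel₀ _ hs.ne']
    · rw [e2, ← hd, sub_mul, div_mul_cancel₀ _ hs.ne']; linarith
  have f2 : x' = pt x (z x') (d / (τ + d)) := by
    apply pt_unique (by positivity) (by rw [div_le_one hs]; linarith)
    · rw [e1, ← hd, div_mul_cancel₀ _ hs.ne']
    · rw [e1, e4, sub_mul, div_mul_cancel₀ _ hs.ne']; linarith
  have g1 := pt_cn ((z ^ (-1 : ℤ)) x) x' y (t := τ / (τ + d)) (by positivity)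
    (by rw [div_le_one hs]; linarith)
  rw [← f1, e2] at g1
  have g2 := pt_cn x (z x') y (t := d / (τ + d)) (by positivity)
    (by rw [div_le_one hs]; linarith)
  rw [← f2, e1] at g2
  have k1 : dist y ((z ^ (-1 : ℤ)) x) ^ 2 = τ ^ 2 + 2 * τ * Bf z τ x y + dist x y ^ 2 := by
    have := dist_sq_formula h hx hy 1
    rw [dist_comm y, dist_zpow_left, neg_neg, this]
    simp
  have k2 : dist y (z x') ^ 2 = τ ^ 2 + 2 * τ * Bf z τ y x' + dist y x' ^ 2 := by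
    have := dist_sq_formula h hy hx' 1
    simp only [zpow_one, Int.cast_one] at this
    rw [this]; ring
  have k3 : Bf z τ y x' = - Bf z τ x y + d := by
    rw [Bf_add h hy hx hx', hB, Bf_symm h hx hy]
  rw [k1] at g1
  rw [k2, k3] at g2
  have q1 : (τ + d) * dist y x ^ 2 ≤ d * (τ ^ 2 + 2 * τ * Bf z τ x y + dist x y ^ 2) +
      τ * dist y x' ^ 2 - τ * d * (τ + d) := by
    have := mul_le_mul_of_nonneg_left g1 hs.le
    have e : (τ + d) * ((1 - τ / (τ + d)) * (τ ^ 2 + 2 * τ * Bf z τ x y + dist x y ^ 2) +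
        τ / (τ + d) * dist y x' ^ 2 - τ / (τ + d) * (1 - τ / (τ + d)) * (τ + d) ^ 2) =
        d * (τ ^ 2 + 2 * τ * Bf z τ x y + dist x y ^ 2) +
      τ * dist y x' ^ 2 - τ * d * (τ + d) := by
      field_simp
      ring
    linarith
  have q2 : (τ + d) * dist y x' ^ 2 ≤ τ * dist y x ^ 2 +
      d * (τ ^ 2 + 2 * τ * (-Bf z τ x y + d) + dist y x' ^ 2) - τ * d * (τ + d) := by
    have := mul_le_mul_of_nonneg_left g2 hs.le
    have e : (τ + d) * ((1 - d / (τ + d)) * dist y x ^ 2 +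
        d / (τ + d) * (τ ^ 2 + 2 * τ * (-Bf z τ x y + d) + dist y x' ^ 2) -
        d / (τ + d) * (1 - d / (τ + d)) * (τ + d) ^ 2) =
        τ * dist y x ^ 2 +
      d * (τ ^ 2 + 2 * τ * (-Bf z τ x y + d) + dist y x' ^ 2) - τ * d * (τ + d) := by
      field_simp
      ring
    linarith
  rw [dist_comm y x] at q1 q2
  rw [dist_comm y x'] at q1 q2
  have r1 : dist x' y ^ 2 = dist x y ^ 2 - 2 * d * Bf z τ x y + d ^ 2 := by
    apply le_antisymm
    · have : τ * dist x' y ^ 2 ≤ τ * (dist x y ^ 2 - 2 * d * Bf z τ x y + d ^ 2) := by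
        nlinarith
      exact le_of_mul_le_mul_left this hp
    · have : τ * (dist x y ^ 2 - 2 * d * Bf z τ x y + d ^ 2) ≤ τ * dist x' y ^ 2 := by
        nlinarith
      exact le_of_mul_le_mul_left this hp
  have r2 : Bf z τ x' y = Bf z τ x y - d := by
    rw [Bf_symm h hy hx', k3]; ring
  rw [r1, r2]
  ring

/-- 5.3 (b): if `x`, `x'` are on the same axis then
`d(x,y)^2 - B(x,y)^2 = d(x',y)^2 - B(x',y)^2` for all `y ∈ Mn`.
Proof: WLOG `d := B(x,x') = d(x,x') ≥ 0` (else exchange `x` and `x'`). By `dist_sq_formula` (`k = 2`)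
`d(z⁻¹x, zx') = d(x,z^2x') = 2τ + d`; `x = pt (z⁻¹x) (zx') (τ/(2τ+d))` and
`x' = pt (z⁻¹x) (zx') ((τ+d)/(2τ+d))` by `pt_unique`. Apply `pt_cn` for `y` at both points with
`d(y,z⁻¹x)^2 = τ^2 - 2τB + X2`, `d(y,zx')^2 = τ^2 + 2τ(B+d) + Y2`, `B = B(y,x)`,
`B(y,x') = B + d`, `X2 = d(x,y)^2`, `Y2 = d(x',y)^2`. With `c1 = Y2 - d^2 - X2 - 2Bd` the first gives
`0 ≤ t c1`, the second `c1 ≤ t' c1` with `0 < t`, `t' < 1`. So `c1 = 0`, the claim. -/
theorem SameAx.rho_eq (h : TL z τ) {x x' y : X} (hx : x ∈ Mn z τ) (hx' : x' ∈ Mn z τ)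
    (hy : y ∈ Mn z τ) (hs : SameAx z τ x x') :
    dist x y ^ 2 - Bf z τ x y ^ 2 = dist x' y ^ 2 - Bf z τ x' y ^ 2 := by
  have h1 : Bf z τ x x' ^ 2 = dist x x' ^ 2 := Eq.symm hs
  rcases sq_eq_sq_iff_eq_or_eq_neg.1 h1 with h2 | h2
  · exact rho_eq_aux h hx hx' hy h2
  · refine (rho_eq_aux h hx' hx hy ?_).symm
    rw [Bf_symm h hx hx', h2, dist_comm]; ring

theorem SameAx.trans (h : TL z τ) {x x' x'' : X} (hx : x ∈ Mn z τ) (hx' : x' ∈ Mn z τ)
    (hx'' : x'' ∈ Mn z τ) (h1 : SameAx z τ x x') (h2 : SameAx z τ x' x'') :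
    SameAx z τ x x'' := by
  have h3 := h1.rho_eq h hx hx' hx''
  unfold SameAx at h2 ⊢
  linarith

end CTOR
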