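import Pool.Agent.CTOR.Split2a

/-!
# CTOR E2b: the transversal `Ys` (5.4)
-/

namespace CTOR

open Metric Set

universe u

variable {X : Type u} [MetricSpace X] [CN X]

variable {z : X ≃ᵢ X} {τ : ℝ}

/-- The transversal through `o`. -/
def Ys (z : X ≃ᵢ X) (τ : ℝ) (o : X) : Set X := {x | x ∈ Mn z τ ∧ Bf z τ x o = 0}

omit [CN X] in
theorem continuous_Bf_left (z : X ≃ᵢ X) (τ : ℝ) (o : X) : Continuous (fun x => Bf z τ x o) := by
  unfold Bf
  fun_prop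

omit [CN X] in
/-- Closed: `Mn` is closed and `x ↦ Bf z τ x o` is continuous. -/
theorem Ys_closed (z : X ≃ᵢ X) (τ : ℝ) (o : X) : IsClosed (Ys z τ o) := by
  have h1 : IsClosed (Mn z τ) := by
    unfold Mn
    exact isClosed_eq (by fun_prop) continuous_const
  exact h1.inter (isClosed_eq (continuous_Bf_left z τ o) continuous_const)

theorem Ys_conv (h : TL z τ) {o : X} (ho : o ∈ Mn z τ) : GConv (Ys z τ o) := by
  intro x hx y hy t h0 h1
  refine ⟨Mn_conv h x hx.1 y hy.1 t h0 h1, ?_⟩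
  rw [Bf_pt h hx.1 hy.1 ho h0 h1, hx.2, hy.2]
  ring

theorem mem_Ys_self (h : TL z τ) {o : X} (ho : o ∈ Mn z τ) : o ∈ Ys z τ o :=
  ⟨ho, Bf_self h ho⟩

/-- On `Ys` the cocycle `B` vanishes. -/
theorem Bf_Ys (h : TL z τ) {o x y : X} (ho : o ∈ Mn z τ) (hx : x ∈ Ys z τ o)
    (hy : y ∈ Ys z τ o) : Bf z τ x y = 0 := by
  rw [Bf_add h hx.1 ho hy.1, hx.2, Bf_symm h hy.1 ho, hy.2]
  ring

/-- Points of `Ys` on the same axis are equal. -/
theorem eq_of_sameAx (h : TL z τ) {o x y : X} (ho : o ∈ Mn z τ) (hx : x ∈ Ys z τ o)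
    (hy : y ∈ Ys z τ o) (hs : SameAx z τ x y) : x = y := by
  unfold SameAx at hs
  rw [Bf_Ys h ho hx hy] at hs
  have : dist x y = 0 := by
    have h2 : dist x y ^ 2 = 0 := by rw [hs]; ring
    exact pow_eq_zero_iff two_ne_zero |>.1 h2
  exact dist_eq_zero.1 this

/-- Every point of `Mn` is on the same axis as a unique point of `Ys`. -/
theorem existsUnique_Ys (h : TL z τ) {o x : X} (ho : o ∈ Mn z τ) (hx : x ∈ Mn z τ) :
    ∃! y : X, y ∈ Ys z τ o ∧ SameAx z τ x y := by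
  obtain ⟨y, hy, h1, h2⟩ := exists_sameAx h hx (Bf z τ x o)
  have hyY : y ∈ Ys z τ o := by
    refine ⟨hy, ?_⟩
    rw [Bf_add h hy hx ho, Bf_symm h hx hy, h2]
    ring
  refine ⟨y, ⟨hyY, h1⟩, ?_⟩
  rintro y' ⟨hy', h3⟩
  exact eq_of_sameAx h ho hy' hyY ((h3.symm h hx hy'.1).trans h hy'.1 hx hyY.1 h1)

/-- For `x`, `y` in `Mn` with points `x'`, `y'` of `Ys` on their axes:
`d(x',y')^2 = d(x,y)^2 - B(x,y)^2`. -/
theorem dist_sq_Ys (h : TL z τ) {o x y x' y' : X} (ho : o ∈ Mn z τ) (hx : x ∈ Mn z τ)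
    (hy : y ∈ Mn z τ) (hx' : x' ∈ Ys z τ o) (hy' : y' ∈ Ys z τ o) (h1 : SameAx z τ x x')
    (h2 : SameAx z τ y y') : dist x' y' ^ 2 = dist x y ^ 2 - Bf z τ x y ^ 2 := by
  have a1 := h1.rho_eq h hx hx'.1 hy
  have a2 := h2.rho_eq h hy hy'.1 hx'.1
  have a3 := Bf_Ys h ho hx' hy'
  rw [a1, dist_comm x' y, Bf_symm h hy hx'.1]
  have a4 := Bf_Ys h ho hy' hx'
  rw [a4, dist_comm y' x'] at a2
  rw [neg_sq, a2]
  ring

end CTOR
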