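import Pool.Agent.CTOR.Split2b

/-!
# CTOR E2c: the action of the centralizer on the transversal (5.4)
-/

namespace CTOR

open Metric Set

universe u

variable {X : Type u} [MetricSpace X] [CN X]

variable {z : X ≃ᵢ X} {τ : ℝ}

/-- The point of `Ys` on the axis of `x`. -/
noncomputable def prY (h : TL z τ) {o : X} (ho : o ∈ Mn z τ) {x : X} (hx : x ∈ Mn z τ) :
    Ys z τ o :=
  ⟨(existsUnique_Ys h ho hx).choose, (existsUnique_Ys h ho hx).choose_spec.1.1⟩

theorem prY_sameAx (h : TL z τ) {o : X} (ho : o ∈ Mn z τ) {x : X} (hx : x ∈ Mn z τ) :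
    SameAx z τ x (prY h ho hx : X) :=
  (existsUnique_Ys h ho hx).choose_spec.1.2

theorem prY_eq (h : TL z τ) {o : X} (ho : o ∈ Mn z τ) {x : X} (hx : x ∈ Mn z τ) (y : Ys z τ o)
    (hs : SameAx z τ x y) : prY h ho hx = y :=
  Subtype.ext (((existsUnique_Ys h ho hx).choose_spec.2 y ⟨y.2, hs⟩).symm)

omit [CN X] in
theorem SameAx.map {g : X ≃ᵢ X} (hg : g * z = z * g) {x y : X} (hs : SameAx z τ x y) :
    SameAx z τ (g x) (g y) := by
  unfold SameAx at hs ⊢
  rw [g.dist_eq, Bf_inv hg, hs]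

theorem SameAx.refl (h : TL z τ) {x : X} (hx : x ∈ Mn z τ) : SameAx z τ x x := by
  unfold SameAx
  rw [Bf_self h hx, dist_self]

/-- **5.4.** The centralizer of `z` (in the isometry group) acts on `Ys`: `Ψ g y` is the point of
`Ys` on the axis of `g y`. Isometric since `d(y,y')^2 = ρ^2(y,y')` on `Ys`. -/
theorem exists_action (h : TL z τ) {o : X} (ho : o ∈ Mn z τ) :
    ∃ Ψ : ↥(Subgroup.centralizer {z} : Subgroup (X ≃ᵢ X)) →* (Ys z τ o ≃ᵢ Ys z τ o),
      ∀ (g : ↥(Subgroup.centralizer {z} : Subgroup (X ≃ᵢ X))) (y : Ys z τ o),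
        SameAx z τ ((g : X ≃ᵢ X) (y : X)) (Ψ g y : X) := by
  have hc : ∀ g : ↥(Subgroup.centralizer {z} : Subgroup (X ≃ᵢ X)),
      (g : X ≃ᵢ X) * z = z * (g : X ≃ᵢ X) := by
    intro g
    exact (Subgroup.mem_centralizer_iff.1 g.2 z rfl).symm
  have hM : ∀ (g : ↥(Subgroup.centralizer {z} : Subgroup (X ≃ᵢ X))) (y : Ys z τ o),
      (g : X ≃ᵢ X) (y : X) ∈ Mn z τ := fun g y => Mn_inv (hc g) y.2.1
  set f : ↥(Subgroup.centralizer {z} : Subgroup (X ≃ᵢ X)) → Ys z τ o → Ys z τ o :=
    fun g y => prY h ho (hM g y) with hf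
  have hs : ∀ (g : ↥(Subgroup.centralizer {z} : Subgroup (X ≃ᵢ X))) (y : Ys z τ o),
      SameAx z τ ((g : X ≃ᵢ X) (y : X)) (f g y : X) :=
    fun g y => prY_sameAx h ho (hM g y)
  have hone : ∀ y, f 1 y = y := by
    intro y
    apply prY_eq
    simpa using SameAx.refl h y.2.1
  have hmul : ∀ g k y, f (g * k) y = f g (f k y) := by
    intro g k y
    apply prY_eq
    have h1 : SameAx z τ ((g : X ≃ᵢ X) ((k : X ≃ᵢ X) (y : X))) ((g : X ≃ᵢ X) (f k y : X)) :=
      (hs k y).map (hc g)
    exact h1.trans h (Mn_inv (hc g) (hM k y)) (hM g _) (f g (f k y)).2.1 (hs g (f k y))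
  have hiso : ∀ g, Isometry (f g) := by
    intro g
    refine Isometry.of_dist_eq fun x y => ?_
    have h1 := dist_sq_Ys h ho (hM g x) (hM g y) (f g x).2 (f g y).2 (hs g x) (hs g y)
    rw [Bf_inv (hc g), Bf_Ys h ho x.2 y.2, (g : X ≃ᵢ X).dist_eq] at h1
    have h2 : dist (f g x : X) (f g y : X) ^ 2 = dist (x : X) (y : X) ^ 2 := by rw [h1]; ring
    exact (pow_left_inj₀ dist_nonneg dist_nonneg two_ne_zero).1 h2
  refine ⟨{ toFun := fun g => { toFun := f g
                                invFun := f g⁻¹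
                                left_inv := fun y => by rw [← hmul, inv_mul_cancel, hone]
                                right_inv := fun y => by rw [← hmul, mul_inv_cancel, hone]
                                isometry_toFun := hiso g }
            map_one' := by ext y; exact congrArg Subtype.val (hone y)
            map_mul' := fun g k => by ext y; exact congrArg Subtype.val (hmul g k y) }, ?_⟩
  exact hs

end CTOR
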