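import Pool.Agent.CTOR.Split2b

/-!
# CTOR E2d: the octahedron number drops (5.5)
-/

namespace CTOR

open Metric Set

universe u

variable {X : Type u} [MetricSpace X] [CN X]

variable {z : X ≃ᵢ X} {τ : ℝ}

/-- 5.5: `Oct n (Ys) → Oct (n+1) X`: add `x'` on the axis of `p` with `B(p,x') = 1`. -/
theorem oct_Ys (h : TL z τ) {o : X} (ho : o ∈ Mn z τ) (n : ℕ) (hn : Oct n (Ys z τ o)) :
    Oct (n + 1) X := by
  obtain ⟨p, x, h1, h2⟩ := hn
  obtain ⟨w, hw, hs, hB⟩ := exists_sameAx h p.2.1 1
  have hpw : dist (p : X) w = 1 := by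
    have : dist (p : X) w ^ 2 = 1 ^ 2 := by rw [hs, hB]
    exact (pow_left_inj₀ dist_nonneg zero_le_one two_ne_zero).1 this
  have hwx : ∀ i, dist w (x i : X) = √2 := by
    intro i
    have a1 := hs.rho_eq h p.2.1 hw (x i).2.1
    have a2 := Bf_Ys h ho p.2 (x i).2
    have a3 : dist (p : X) (x i : X) = 1 := h1 i
    have a4 : Bf z τ w (x i : X) = -1 := by
      rw [Bf_add h hw p.2.1 (x i).2.1, a2, Bf_symm h p.2.1 hw, hB]
      ring
    rw [a2, a3, a4] at a1
    have a5 : dist w (x i : X) ^ 2 = 2 := by linarith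
    rw [← a5, Real.sqrt_sq dist_nonneg]
  refine ⟨p, Fin.cons w (fun i => (x i : X)), ?_, ?_⟩
  · intro i
    refine Fin.cases ?_ (fun j => ?_) i
    · simpa using hpw
    · exact h1 j
  · intro i j hij
    induction i using Fin.cases with
    | zero =>
      induction j using Fin.cases with
      | zero => exact absurd rfl hij
      | succ j => simp [hwx j]
    | succ i =>
      induction j using Fin.cases with
      | zero => simp [dist_comm _ w, hwx i]
      | succ j =>
        have : i ≠ j := fun e => hij (by rw [e])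
        exact h2 i j this

end CTOR
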