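import Pool.Agent.CTOR.Split2c
import Pool.Agent.CTOR.Split2d
import Pool.Agent.CTOR.ExTL

/-!
# CTOR E3b: splitting for geometric actions (5.4)
-/

namespace CTOR

open Metric Set

universe u v

variable {G : Type v} [Group G] {X : Type u} [MetricSpace X] [CN X]

/-- A point on the axis of `y'` can be moved near `y'` by a power of `z`. -/
theorem exists_zpow_near {z : X ≃ᵢ X} {τ : ℝ} (h : TL z τ) {x y : X} (hx : x ∈ Mn z τ)
    (hy : y ∈ Mn z τ) (hs : SameAx z τ x y) : ∃ k : ℤ, dist ((z ^ k) x) y ≤ τ := by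
  have hp := h.pos
  set k : ℤ := ⌊Bf z τ x y / τ⌋ with hk
  refine ⟨k, ?_⟩
  have hkx := Mn_zpow hx k
  have h1 : SameAx z τ x ((z ^ k) x) := by
    unfold SameAx
    rw [Bf_zpow_self h hx, dist_zpow h hx, mul_pow, mul_pow, sq_abs]
  have h2 := SameAx.rho_eq h hx hkx hy h1
  have h3 : dist x y ^ 2 - Bf z τ x y ^ 2 = 0 := by
    unfold SameAx at hs; linarith
  rw [h3, Bf_zpow h hx hy] at h2
  have h4 : 0 ≤ Bf z τ x y - k * τ := by
    have := Int.floor_le (Bf z τ x y / τ)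
    rw [← hk, le_div_iff₀ hp] at this
    linarith
  have h5 : Bf z τ x y - k * τ ≤ τ := by
    have := (Int.lt_floor_add_one (Bf z τ x y / τ)).le
    rw [← hk, div_le_iff₀ hp] at this
    linarith
  have h6 : dist ((z ^ k) x) y ^ 2 = (Bf z τ x y - k * τ) ^ 2 := by linarith
  apply sq_le_sq_abs hp.le
  rw [h6]
  exact pow_le_pow_left₀ h4 h5 2

/-- **5.4 for geometric actions.** Proof: `Y = Ys (ρ z) τ o`, `Φ g = Ψ (ρ g)`.
(1) if `d(o, Φ g o) ≤ R`: `g o` and `y' = Φ g o` are on the same axis; choose `k` with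
`|B(z^k g o, o)| ≤ τ` (`Bf_zpow`); then `d(z^k g o, y') = |B(z^k g o, y')| ≤ τ` and
`d(o, z^k g o) ≤ R + τ`: finitely many `z^k g` (for the base point `o`; other base points by the
triangle inequality). (2) `Geom.cent` with `S = {z}`, `c = τ`: every `y ∈ Y` is at distance at most `D` from
`g o`, `g ∈ centralizer {z}`, so `d(y, Φ g o) ^ 2 = ρ^2(y, g o) ≤ D ^ 2`.
(3) `z y` and `y` are on the same axis. (4) `oct_Ys`. -/
theorem Geom.split [ProperSpace X] [Nonempty X] {ρ : G →* (X ≃ᵢ X)} (hG : Geom ρ) (z : G)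
    (hz : ¬ IsOfFinOrder z) :
    ∃ (Y : Set X) (_ : IsClosed Y) (_ : GConv Y) (_ : Y.Nonempty)
      (Φ : ↥(Subgroup.centralizer {z} : Subgroup G) →* (Y ≃ᵢ Y)),
      (∀ (o : Y) (R : ℝ), ∃ F : Set G, F.Finite ∧
        ∀ g : ↥(Subgroup.centralizer {z} : Subgroup G), dist o (Φ g o) ≤ R →
          ∃ k : ℤ, z ^ k * (g : G) ∈ F) ∧
      (∃ (o : Y) (D : ℝ), ∀ y : Y, ∃ g, dist y (Φ g o) ≤ D) ∧
      (∀ g : ↥(Subgroup.centralizer {z} : Subgroup G), (g : G) = z → Φ g = 1) ∧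
      (∀ n, Oct n Y → Oct (n + 1) X) := by
  classical
  obtain ⟨τ, hT, o, ho⟩ := hG.exists_TL z hz
  have hp := hT.pos
  obtain ⟨Ψ, hΨ⟩ := exists_action hT ho
  -- the homomorphism to the centralizer in the isometry group
  have hcomm : ∀ g : ↥(Subgroup.centralizer {z} : Subgroup G), ρ (g : G) * ρ z = ρ z * ρ (g : G) := by
    intro g
    rw [← map_mul, ← map_mul]
    congr 1
    exact Subgroup.mem_centralizer_singleton_iff.mp g.2
  let κ : ↥(Subgroup.centralizer {z} : Subgroup G) →*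
      ↥(Subgroup.centralizer {ρ z} : Subgroup (X ≃ᵢ X)) :=
    { toFun := fun g => ⟨ρ (g : G), Subgroup.mem_centralizer_singleton_iff.mpr (hcomm g)⟩
      map_one' := Subtype.ext (by simp)
      map_mul' := fun g h => Subtype.ext (by simp) }
  have hκ : ∀ g, ((κ g : ↥(Subgroup.centralizer {ρ z} : Subgroup (X ≃ᵢ X))) : X ≃ᵢ X) =
      ρ (g : G) := fun g => rfl
  let Φ : ↥(Subgroup.centralizer {z} : Subgroup G) →* (Ys (ρ z) τ o ≃ᵢ Ys (ρ z) τ o) := Ψ.comp κ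
  have hΦ : ∀ (g : ↥(Subgroup.centralizer {z} : Subgroup G)) (y : Ys (ρ z) τ o), SameAx (ρ z) τ (ρ (g : G) (y : X)) (Φ g y : X) := fun g y =>
    hΨ (κ g) y
  have hYM : ∀ y : Ys (ρ z) τ o, (y : X) ∈ Mn (ρ z) τ := fun y => y.2.1
  have hgM : ∀ (g : ↥(Subgroup.centralizer {z} : Subgroup G)) (x : X), x ∈ Mn (ρ z) τ →
      ρ (g : G) x ∈ Mn (ρ z) τ := fun g x hx => Mn_inv (hcomm g) hx
  refine ⟨Ys (ρ z) τ o, Ys_closed _ _ _, Ys_conv hT ho, ⟨o, mem_Ys_self hT ho⟩, Φ, ?_, ?_, ?_,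
    fun n hn => oct_Ys hT ho n hn⟩
  · -- properness modulo `z`
    intro o' R
    refine ⟨{g | dist (o' : X) (ρ g (o' : X)) ≤ R + τ}, hG.proper _ _, fun g hg => ?_⟩
    obtain ⟨k, hk⟩ := exists_zpow_near hT (hgM g _ (hYM o')) (hYM (Φ g o')) (hΦ g o')
    refine ⟨k, ?_⟩
    show dist (o' : X) (ρ (z ^ k * (g : G)) (o' : X)) ≤ R + τ
    have h1 : ρ (z ^ k * (g : G)) (o' : X) = ((ρ z) ^ k) (ρ (g : G) (o' : X)) := by
      rw [map_mul, map_zpow]; rfl
    rw [h1]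
    have h2 : dist (o' : X) (Φ g o' : X) ≤ R := hg
    rw [dist_comm] at hk
    linarith [dist_triangle (o' : X) (Φ g o' : X) (((ρ z) ^ k) (ρ (g : G) (o' : X)))]
  · -- cobounded
    obtain ⟨D, hD⟩ := hG.cent (S := {z}) (Set.finite_singleton z) o τ
    refine ⟨⟨o, mem_Ys_self hT ho⟩, D, fun y => ?_⟩
    have hy : (y : X) ∈ Xc ρ {z} τ := by
      intro s hs
      rw [Set.mem_singleton_iff] at hs
      subst hs
      exact (hYM y).le
    obtain ⟨g, hg, hgD⟩ := hD y hy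
    refine ⟨⟨g, hg⟩, ?_⟩
    set g' : ↥(Subgroup.centralizer {z} : Subgroup G) := ⟨g, hg⟩ with hg'
    set oy : Ys (ρ z) τ o := ⟨o, mem_Ys_self hT ho⟩ with hoy
    show dist (y : X) (Φ g' oy : X) ≤ D
    have hD0 : 0 ≤ D := dist_nonneg.trans hgD
    have h1 := hΦ g' oy
    have hx := hgM g' _ (hYM oy)
    have h2 := SameAx.rho_eq hT hx (hYM (Φ g' oy)) (hYM y) h1
    have h3 : Bf (ρ z) τ (Φ g' oy : X) (y : X) = 0 := Bf_Ys hT ho (Φ g' oy).2 y.2
    rw [h3] at h2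
    apply sq_le_sq_abs hD0
    rw [dist_comm]
    have h4 : dist (ρ g o) (y : X) ^ 2 ≤ D ^ 2 := by
      rw [dist_comm]; exact pow_le_pow_left₀ dist_nonneg hgD 2
    have h5 : ρ (g' : G) (oy : X) = ρ g o := rfl
    rw [h5] at h2
    nlinarith [sq_nonneg (Bf (ρ z) τ (ρ g o) (y : X))]
  · -- `z` acts trivially
    intro g hg
    ext y
    have h1 := hΦ g y
    have hzM : ρ z (y : X) ∈ Mn (ρ z) τ := Mn_inv rfl (hYM y)
    obtain ⟨w, _, hw⟩ := existsUnique_Ys hT ho hzM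
    have e1 : (Φ g y : X) = w := hw _ ⟨(Φ g y).2, by rw [hg] at h1; exact h1⟩
    have e2 : (y : X) = w := by
      refine hw _ ⟨y.2, ?_⟩
      have h2 : SameAx (ρ z) τ (y : X) (ρ z (y : X)) := by
        unfold SameAx
        have h3 := Bf_zpow_self hT (hYM y) 1
        have h4 := dist_zpow hT (hYM y) 1
        simp only [zpow_one, Int.cast_one, abs_one, one_mul] at h3 h4
        rw [h3, h4]
      exact h2.symm hT (hYM y) hzM
    rw [e1, ← e2]
    rfl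

end CTOR
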