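import Pool.Agent.CTOR.MeanHilb

/-!
# CTOR B, C: expectations with respect to finitely supported functions on a group
-/

namespace CTOR

open MonoidAlgebra

set_option linter.unusedSectionVars false

variable {H : Type*} [Group H]

/-- The expectation of `φ` with respect to the finitely supported function `f`. -/
noncomputable def Ex (f : MonoidAlgebra ℝ H) (φ : H → ℝ) : ℝ := f.coeff.sum fun h c => c * φ h

theorem Ex_add (f g : MonoidAlgebra ℝ H) (φ : H → ℝ) : Ex (f + g) φ = Ex f φ + Ex g φ := by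
  unfold Ex
  rw [coeff_add]
  exact Finsupp.sum_add_index' (by simp) (by intros; ring)

theorem Ex_zero (φ : H → ℝ) : Ex (0 : MonoidAlgebra ℝ H) φ = 0 := by
  simp [Ex]

theorem Ex_single (h : H) (c : ℝ) (φ : H → ℝ) : Ex (single h c) φ = c * φ h := by
  unfold Ex
  rw [coeff_single]
  exact Finsupp.sum_single_index (by simp)

theorem Ex_one (φ : H → ℝ) : Ex (1 : MonoidAlgebra ℝ H) φ = φ 1 := by
  rw [one_def, Ex_single, one_mul]

/-- As a finite sum over any finite set containing the support. -/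
theorem Ex_eq_sum (f : MonoidAlgebra ℝ H) (φ : H → ℝ) :
    Ex f φ = ∑ h ∈ f.coeff.support, f.coeff h * φ h := rfl

theorem Ex_eq_sum_of_subset {f : MonoidAlgebra ℝ H} (φ : H → ℝ) {s : Finset H}
    (hs : f.coeff.support ⊆ s) : Ex f φ = ∑ h ∈ s, f.coeff h * φ h :=
  Finsupp.sum_of_support_subset _ hs _ (by simp)

theorem Ex_congr {f : MonoidAlgebra ℝ H} {φ ψ : H → ℝ} (h : ∀ x, φ x = ψ x) : Ex f φ = Ex f ψ := by
  have : φ = ψ := funext h
  rw [this]

theorem Ex_add_right (f : MonoidAlgebra ℝ H) (φ ψ : H → ℝ) :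
    Ex f (fun h => φ h + ψ h) = Ex f φ + Ex f ψ := by
  simp only [Ex_eq_sum, mul_add, Finset.sum_add_distrib]

theorem Ex_sub_right (f : MonoidAlgebra ℝ H) (φ ψ : H → ℝ) :
    Ex f (fun h => φ h - ψ h) = Ex f φ - Ex f ψ := by
  simp only [Ex_eq_sum, mul_sub, Finset.sum_sub_distrib]

theorem Ex_smul_right (f : MonoidAlgebra ℝ H) (c : ℝ) (φ : H → ℝ) :
    Ex f (fun h => c * φ h) = c * Ex f φ := by
  simp only [Ex_eq_sum, Finset.mul_sum]
  exact Finset.sum_congr rfl fun h _ => by ring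

theorem Ex_zero_right (f : MonoidAlgebra ℝ H) : Ex f (fun _ => 0) = 0 := by
  simp [Ex_eq_sum]

/-- Fubini. -/
theorem Ex_comm {K : Type*} [Group K] (f : MonoidAlgebra ℝ H) (g : MonoidAlgebra ℝ K)
    (ψ : H → K → ℝ) :
    Ex f (fun u => Ex g (fun v => ψ u v)) = Ex g (fun v => Ex f (fun u => ψ u v)) := by
  simp only [Ex_eq_sum, Finset.mul_sum]
  rw [Finset.sum_comm]
  exact Finset.sum_congr rfl fun v _ => Finset.sum_congr rfl fun u _ => by ring

/-- The expectation with respect to a product. -/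
theorem Ex_mul (f g : MonoidAlgebra ℝ H) (φ : H → ℝ) :
    Ex (f * g) φ = Ex f (fun u => Ex g (fun v => φ (u * v))) := by
  induction f using MonoidAlgebra.induction_linear with
  | zero => rw [zero_mul, Ex_zero, Ex_zero]
  | add f1 f2 h1 h2 => rw [add_mul, Ex_add, Ex_add, h1, h2]
  | single u c =>
    rw [Ex_single]
    induction g using MonoidAlgebra.induction_linear with
    | zero => rw [mul_zero, Ex_zero, Ex_zero, mul_zero]
    | add g1 g2 h1 h2 => rw [mul_add, Ex_add, h1, h2, Ex_add, mul_add]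
    | single v d => rw [single_mul_single, Ex_single, Ex_single, mul_assoc]

/-- A finitely supported probability. -/
structure ProbA (f : MonoidAlgebra ℝ H) : Prop where
  nonneg : ∀ h, 0 ≤ f.coeff h
  total : Ex f (fun _ => 1) = 1

theorem Ex_nonneg {f : MonoidAlgebra ℝ H} (hf : ∀ h, 0 ≤ f.coeff h) {φ : H → ℝ}
    (hφ : ∀ h, 0 ≤ φ h) : 0 ≤ Ex f φ := by
  rw [Ex_eq_sum]
  exact Finset.sum_nonneg fun h _ => mul_nonneg (hf h) (hφ h)

theorem Ex_mono {f : MonoidAlgebra ℝ H} (hf : ∀ h, 0 ≤ f.coeff h) {φ ψ : H → ℝ}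
    (hφ : ∀ h, φ h ≤ ψ h) : Ex f φ ≤ Ex f ψ := by
  have := Ex_nonneg hf (φ := fun h => ψ h - φ h) fun h => sub_nonneg.mpr (hφ h)
  rw [Ex_sub_right] at this
  linarith

open Classical in
theorem Ex_indicator (f : MonoidAlgebra ℝ H) (x : H) :
    Ex f (fun h => if h = x then 1 else 0) = f.coeff x := by
  rw [Ex_eq_sum]
  by_cases hx : x ∈ f.coeff.support
  · rw [Finset.sum_eq_single x]
    · simp
    · intro b _ hb; simp [hb]
    · intro h; exact absurd hx h
  · rw [Finset.sum_eq_zero]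
    · exact (Finsupp.notMem_support_iff.mp hx).symm
    · intro b hb
      have : b ≠ x := fun h => hx (h ▸ hb)
      simp [this]

theorem coeff_mul_nonneg {f g : MonoidAlgebra ℝ H} (hf : ∀ h, 0 ≤ f.coeff h)
    (hg : ∀ h, 0 ≤ g.coeff h) (h : H) : 0 ≤ (f * g).coeff h := by
  classical
  rw [← Ex_indicator, Ex_mul]
  exact Ex_nonneg hf fun u => Ex_nonneg hg fun v => by split_ifs <;> simp

theorem ProbA.one : ProbA (1 : MonoidAlgebra ℝ H) := by
  classical
  refine ⟨fun h => ?_, by rw [Ex_one]⟩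
  rw [← Ex_indicator, Ex_one]
  split_ifs <;> simp

theorem ProbA.mul {f g : MonoidAlgebra ℝ H} (hf : ProbA f) (hg : ProbA g) : ProbA (f * g) := by
  refine ⟨coeff_mul_nonneg hf.nonneg hg.nonneg, ?_⟩
  rw [Ex_mul]
  simp only [hg.total, hf.total]

theorem ProbA.pow {f : MonoidAlgebra ℝ H} (hf : ProbA f) (n : ℕ) : ProbA (f ^ n) := by
  induction n with
  | zero => rw [pow_zero]; exact ProbA.one
  | succ n ih => rw [pow_succ]; exact ih.mul hf

theorem ProbA.const {f : MonoidAlgebra ℝ H} (hf : ProbA f) (c : ℝ) : Ex f (fun _ => c) = c := by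
  have := Ex_smul_right f c (fun _ => 1)
  simpa [hf.total] using this

/-- `E (φ + ψ)^2 ≤ (1 + s) E φ^2 + (1 + 1/s) E ψ^2`-free form: Cauchy-Schwarz. -/
theorem Ex_mul_sq_le {f : MonoidAlgebra ℝ H} (hf : ∀ h, 0 ≤ f.coeff h) (φ ψ : H → ℝ) :
    (Ex f (fun h => φ h * ψ h)) ^ 2 ≤ Ex f (fun h => φ h ^ 2) * Ex f (fun h => ψ h ^ 2) := by
  simp only [Ex_eq_sum]
  have h1 : ∀ h, f.coeff h * (φ h * ψ h) =
      (√(f.coeff h) * φ h) * (√(f.coeff h) * ψ h) := by
    intro h
    calc f.coeff h * (φ h * ψ h) = (√(f.coeff h) * √(f.coeff h)) * (φ h * ψ h) := by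
          rw [Real.mul_self_sqrt (hf h)]
      _ = _ := by ring
  have h2 : ∀ (χ : H → ℝ) h, f.coeff h * χ h ^ 2 = (√(f.coeff h) * χ h) ^ 2 := by
    intro χ h
    rw [mul_pow, Real.sq_sqrt (hf h)]
  simp only [h1, h2]
  exact Finset.sum_mul_sq_le_sq_mul_sq _ _ _

end CTOR
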